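import Pool.Agent.DGO.Defs

/-!
# Arrays with pointers: definitions for the proof

`I` is the finite set of the variables of the base formula (the blocks), `t` the length of a pointer.
An array gives each block `i` a table with `2 ^ t` bits, a pointer assignment `p` chooses one of them;
the value of the base variable `i` is `V i (p i)`.
-/

set_option autoImplicit false

namespace Pool.Agent.DGO

open Finset Pool.Agent.OB

/-- The arrays. -/
abbrev Arr (I : Type) (t : ℕ) := I → (Fin t → Bool) → Bool

/-- The pointer assignments. -/
abbrev Ptr (I : Type) (t : ℕ) := I → Fin t → Bool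

/-- The sign of a bit. -/
def sg (b : Bool) : ℝ := if b = true then -1 else 1

section

variable {I : Type} [Fintype I] [DecidableEq I] {t : ℕ}

/-- The members of `W` for which the base variables in `Q` have the values `z`. -/
def sub (W : Finset (Arr I t)) (p : Ptr I t) (Q : Finset I) (z : I → Bool) : Finset (Arr I t) :=
  W.filter fun V => ∀ i ∈ Q, V i (p i) = z i

/-- `W` contains at least the part `2 ^ (-d)` of all arrays. -/
def Big (d : ℕ) (W : Finset (Arr I t)) : Prop := Fintype.card (Arr I t) ≤ W.card * 2 ^ d

/-- The sum over `W` of the product of the signs of the base variables in `T`. -/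
def bias (W : Finset (Arr I t)) (p : Ptr I t) (T : Finset I) : ℝ :=
  ∑ V ∈ W, ∏ i ∈ T, sg (V i (p i))

/-- The set `T` of base variables is dangerous for `W` and `p`. -/
def Dang (W : Finset (Arr I t)) (p : Ptr I t) (T : Finset I) : Prop :=
  (W.card : ℝ) < |bias W p T| * (8 * (Fintype.card I : ℝ)) ^ T.card

/-- `Chain d W p Q z`: the set `Q` is the union of disjoint nonempty sets `T 1, ..., T q` such that
for each `j` the part of `W` on which the base variables in `T 1 ∪ ... ∪ T (j - 1)` have the values
`z` is big, and `T j` is dangerous for it. -/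
inductive Chain (d : ℕ) (W : Finset (Arr I t)) (p : Ptr I t) : Finset I → (I → Bool) → Prop
  | nil (z : I → Bool) : Chain d W p ∅ z
  | step {Q : Finset I} {z : I → Bool} (T : Finset I) : Chain d W p Q z →
      Big d (sub W p Q z) → T.Nonempty → Disjoint T Q → Dang (sub W p Q z) p T →
      Chain d W p (Q ∪ T) z

/-- All chains have at most `r` members. -/
def Good (d r : ℕ) (W : Finset (Arr I t)) (p : Ptr I t) : Prop :=
  ∀ Q z, Chain d W p Q z → Q.card ≤ r

/-- The pointer assignments which agree with `p₀` outside of the bits in `Λ`. -/
def cls (Λ : I → Finset (Fin t)) (p₀ : Ptr I t) : Finset (Ptr I t) :=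
  univ.filter fun p => ∀ i, ∀ l ∉ Λ i, p i l = p₀ i l

/-- The arrays removed before the line `v`: for each earlier line `u` and ALL pointer assignments `p`
the members of `F u p` (not removed earlier) which lie in a part of it that is not big. -/
noncomputable def Bad (d : ℕ) (F : ℕ → Ptr I t → Finset (Arr I t)) : ℕ → Finset (Arr I t)
  | 0 => ∅
  | v + 1 => by
      classical
      exact Bad d F v ∪ univ.filter fun V => ∃ (p : Ptr I t) (Q : Finset I) (z : I → Bool),
        ¬ Big d (sub (F v p \ Bad d F v) p Q z) ∧ V ∈ sub (F v p \ Bad d F v) p Q z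

/-- The cleaned line. -/
noncomputable def Wc (d : ℕ) (F : ℕ → Ptr I t → Finset (Arr I t)) (v : ℕ) (p : Ptr I t) :
    Finset (Arr I t) := F v p \ Bad d F v

/-- `H` is a winning strategy with memory `w` against refutations of `G` of small width: a family of
pairs `(Q, z)` (only the values of `z` on `Q` matter) which is closed under
restrictions, can be extended by any further variable if it has less than `w` variables, and never
falsifies a clause of `G`. -/
structure Strat (G : CNF I) (w : ℕ) (H : Finset I → (I → Bool) → Prop) : Prop where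
  emp : ∀ z, H ∅ z
  mono : ∀ Q Q' z, H Q z → Q' ⊆ Q → H Q' z
  congr : ∀ Q z z', H Q z → (∀ i ∈ Q, z i = z' i) → H Q z'
  ext : ∀ Q z i, H Q z → Q.card < w → i ∉ Q → ∃ b, H (insert i Q) (Function.update z i b)
  good : ∀ Q z C, H Q z → C ∈ G → (∀ l ∈ C, l.1 ∈ Q) → Sat z C

/-- The line `v` at the pointer assignments in `cls Λ p₀` is one of at most `S` sets, for some `Λ` with
`a` pointer bits in each block. -/
def Few (a S : ℕ) (F : Ptr I t → Finset (Arr I t)) : Prop :=
  ∃ Λ : I → Finset (Fin t), (∀ i, (Λ i).card = a) ∧
    ∀ p₀, ((cls Λ p₀).image F).card ≤ S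

end

end Pool.Agent.DGO
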