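import Pool.Agent.DGO.CDefs

/-!
# Project DGO: statements, part 2 (the base formula, the lifted formula, OBDDs)
-/

set_option autoImplicit false

namespace Pool.Agent.DGO

open Finset Pool.Agent.OB

/-! ## The base formula: the pigeonhole principle with extension variables (width 3) -/

/-- The variables: `(i, inl j)`: pigeon `i` sits in hole `j`; `(i, inr j)`: the hole of pigeon `i` is
smaller than `j`. -/
abbrev PV (m : ℕ) : Type := Fin (m + 1) × (Fin m ⊕ Fin (m + 1))

/-- The formula. -/
def EPHP (m : ℕ) : CNF (PV m) :=
  (univ.image fun i : Fin (m + 1) => {((i, Sum.inr 0), false)}) ∪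
  (univ.image fun i : Fin (m + 1) => {((i, Sum.inr (Fin.last m)), true)}) ∪
  (univ.image fun v : Fin (m + 1) × Fin m =>
    {((v.1, Sum.inr v.2.succ), false), ((v.1, Sum.inr v.2.castSucc), true),
      ((v.1, Sum.inl v.2), true)}) ∪
  ((univ.filter fun v : Fin (m + 1) × Fin (m + 1) × Fin m => v.1 ≠ v.2.1).image fun v =>
    {((v.1, Sum.inl v.2.2), false), ((v.2.1, Sum.inl v.2.2), false)})

/-- PHP: the base formula is unsatisfiable, of width 3, and hard for narrow refutations.
Proof. Unsat: let `x` satisfy all clauses. For each `i`: `x (i, inr 0) = false`,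
`x (i, inr (last m)) = true`, so there is `j : Fin m` with `x (i, inr j.castSucc) = false` and
`x (i, inr j.succ) = true` (induction on `j : Fin (m + 1)`, `Fin.induction`), so
`x (i, inl j) = true`. Two pigeons get the same hole: contradiction. The widths and the number of the
clauses: `Finset.card_image_le`, `Finset.card_le_three`. Strategy: `H Q z` := `Q.card ≤ m` and there is
`h : Fin (m + 1) → Fin m`, injective on `Q.image Prod.fst`, with `z v = val h v` for `v ∈ Q`, where
`val h (i, inl j) = decide (h i = j)`, `val h (i, inr j) = decide ((h i : ℕ) < j)`. `ext`: if the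
pigeon `i` of the new variable occurs in `Q` keep `h`; otherwise `Q.image Prod.fst` has at most
`|Q| < m` elements, so some hole is free, and `h` may be changed at `i`. `good`: for the four kinds of
clauses: `h i < 0` is false; `h i < m`; `h i < j + 1 → h i < j ∨ h i = j`; not `h i = j = h i'` for
`i ≠ i'` in `Q.image Prod.fst`. -/
def S_PHP : Prop := ∀ m : ℕ, 1 ≤ m → Unsat (EPHP m) ∧ (∀ C ∈ EPHP m, C.card ≤ 3) ∧
  (EPHP m).card ≤ 4 * (m + 1) ^ 3 ∧ Fintype.card (PV m) = (m + 1) * (2 * m + 1) ∧
  ∃ H : Finset (PV m) → (PV m → Bool) → Prop, Strat (EPHP m) m H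

/-! ## The lifted formula -/

/-- The indices of the positions of one row: `t` pointer bits, and `h` copies of each of the `2 ^ t`
bits of the table. -/
abbrev Ix (t h : ℕ) : Type := Fin t ⊕ ((Fin t → Bool) × Fin h)

/-- The variables: a pool of `N` variables, and `g` selector bits for each block. -/
abbrev LV (I : Type) (N g : ℕ) : Type := Fin N ⊕ (I × Fin g)

section

variable {I : Type} [Fintype I] [DecidableEq I] {N g t h : ℕ}

/-- the selector of the block `i` -/
def sel (b : LV I N g → Bool) (i : I) : Fin g → Bool := fun j => b (Sum.inr (i, j))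

/-- the pointer of the block `i` -/
def ptr (τ : I → (Fin g → Bool) → Ix t h → Fin N) (b : LV I N g → Bool) (i : I) : Fin t → Bool :=
  fun l => b (Sum.inl (τ i (sel b i) (Sum.inl l)))

/-- the copies of the bit of the table of the block `i` that is chosen by the pointer -/
def cpy (τ : I → (Fin g → Bool) → Ix t h → Fin N) (b : LV I N g → Bool) (i : I) : Fin h → Bool :=
  fun j => b (Sum.inl (τ i (sel b i) (Sum.inr (ptr τ b i, j))))

/-- parity -/
def xr (c : Fin h → Bool) : Bool := decide (Odd (univ.filter fun j => c j = true).card)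

/-- The value of the base variable `i`. -/
def Z (τ : I → (Fin g → Bool) → Ix t h → Fin N) (b : LV I N g → Bool) (i : I) : Bool :=
  xr (cpy τ b i)

/-- The variables that are read for the value of the base variable `i`. -/
def look (τ : I → (Fin g → Bool) → Ix t h → Fin N) (b : LV I N g → Bool) (i : I) :
    Finset (LV I N g) :=
  (univ.image fun j : Fin g => Sum.inr (i, j)) ∪
  (univ.image fun l : Fin t => Sum.inl (τ i (sel b i) (Sum.inl l))) ∪
  (univ.image fun j : Fin h => Sum.inl (τ i (sel b i) (Sum.inr (ptr τ b i, j))))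

/-- The clause which says that the variables read for the base variables of `C` do not all have the
values `b`. -/
def cl (τ : I → (Fin g → Bool) → Ix t h → Fin N) (C : Clause I) (b : LV I N g → Bool) :
    Clause (LV I N g) :=
  ((C.image Prod.fst).biUnion (look τ b)).image fun x => (x, !b x)

open Classical in
/-- The lifted formula. -/
noncomputable def lift (τ : I → (Fin g → Bool) → Ix t h → Fin N) (G : CNF I) : CNF (LV I N g) :=
  G.biUnion fun C => (univ.filter fun b : LV I N g → Bool => ¬ Sat (Z τ b) C).image (cl τ C)

end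

/-- LFT: the lifted formula.
Proof. (1) If `b` falsifies `cl τ C b'` then `b = b'` on `look τ b' i` for all variables `i` of `C`; so
`sel b i = sel b' i`, then `ptr τ b i = ptr τ b' i`, then `cpy τ b i = cpy τ b' i`, so
`Z τ b i = Z τ b' i`. Members of `lift τ G` are `cl τ C b'` with `C ∈ G`, `¬ Sat (Z τ b') C`.
(2) For `b` let `C ∈ G` be falsified by `Z τ b`; then `cl τ C b ∈ lift τ G` and `b` falsifies it.
(3) Each `(x, c) ∈ cl τ C b` has `c = !b x`. (4) `|look τ b i| ≤ g + t + h`. (5) `cl τ C b` is determined
by `C` and by the three functions `sel b i`, `ptr τ b i`, `cpy τ b i` for the variables `i` of `C` (the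
positions in `look τ b i` are determined by `sel b i` and `ptr τ b i`, and the values of `b` there are
the values of these functions): for each `C` the map `b ↦ cl τ C b` factors through the functions
`{i // i ∈ C.image Prod.fst} → (Fin g → Bool) × (Fin t → Bool) × (Fin h → Bool)`, and their number is at
most `(2 ^ (g + t + h)) ^ 3` (`Finset.card_image_le` for the factorisation; `|C.image Prod.fst| ≤ 3`). -/
def S_LFT : Prop := ∀ (I : Type) [Fintype I] [DecidableEq I] (N g t h : ℕ)
  (τ : I → (Fin g → Bool) → Ix t h → Fin N) (G : CNF I), (∀ C ∈ G, C.card ≤ 3) →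
  (∀ D ∈ lift τ G, ∃ C ∈ G, ∀ b, ¬ Sat b D → ¬ Sat (Z τ b) C) ∧
  (Unsat G → Unsat (lift τ G)) ∧ (∀ D ∈ lift τ G, ¬ Taut D) ∧
  (∀ D ∈ lift τ G, D.card ≤ 3 * (g + t + h)) ∧
  (lift τ G).card ≤ G.card * 2 ^ (3 * (g + t + h))

/-! ## The embedding of the arrays -/

section

variable {I : Type} [Fintype I] [DecidableEq I] {N g t h : ℕ}

open Classical in
/-- The assignment for the pointers `p` and the array `V`: the selectors are `so`; the position of a
pointer bit in the row `so` has its value, the representative `rep i q` of the table bit `(i, q)` has the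
value `V i q`; all other variables of the pool are `false`. -/
noncomputable def emb (τ : I → (Fin g → Bool) → Ix t h → Fin N) (so : I → Fin g → Bool)
    (rep : I → (Fin t → Bool) → Fin h) (p : Ptr I t) (V : Arr I t) : LV I N g → Bool
  | Sum.inr (i, j) => so i j
  | Sum.inl x =>
    if hx : ∃ v : I × Fin t, τ v.1 (so v.1) (Sum.inl v.2) = x then p hx.choose.1 hx.choose.2
    else if hy : ∃ v : I × (Fin t → Bool), τ v.1 (so v.1) (Sum.inr (v.2, rep v.1 v.2)) = x then
      V hy.choose.1 hy.choose.2
    else false

end

/-- EMB: the embedding.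
Proof. By the injectivity `choose` gives back the index: the position `τ i (so i) (inl l)` has the value
`p i l`; the position `τ i (so i) (inr (q, j))` is not a pointer position, so it has the value `V i q` if
`j = rep i q` and `false` otherwise (then it is no representative, by injectivity). So
`sel (emb ..) i = so i`, `ptr .. i = p i`, `cpy .. i j = if j = rep i (p i) then V i (p i) else false`,
and the parity is `V i (p i)`. Last two claims: a variable that is not the position of a pointer bit has
a value that does not depend on `p`; one that is no representative has a value that does not depend on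
`V`. -/
def S_EMB : Prop := ∀ (I : Type) [Fintype I] [DecidableEq I] (N g t h : ℕ)
  (τ : I → (Fin g → Bool) → Ix t h → Fin N) (so : I → Fin g → Bool)
  (rep : I → (Fin t → Bool) → Fin h),
  (Function.Injective fun v : I × Ix t h => τ v.1 (so v.1) v.2) →
  (∀ p V i, Z τ (emb τ so rep p V) i = V i (p i)) ∧
  (∀ p V i l, emb τ so rep p V (Sum.inl (τ i (so i) (Sum.inl l))) = p i l) ∧
  (∀ p V p' V' x, (∀ i l, x = τ i (so i) (Sum.inl l) → p i l = p' i l) →
    (∀ i q, x = τ i (so i) (Sum.inr (q, rep i q)) → V i q = V' i q) →
    emb τ so rep p V (Sum.inl x) = emb τ so rep p' V' (Sum.inl x))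

/-! ## OBDDs -/

/-- OST: the state of an OBDD after an initial segment of the variables.
Proof. As `Pool.Agent.OB.ob_state` (file Pool/Agent/Lib_helper80/OB/Obdd.lean) with
`A = {v | (σ v : ℕ) < c}` for `obA σ` (the lemmas there about `ObSt` are for any `A`; only `ob_out_off`
uses the segment, its proof is the same). -/
def S_OST : Prop := ∀ (V : Type) [Fintype V] (σ : V ≃ Fin (Fintype.card V)) (s : ℕ)
  (f : (V → Bool) → Bool), HasOBDD σ s f → ∀ c : ℕ, ∃ st : (V → Bool) → Fin s,
    (∀ x y, (∀ v, (σ v : ℕ) < c → x v = y v) → st x = st y) ∧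
    ∀ x y, st x = st y → (∀ v, c ≤ (σ v : ℕ) → x v = y v) → f x = f y

open Classical in
/-- FEW (uses `S_OST`, `S_EMB`): the arrays falsified by a line are one of few sets.
Proof. `A` = the set of the `x : Fin N` with `σ (inl x) < c`. Choose `Λ i` with `a` elements among the
`l` with `τ i (so i) (inl l) ∈ A`. Let `p` be in the class of `p₀`. `st (emb p V)` does not depend on `V`
(the representatives are not in `A`, the selectors are constant): it is `st (emb p V₀)`,
`V₀ = fun _ _ => false`. If
`st (emb p V₀) = st (emb p' V₀)` for `p, p' ∈ cls Λ p₀` then for all `V`: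
`st (emb p V) = st (emb p' V)`, and
`emb p V = emb p' V` at all variables `v` with `c ≤ σ v` (`p`, `p'` differ only at pointer bits in `Λ`,
their positions are in `A`); so `f (emb p V) = f (emb p' V)`. So the set `{V | f (emb p V) = false}` is a
function of `st (emb p V₀) : Fin s'`, and the image has at most `s' ≤ s` elements
(`Finset.card_le_card_of_injOn` or: image ⊆ image of `Fin s'` under a choice). -/
def S_FEW : Prop := ∀ (I : Type) [Fintype I] [DecidableEq I] (N g t h a s c : ℕ)
  (τ : I → (Fin g → Bool) → Ix t h → Fin N) (so : I → Fin g → Bool)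
  (rep : I → (Fin t → Bool) → Fin h)
  (σ : LV I N g ≃ Fin (Fintype.card (LV I N g))) (f : (LV I N g → Bool) → Bool),
  (Function.Injective fun v : I × Ix t h => τ v.1 (so v.1) v.2) →
  (∀ i, a ≤ (univ.filter fun l : Fin t =>
    (σ (Sum.inl (τ i (so i) (Sum.inl l))) : ℕ) < c).card) →
  (∀ i q, c ≤ (σ (Sum.inl (τ i (so i) (Sum.inr (q, rep i q)))) : ℕ)) →
  (∃ s' ≤ s, HasOBDD σ s' f) →
  Few a s fun p => univ.filter fun V : Arr I t => f (emb τ so rep p V) = false

/-- CTL: cutting an order.
Proof. The function `c ↦ #{x | σ (e x) < c}` is `0` for `c = 0`, `N` for `c = |V|`, and grows by at most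
one in each step (`e`, `σ` injective). Discrete intermediate value (induction, or the least `c` with
`κ ≤ ..`, `Nat.find`). -/
def S_CTL : Prop := ∀ (V : Type) [Fintype V] (N κ : ℕ) (e : Fin N → V)
  (σ : V ≃ Fin (Fintype.card V)), Function.Injective e → κ ≤ N →
  ∃ c : ℕ, (univ.filter fun x : Fin N => (σ (e x) : ℕ) < c).card = κ

/-- TRN: renaming the variables.
Proof. `F' = F.image (fun C => C.image fun l => (e l.1, l.2))`. `Sat (x ∘ e) C ↔ Sat x (C.image ..)`; from
it Unsat, and Taut; `e` is injective: cardinalities. `DagRef F' l s L → DagRef F l s L`: the orders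
`e.trans (ord k)` (then `finCongr (Fintype.card_congr e).symm`, order preserving values), the
functions `fun x => f k (x ∘ e.symm)`, the diagrams with each variable `v` replaced by `e.symm v`
(`Out`: induction in both directions, or use `ob_out_det` for one). -/
def S_TRN : Prop := ∀ (V V' : Type) [Fintype V] [Fintype V'] [DecidableEq V] [DecidableEq V']
  (_ : V ≃ V') (F : CNF V), ∃ F' : CNF V', (Unsat F → Unsat F') ∧ F'.card ≤ F.card ∧
    (∀ w : ℕ, (∀ C ∈ F, C.card ≤ w) → ∀ C ∈ F', C.card ≤ w) ∧
    ((∀ C ∈ F, ¬ Taut C) → ∀ C ∈ F', ¬ Taut C) ∧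
    ∀ l s L : ℕ, DagRef F' l s L → DagRef F l s L

end Pool.Agent.DGO
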