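import Pool.Agent.DGO.St1

/-!
# DGO: the set of all arrays without a small set (module ALL, MP_a77cad_lc, helper54)
-/

set_option autoImplicit false

namespace Pool.Agent.DGO

open Finset Pool.Agent.OB

namespace MALL

section

variable {I : Type} [DecidableEq I] {t : ℕ}

/-- the bit `(j, p j)` is flipped -/
def flip (p : Ptr I t) (j : I) (V : Arr I t) : Arr I t :=
  Function.update V j (Function.update (V j) (p j) (!(V j (p j))))

lemma flip_self (p : Ptr I t) (j : I) (V : Arr I t) : flip p j V j (p j) = !(V j (p j)) := by
  unfold flip
  rw [Function.update_self, Function.update_self]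

lemma flip_ne (p : Ptr I t) (j i : I) (V : Arr I t) (h : i ≠ j) : flip p j V i = V i := by
  unfold flip
  rw [Function.update_of_ne h]

lemma flip_flip (p : Ptr I t) (j : I) (V : Arr I t) : flip p j (flip p j V) = V := by
  funext i
  by_cases h : i = j
  · subst h
    funext x
    by_cases hx : x = p i
    · subst hx
      rw [flip_self, flip_self, Bool.not_not]
    · unfold flip
      rw [Function.update_self, Function.update_of_ne hx, Function.update_self,
        Function.update_of_ne hx]
  · rw [flip_ne _ _ _ _ h, flip_ne _ _ _ _ h]

end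

variable {I : Type} [Fintype I] [DecidableEq I] {t : ℕ}

/-- one more fixed value halves the number of the arrays -/
lemma step (p : Ptr I t) (Q : Finset I) (z : I → Bool) (j : I) (hj : j ∉ Q) :
    (sub (univ : Finset (Arr I t)) p Q z).card =
      2 * (sub (univ : Finset (Arr I t)) p (insert j Q) z).card := by
  have h1 := Finset.card_filter_add_card_filter_not (s := sub (univ : Finset (Arr I t)) p Q z)
    (fun V : Arr I t => V j (p j) = z j)
  have h2 : (sub (univ : Finset (Arr I t)) p Q z).filter (fun V : Arr I t => V j (p j) = z j) =
      sub (univ : Finset (Arr I t)) p (insert j Q) z := by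
    ext V
    simp only [sub, mem_filter, mem_univ, true_and, mem_insert]
    constructor
    · rintro ⟨h, h'⟩ i (hi | hi)
      · rw [hi, h']
      · exact h i hi
    · intro h
      exact ⟨fun i hi => h i (Or.inr hi), h j (Or.inl rfl)⟩
  have h3 : ((sub (univ : Finset (Arr I t)) p Q z).filter
      (fun V : Arr I t => ¬ V j (p j) = z j)).card =
      (sub (univ : Finset (Arr I t)) p (insert j Q) z).card := by
    refine Finset.card_nbij' (flip p j) (flip p j) ?_ ?_ ?_ ?_
    · intro V hV
      have hV' := Finset.mem_coe.1 hV
      apply Finset.mem_coe.2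
      simp only [sub, mem_filter, mem_univ, true_and, mem_insert] at hV' ⊢
      rintro i (hi | hi)
      · subst hi
        rw [flip_self]
        have := hV'.2
        revert this
        cases V i (p i) <;> cases z i <;> simp
      · rw [flip_ne _ _ _ _ (fun h : i = j => hj (by rw [← h]; exact hi))]
        exact hV'.1 i hi
    · intro V hV
      have hV' := Finset.mem_coe.1 hV
      apply Finset.mem_coe.2
      simp only [sub, mem_filter, mem_univ, true_and, mem_insert] at hV' ⊢
      refine ⟨fun i hi => ?_, ?_⟩
      · rw [flip_ne _ _ _ _ (fun h : i = j => hj (by rw [← h]; exact hi))]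
        exact hV' i (Or.inr hi)
      · rw [flip_self, hV' j (Or.inl rfl)]
        cases z j <;> simp
    · intro V _
      exact flip_flip p j V
    · intro V _
      exact flip_flip p j V
  rw [h2, h3] at h1
  omega

lemma card_sub (p : Ptr I t) (z : I → Bool) (Q : Finset I) :
    (sub (univ : Finset (Arr I t)) p Q z).card * 2 ^ Q.card = Fintype.card (Arr I t) := by
  induction Q using Finset.induction_on with
  | empty =>
    have h : sub (univ : Finset (Arr I t)) p ∅ z = univ := by
      unfold sub
      apply Finset.filter_true_of_mem
      intro V _ i hi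
      exact absurd hi (Finset.notMem_empty i)
    rw [h, Finset.card_empty, pow_zero, mul_one, Finset.card_univ]
  | insert j Q hj ih =>
    rw [Finset.card_insert_of_notMem hj, ← ih, step p Q z j hj, pow_succ]
    ring

end MALL

open MALL in
theorem t_ALL : S_ALL := by
  intro I _ _ t d B p Q z
  refine ⟨card_sub p z Q, fun hB hd => ?_⟩
  have h1 := card_sub (t := t) p z Q
  have h2 : (sub (univ : Finset (Arr I t)) p Q z).card ≤
      (sub (univ \ B) p Q z).card + B.card := by
    refine (Finset.card_le_card ?_).trans (Finset.card_union_le _ _)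
    intro V hV
    by_cases hVB : V ∈ B
    · exact Finset.mem_union_right _ hVB
    · apply Finset.mem_union_left
      simp only [sub, mem_filter, mem_univ, true_and, mem_sdiff] at hV ⊢
      exact ⟨hVB, hV⟩
  have h3 : Fintype.card (Arr I t) ≤
      (sub (univ : Finset (Arr I t)) p Q z).card * 2 ^ Fintype.card I := by
    rw [← h1]
    exact Nat.mul_le_mul_left _ (Nat.pow_le_pow_right (by norm_num) (Finset.card_le_univ Q))
  have h4 : (sub (univ : Finset (Arr I t)) p Q z).card * 2 ^ (Fintype.card I + 1) ≤
      ((sub (univ \ B) p Q z).card + B.card) * 2 ^ (Fintype.card I + 1) :=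
    Nat.mul_le_mul_right _ h2
  have h5 : (sub (univ \ B) p Q z).card * 2 ^ (Fintype.card I + 1) ≤
      (sub (univ \ B) p Q z).card * 2 ^ d :=
    Nat.mul_le_mul_left _ (Nat.pow_le_pow_right (by norm_num) hd)
  have h6 : 2 * Fintype.card (Arr I t) ≤
      (sub (univ : Finset (Arr I t)) p Q z).card * 2 ^ (Fintype.card I + 1) := by
    calc 2 * Fintype.card (Arr I t)
        ≤ 2 * ((sub (univ : Finset (Arr I t)) p Q z).card * 2 ^ Fintype.card I) :=
          Nat.mul_le_mul_left _ h3
      _ = (sub (univ : Finset (Arr I t)) p Q z).card * 2 ^ (Fintype.card I + 1) := by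
          rw [pow_succ]
          ring
  rw [add_mul] at h4
  unfold Big
  omega

end Pool.Agent.DGO
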