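import Pool.Agent.DGO.St1

/-!
DGO, module BAD: few arrays are removed.
-/

set_option autoImplicit false

namespace Pool.Agent.DGO

open Finset Pool.Agent.OB

namespace MBAD

variable {I : Type} [Fintype I] [DecidableEq I] {t : ℕ}

theorem bad_succ (d : ℕ) (F : ℕ → Ptr I t → Finset (Arr I t)) (v : ℕ) (V : Arr I t) :
    V ∈ Bad d F (v + 1) ↔ V ∈ Bad d F v ∨ ∃ (p : Ptr I t) (Q : Finset I) (z : I → Bool),
      ¬ Big d (sub (F v p \ Bad d F v) p Q z) ∧ V ∈ sub (F v p \ Bad d F v) p Q z := by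
  rw [Bad]
  simp only [mem_union, mem_filter, mem_univ, true_and]

theorem mono (d : ℕ) (F : ℕ → Ptr I t → Finset (Arr I t)) (u v : ℕ) (h : u ≤ v) :
    Bad d F u ⊆ Bad d F v := by
  induction v, h using Nat.le_induction with
  | base => exact Subset.refl _
  | succ v _ ih =>
    intro V hV
    rw [bad_succ]
    exact Or.inl (ih hV)

open Classical in
/-- the triples with a small part -/
noncomputable def Tri (d : ℕ) (F : ℕ → Ptr I t → Finset (Arr I t)) (v : ℕ) :
    Finset (Ptr I t × Finset I × (I → Bool)) :=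
  univ.filter fun x => ¬ Big d (sub (F v x.1 \ Bad d F v) x.1 x.2.1 x.2.2)

theorem card_tri (d : ℕ) (F : ℕ → Ptr I t → Finset (Arr I t)) (v : ℕ) :
    (Tri d F v).card ≤ 2 ^ (Fintype.card I * t) * 4 ^ Fintype.card I := by
  refine (card_le_univ _).trans (le_of_eq ?_)
  rw [Fintype.card_prod, Fintype.card_prod, Fintype.card_finset, Fintype.card_fun,
    Fintype.card_fun, Fintype.card_fun, Fintype.card_bool, Fintype.card_fin]
  have h : (4 : ℕ) ^ Fintype.card I = 2 ^ Fintype.card I * 2 ^ Fintype.card I := by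
    rw [← mul_pow]; norm_num
  rw [h, ← pow_mul, mul_comm t]

theorem step (d : ℕ) (F : ℕ → Ptr I t → Finset (Arr I t)) (v : ℕ) :
    (Bad d F (v + 1)).card * 2 ^ d ≤ (Bad d F v).card * 2 ^ d +
      2 ^ (Fintype.card I * t) * 4 ^ Fintype.card I * Fintype.card (Arr I t) := by
  classical
  have h1 : Bad d F (v + 1) ⊆ Bad d F v ∪ (Tri d F v).biUnion
      fun x => sub (F v x.1 \ Bad d F v) x.1 x.2.1 x.2.2 := by
    intro V hV
    rw [bad_succ] at hV
    rcases hV with hV | ⟨p, Q, z, hb, hV⟩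
    · exact mem_union_left _ hV
    · refine mem_union_right _ (mem_biUnion.2 ⟨(p, Q, z), ?_, hV⟩)
      exact mem_filter.2 ⟨mem_univ _, hb⟩
  have h2 := (card_le_card h1).trans (card_union_le _ _)
  have h3 : ((Tri d F v).biUnion fun x => sub (F v x.1 \ Bad d F v) x.1 x.2.1 x.2.2).card ≤
      ∑ x ∈ Tri d F v, (sub (F v x.1 \ Bad d F v) x.1 x.2.1 x.2.2).card := card_biUnion_le
  have h4 : ∑ x ∈ Tri d F v, (sub (F v x.1 \ Bad d F v) x.1 x.2.1 x.2.2).card * 2 ^ d ≤
      ∑ _x ∈ Tri d F v, Fintype.card (Arr I t) := by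
    refine sum_le_sum fun x hx => ?_
    have := (mem_filter.1 hx).2
    unfold Big at this
    exact (not_le.1 this).le
  rw [sum_const, smul_eq_mul, ← sum_mul] at h4
  have h5 := Nat.mul_le_mul_right (2 ^ d) (h2.trans (Nat.add_le_add_left h3 _))
  rw [add_mul] at h5
  refine h5.trans (Nat.add_le_add_left (h4.trans ?_) _)
  exact Nat.mul_le_mul_right _ (card_tri d F v)

end MBAD

theorem t_BAD : S_BAD := by
  intro I _ _ t d F
  refine ⟨?_, MBAD.mono d F, ?_⟩
  · intro L
    induction L with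
    | zero => simp [Bad]
    | succ L ih =>
      refine (MBAD.step d F L).trans ((Nat.add_le_add_right ih _).trans (le_of_eq ?_))
      ring
  · intro u v p Q z V huv hV hB
    by_contra hb
    refine hB (MBAD.mono d F (u + 1) v huv ?_)
    rw [MBAD.bad_succ]
    exact Or.inr ⟨p, Q, z, hb, hV⟩

end Pool.Agent.DGO
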