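import Pool.Agent.DGO.St1

/-!
# DGO, module CHD: a chain depends only on the values in its set
-/

set_option autoImplicit false

namespace Pool.Agent.DGO

open Finset Pool.Agent.OB

namespace MCHD

variable {I : Type} [Fintype I] [DecidableEq I] {t : ℕ}

theorem sub_eq (W : Finset (Arr I t)) (p p' : Ptr I t) (Q : Finset I) (z z' : I → Bool)
    (h : ∀ i ∈ Q, p i = p' i ∧ z i = z' i) : sub W p Q z = sub W p' Q z' := by
  unfold sub
  apply Finset.filter_congr
  intro V _
  constructor
  · intro hV i hi
    rw [← (h i hi).1, ← (h i hi).2]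
    exact hV i hi
  · intro hV i hi
    rw [(h i hi).1, (h i hi).2]
    exact hV i hi

theorem bias_eq (W : Finset (Arr I t)) (p p' : Ptr I t) (T : Finset I)
    (h : ∀ i ∈ T, p i = p' i) : bias W p T = bias W p' T := by
  unfold bias
  apply Finset.sum_congr rfl
  intro V _
  apply Finset.prod_congr rfl
  intro i hi
  rw [h i hi]

theorem dang_iff (W : Finset (Arr I t)) (p p' : Ptr I t) (T : Finset I)
    (h : ∀ i ∈ T, p i = p' i) : Dang W p T ↔ Dang W p' T := by
  unfold Dang
  rw [bias_eq W p p' T h]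

theorem chain_congr (d : ℕ) (W : Finset (Arr I t)) (p p' : Ptr I t) (Q : Finset I)
    (z : I → Bool) (hc : Chain d W p Q z) : ∀ z' : I → Bool,
    (∀ i ∈ Q, p i = p' i ∧ z i = z' i) → Chain d W p' Q z' := by
  induction hc with
  | nil z => intro z' _; exact Chain.nil z'
  | @step Q z T hc hb hT hd hD ih =>
    intro z' h
    have hQ : ∀ i ∈ Q, p i = p' i ∧ z i = z' i := fun i hi => h i (Finset.mem_union_left T hi)
    have hs := sub_eq W p p' Q z z' hQ
    refine Chain.step T (ih z' hQ) ?_ hT hd ?_
    · rw [← hs]; exact hb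
    · rw [← hs]
      exact (dang_iff _ p p' T fun i hi => (h i (Finset.mem_union_right Q hi)).1).1 hD

end MCHD

theorem t_CHD : S_CHD := by
  intro I _ _ t d W p p'
  refine ⟨fun Q z z' h => MCHD.sub_eq W p p' Q z z' h, fun T h => MCHD.dang_iff W p p' T h, ?_⟩
  intro Q z z' h hc
  exact MCHD.chain_congr d W p p' Q z hc z' h

end Pool.Agent.DGO
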