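import Pool.Agent.DGO.St1

/-!
# Project DGO, module CHP: a fixed chain is rare
-/

set_option autoImplicit false

namespace Pool.Agent.DGO

open Finset Pool.Agent.OB

namespace MCHP

variable {I : Type} [Fintype I] [DecidableEq I] {t : ℕ}

/-- the last member of a chain -/
theorem last {d : ℕ} {W : Finset (Arr I t)} {p : Ptr I t} {Q : Finset I} {z : I → Bool}
    (h : Chain d W p Q z) (hQ : Q.Nonempty) :
    ∃ T ⊆ Q, T.Nonempty ∧ (Chain d W p (Q \ T) z ∧ Big d (sub W p (Q \ T) z)) ∧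
      Dang (sub W p (Q \ T) z) p T := by
  cases h with
  | nil => exact absurd hQ (by simp)
  | @step Q' _ T hc hb hT hd hD =>
    have h1 : (Q' ∪ T) \ T = Q' := by
      rw [Finset.union_sdiff_right]
      exact Finset.sdiff_eq_self_of_disjoint hd.symm
    refine ⟨T, Finset.subset_union_right, hT, ?_⟩
    rw [h1]
    exact ⟨⟨hc, hb⟩, hD⟩

omit [Fintype I] [DecidableEq I] in
open Classical in
/-- the number of the pairs -/
theorem pairs (s : Finset (Ptr I t)) (A A' : Ptr I t → Prop) (B : Ptr I t → Ptr I t → Prop)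
    (c : ℕ) (hA : ∀ p, A p → A' p)
    (h : ∀ p, A p → (s.filter fun p' => B p p').card * c ≤ s.card) :
    ((s ×ˢ s).filter fun v => A v.1 ∧ B v.1 v.2).card * c ≤ (s.filter fun p => A' p).card * s.card := by
  rw [Finset.card_filter, Finset.sum_product, Finset.card_filter, Finset.sum_mul, Finset.sum_mul]
  refine Finset.sum_le_sum fun p _ => ?_
  by_cases hp : A p
  · have h1 : (∑ y ∈ s, if A p ∧ B p y then 1 else 0) = (s.filter fun p' => B p p').card := by
      rw [Finset.card_filter]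
      refine Finset.sum_congr rfl fun y _ => ?_
      by_cases hy : B p y
      · rw [if_pos ⟨hp, hy⟩, if_pos hy]
      · rw [if_neg (fun h => hy h.2), if_neg hy]
    show (∑ y ∈ s, if A p ∧ B p y then 1 else 0) * c ≤ _
    rw [h1, if_pos (hA p hp), one_mul]
    exact h p hp
  · have h1 : (∑ y ∈ s, if A p ∧ B p y then 1 else 0) = 0 :=
      Finset.sum_eq_zero fun y _ => if_neg fun h => hp h.1
    show (∑ y ∈ s, if A p ∧ B p y then 1 else 0) * c ≤ _
    rw [h1, zero_mul]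
    exact Nat.zero_le _

open Classical in
/-- one member of the cover -/
theorem one (hCHD : S_CHD) (hSWP : S_SWP) (d : ℕ) (Λ : I → Finset (Fin t)) (p₀ : Ptr I t)
    (W : Finset (Arr I t)) (c : ℕ)
    (h : ∀ (W' : Finset (Arr I t)) (T : Finset I), Big d W' → T.Nonempty →
      ((cls Λ p₀).filter fun p => Dang W' p T).card * c ^ T.card ≤ (cls Λ p₀).card)
    (Q T : Finset I) (z : I → Bool) (hT : T.Nonempty) :
    ((cls Λ p₀).filter fun p => (Chain d W p (Q \ T) z ∧ Big d (sub W p (Q \ T) z)) ∧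
      Dang (sub W p (Q \ T) z) p T).card * c ^ T.card ≤
      ((cls Λ p₀).filter fun p => Chain d W p (Q \ T) z).card := by
  have hmem : p₀ ∈ cls Λ p₀ := by
    unfold cls
    rw [Finset.mem_filter]
    exact ⟨Finset.mem_univ _, fun i l _ => rfl⟩
  have hpos : 0 < (cls Λ p₀).card := Finset.card_pos.2 ⟨p₀, hmem⟩
  have hQT : ∀ i ∈ Q \ T, i ∉ T := fun i hi => (Finset.mem_sdiff.1 hi).2
  have h1 := hSWP I t Λ p₀ T
    (fun p => Chain d W p (Q \ T) z ∧ Big d (sub W p (Q \ T) z))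
    (fun p p' => Dang (sub W p (Q \ T) z) p' T)
    (by
      intro p p' hp
      have e1 := (hCHD I t d W p p').1 (Q \ T) z z (fun i hi => ⟨hp i (hQT i hi), rfl⟩)
      have e2 : Chain d W p (Q \ T) z ↔ Chain d W p' (Q \ T) z :=
        ⟨(hCHD I t d W p p').2.2 (Q \ T) z z (fun i hi => ⟨hp i (hQT i hi), rfl⟩),
          (hCHD I t d W p' p).2.2 (Q \ T) z z (fun i hi => ⟨(hp i (hQT i hi)).symm, rfl⟩)⟩
      show (_ ∧ Big d (sub W p (Q \ T) z)) ↔ (_ ∧ Big d (sub W p' (Q \ T) z))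
      rw [e1, e2])
    (by
      intro p p' u u' hp hp'
      have e1 := (hCHD I t d W p u).1 (Q \ T) z z (fun i hi => ⟨hp i (hQT i hi), rfl⟩)
      show Dang (sub W p (Q \ T) z) p' T ↔ Dang (sub W u (Q \ T) z) u' T
      rw [e1]
      exact (hCHD I t d (sub W u (Q \ T) z) p' u').2.1 T hp')
  have h2 := pairs (cls Λ p₀) (fun p => Chain d W p (Q \ T) z ∧ Big d (sub W p (Q \ T) z))
    (fun p => Chain d W p (Q \ T) z) (fun p p' => Dang (sub W p (Q \ T) z) p' T)
    (c ^ T.card) (fun p hp => hp.1) (fun p hp => h _ T hp.2 hT)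
  rw [← h1, mul_right_comm] at h2
  refine le_of_eq_of_le ?_ (Nat.le_of_mul_le_mul_right h2 hpos)
  refine congrArg (fun s : Finset (Ptr I t) => s.card * c ^ T.card) ?_
  ext p
  simp only [Finset.mem_filter]

omit [Fintype I] in
/-- the sum over the nonempty subsets -/
theorem sum_sub (n : ℕ) (Q : Finset I) (hn : 0 < n) (hk : Q.card ≤ n) :
    ∑ T ∈ Q.powerset.erase ∅, (1 / (2 * (n : ℝ))) ^ T.card ≤ 1 := by
  have hn' : (0 : ℝ) < n := by exact_mod_cast hn
  have h1 := Finset.sum_pow_mul_eq_add_pow (1 / (2 * (n : ℝ))) 1 Q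
  simp only [one_pow, mul_one] at h1
  have h2 : (∅ : Finset I) ∈ Q.powerset := Finset.empty_mem_powerset Q
  have h3 := Finset.add_sum_erase Q.powerset (fun T => (1 / (2 * (n : ℝ))) ^ T.card) h2
  simp only [Finset.card_empty, pow_zero] at h3
  have h4 : (1 / (2 * (n : ℝ)) + 1) ^ Q.card ≤ 2 := by
    have a1 : 1 / (2 * (n : ℝ)) + 1 ≤ Real.exp (1 / (2 * (n : ℝ))) := Real.add_one_le_exp _
    have a2 : (1 / (2 * (n : ℝ)) + 1) ^ Q.card ≤ Real.exp (1 / (2 * (n : ℝ))) ^ Q.card :=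
      pow_le_pow_left₀ (by positivity) a1 _
    rw [← Real.exp_nat_mul] at a2
    have a3 : (Q.card : ℝ) * (1 / (2 * (n : ℝ))) ≤ 1 / 2 := by
      have : (Q.card : ℝ) ≤ n := by exact_mod_cast hk
      calc (Q.card : ℝ) * (1 / (2 * (n : ℝ))) ≤ n * (1 / (2 * (n : ℝ))) :=
            mul_le_mul_of_nonneg_right this (by positivity)
        _ = 1 / 2 := by field_simp
    have a4 : Real.exp ((Q.card : ℝ) * (1 / (2 * (n : ℝ)))) ≤ Real.exp (1 / 2) :=
      Real.exp_le_exp.2 a3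
    have a5 : Real.exp (1 / 2) ≤ 2 := by
      have b1 : Real.exp (1 / 2) * Real.exp (1 / 2) = Real.exp 1 := by
        rw [← Real.exp_add]
        norm_num
      have b2 := Real.exp_one_lt_d9
      have b3 := Real.exp_pos (1 / 2)
      nlinarith
    linarith
  linarith

open Classical in
theorem main (hCHD : S_CHD) (hSWP : S_SWP) (d : ℕ) (Λ : I → Finset (Fin t)) (p₀ : Ptr I t)
    (W : Finset (Arr I t))
    (h : ∀ (W' : Finset (Arr I t)) (T : Finset I), Big d W' → T.Nonempty →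
      ((cls Λ p₀).filter fun p => Dang W' p T).card * (4 * Fintype.card I ^ 3) ^ T.card ≤
        (cls Λ p₀).card) (z : I → Bool) (k : ℕ) :
    ∀ Q : Finset I, Q.card = k →
    ((cls Λ p₀).filter fun p => Chain d W p Q z).card * (2 * Fintype.card I ^ 2) ^ Q.card ≤
      (cls Λ p₀).card := by
  induction k using Nat.strong_induction_on with
  | _ k ih =>
  intro Q hQk
  rcases Q.eq_empty_or_nonempty with rfl | hQ
  · rw [Finset.card_empty, pow_zero, mul_one]
    exact Finset.card_filter_le _ _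
  obtain ⟨n, hn⟩ : ∃ n, n = Fintype.card I := ⟨_, rfl⟩
  have hkn : Q.card ≤ n := hn ▸ Finset.card_le_univ Q
  have hn0 : 0 < n := lt_of_lt_of_le (Finset.card_pos.2 hQ) hkn
  have hnR : (0 : ℝ) < n := by exact_mod_cast hn0
  rw [← hn] at h ⊢
  obtain ⟨D, hD⟩ : ∃ D : Finset I → Finset (Ptr I t), ∀ T, D T = (cls Λ p₀).filter fun p =>
      (Chain d W p (Q \ T) z ∧ Big d (sub W p (Q \ T) z)) ∧ Dang (sub W p (Q \ T) z) p T :=
    ⟨_, fun T => rfl⟩
  have hcov : ((cls Λ p₀).filter fun p => Chain d W p Q z) ⊆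
      (Q.powerset.erase ∅).biUnion D := by
    intro p hp
    rw [Finset.mem_filter] at hp
    obtain ⟨T, hTQ, hT, h1⟩ := last hp.2 hQ
    rw [Finset.mem_biUnion]
    refine ⟨T, Finset.mem_erase.2 ⟨hT.ne_empty, Finset.mem_powerset.2 hTQ⟩, ?_⟩
    rw [hD, Finset.mem_filter]
    exact ⟨hp.1, h1⟩
  have h1 : (((cls Λ p₀).filter fun p => Chain d W p Q z).card : ℝ) ≤
      ∑ T ∈ Q.powerset.erase ∅, ((D T).card : ℝ) := by
    have := (Finset.card_le_card hcov).trans Finset.card_biUnion_le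
    exact_mod_cast this
  have h2 : ∀ T ∈ Q.powerset.erase ∅, ((D T).card : ℝ) * (2 * (n : ℝ) ^ 2) ^ Q.card ≤
      ((cls Λ p₀).card : ℝ) * (1 / (2 * (n : ℝ))) ^ T.card := by
    intro T hT
    rw [Finset.mem_erase, Finset.mem_powerset] at hT
    have hTn : T.Nonempty := Finset.nonempty_iff_ne_empty.2 hT.1
    have e1 := one hCHD hSWP d Λ p₀ W (4 * n ^ 3) h Q T z hTn
    rw [← hD] at e1
    have hc : (Q \ T).card + T.card = Q.card := Finset.card_sdiff_add_card_eq_card hT.2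
    have hTpos : 0 < T.card := Finset.card_pos.2 hTn
    have e2 := ih (Q \ T).card (by omega) (Q \ T) rfl
    rw [← hn] at e2
    have e3 : (D T).card * (4 * n ^ 3) ^ T.card * (2 * n ^ 2) ^ (Q \ T).card ≤
        (cls Λ p₀).card := (Nat.mul_le_mul_right _ e1).trans e2
    have e4 : ((D T).card : ℝ) * (4 * (n : ℝ) ^ 3) ^ T.card * (2 * (n : ℝ) ^ 2) ^ (Q \ T).card ≤
        ((cls Λ p₀).card : ℝ) := by exact_mod_cast e3
    have e5 : (1 / (2 * (n : ℝ))) ^ T.card * (2 * (n : ℝ)) ^ T.card = 1 := by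
      rw [← mul_pow]
      have : 1 / (2 * (n : ℝ)) * (2 * (n : ℝ)) = 1 := by field_simp
      rw [this, one_pow]
    have e6 : (4 * (n : ℝ) ^ 3) ^ T.card = (2 * (n : ℝ) ^ 2) ^ T.card * (2 * (n : ℝ)) ^ T.card := by
      rw [← mul_pow]
      congr 1
      ring
    have e7 : (0 : ℝ) < (1 / (2 * (n : ℝ))) ^ T.card := by positivity
    have e8 := mul_le_mul_of_nonneg_right e4 e7.le
    rw [← hc, pow_add]
    calc ((D T).card : ℝ) * ((2 * (n : ℝ) ^ 2) ^ (Q \ T).card * (2 * (n : ℝ) ^ 2) ^ T.card)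
        = ((D T).card : ℝ) * ((2 * (n : ℝ) ^ 2) ^ (Q \ T).card * (2 * (n : ℝ) ^ 2) ^ T.card) *
          ((1 / (2 * (n : ℝ))) ^ T.card * (2 * (n : ℝ)) ^ T.card) := by rw [e5, mul_one]
      _ = ((D T).card : ℝ) * (4 * (n : ℝ) ^ 3) ^ T.card * (2 * (n : ℝ) ^ 2) ^ (Q \ T).card *
          (1 / (2 * (n : ℝ))) ^ T.card := by rw [e6]; ring
      _ ≤ _ := e8
  have h3 : (((cls Λ p₀).filter fun p => Chain d W p Q z).card : ℝ) *
      (2 * (n : ℝ) ^ 2) ^ Q.card ≤ ((cls Λ p₀).card : ℝ) := by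
    have a1 := mul_le_mul_of_nonneg_right h1
      (show (0 : ℝ) ≤ (2 * (n : ℝ) ^ 2) ^ Q.card by positivity)
    rw [Finset.sum_mul] at a1
    have a2 := a1.trans (Finset.sum_le_sum h2)
    rw [← Finset.mul_sum] at a2
    have a3 := mul_le_mul_of_nonneg_left (sum_sub n Q hn0 hkn)
      (show (0 : ℝ) ≤ ((cls Λ p₀).card : ℝ) by positivity)
    linarith
  exact_mod_cast h3

end MCHP

theorem t_CHP (hCHD : S_CHD) (hSWP : S_SWP) : S_CHP := by
  intro I _ _ t d Λ p₀ W h Q z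
  exact MCHP.main hCHD hSWP d Λ p₀ W h z _ Q rfl

end Pool.Agent.DGO
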