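import Pool.Agent.DGO.St1

/-!
# Project DGO: the classes of pointer assignments are products
-/

set_option autoImplicit false

namespace Pool.Agent.DGO

open Finset Pool.Agent.OB

namespace MCLC

lemma mem_cls {I : Type} [Fintype I] [DecidableEq I] {t : ℕ} (Λ : I → Finset (Fin t))
    (p₀ p : Ptr I t) : p ∈ cls Λ p₀ ↔ ∀ i, ∀ l ∉ Λ i, p i l = p₀ i l := by
  unfold cls
  rw [mem_filter]
  exact ⟨fun h => h.2, fun h => ⟨mem_univ _, h⟩⟩

lemma mem_blc {I : Type} {t : ℕ} (Λ : I → Finset (Fin t))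
    (p₀ : Ptr I t) (i : I) (q : Fin t → Bool) : q ∈ blc Λ p₀ i ↔ ∀ l ∉ Λ i, q l = p₀ i l := by
  unfold blc
  rw [mem_filter]
  exact ⟨fun h => h.2, fun h => ⟨mem_univ _, h⟩⟩

lemma blc_eq {I : Type} {t : ℕ} (Λ : I → Finset (Fin t)) (p₀ : Ptr I t) (i : I) :
    blc Λ p₀ i = Fintype.piFinset fun l => if l ∈ Λ i then (univ : Finset Bool) else {p₀ i l} := by
  ext q
  rw [mem_blc, Fintype.mem_piFinset]
  constructor
  · intro h l
    by_cases hl : l ∈ Λ i
    · rw [if_pos hl]
      exact mem_univ _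
    · rw [if_neg hl, mem_singleton]
      exact h l hl
  · intro h l hl
    have h1 := h l
    rw [if_neg hl, mem_singleton] at h1
    exact h1

end MCLC

open MCLC

theorem t_CLC : S_CLC := by
  intro I _ _ t Λ p₀
  refine ⟨?_, ?_, ?_, ?_⟩
  · ext p
    rw [mem_cls, Fintype.mem_piFinset]
    exact ⟨fun h i => (mem_blc Λ p₀ i (p i)).2 (h i), fun h i => (mem_blc Λ p₀ i (p i)).1 (h i)⟩
  · intro i
    rw [blc_eq, Fintype.card_piFinset]
    have h : ∀ l : Fin t, (if l ∈ Λ i then (univ : Finset Bool) else {p₀ i l}).card =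
        if l ∈ Λ i then 2 else 1 := by
      intro l
      by_cases hl : l ∈ Λ i
      · rw [if_pos hl, if_pos hl, card_univ, Fintype.card_bool]
      · rw [if_neg hl, if_neg hl, card_singleton]
    rw [Finset.prod_congr rfl fun l _ => h l, Finset.prod_ite_mem, Finset.univ_inter,
      Finset.prod_const]
  · rw [mem_cls]
    exact fun i l _ => rfl
  · intro p hp
    rw [mem_cls] at hp
    ext q
    rw [mem_cls, mem_cls]
    exact ⟨fun h i l hl => (h i l hl).trans (hp i l hl),
      fun h i l hl => (h i l hl).trans (hp i l hl).symm⟩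

end Pool.Agent.DGO
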