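import Pool.Agent.DGO.St1

/-!
# Project DGO: the conclusion of part 1
-/

set_option autoImplicit false

namespace Pool.Agent.DGO

open Finset Pool.Agent.OB

theorem t_CORE (hSM : S_SM) (hCHP : S_CHP) (hGOO : S_GOO) (hPST : S_PST) (hWLK : S_WLK)
    (hSTA : S_STA) : S_CORE := by
  intro I _ _ t a' d r w L S lg G H F hn h512 hnum hd hL hstr hrw hC hFew hinf hlast
  by_contra hcon
  rw [not_le] at hcon
  obtain ⟨p, hp⟩ := hPST I t (4 * a') d r L S F (fun Λ p₀ W hΛ =>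
    hGOO I t d r Λ p₀ W hn (hCHP I t d Λ p₀ W fun W' T hW' hT =>
      hSM I t a' d Λ p₀ W' T hΛ h512 hnum hW' hT)) hFew hcon
  obtain ⟨v, hv, hF⟩ := hlast
  obtain ⟨Q, z, hst⟩ := hSTA I t d r w L lg G H F p v hstr hrw hv hL hd (hp v hv) (hF p)
  refine hWLK I t d r w L G H F p hstr hrw hC hp (fun v hv => ?_) v hv Q z hst
  rcases hinf v hv with ⟨u₁, h1, u₂, h2, h⟩ | ⟨C, hC', h⟩
  · exact Or.inl ⟨u₁, h1, u₂, h2, h p⟩
  · exact Or.inr ⟨C, hC', fun V hV => h p V hV⟩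

end Pool.Agent.DGO
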