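import Pool.Agent.DGO.St1

/-!
# Project DGO, module EXT: querying a line with the strategy (helper68)
-/

set_option autoImplicit false

namespace Pool.Agent.DGO

open Finset Pool.Agent.OB

namespace MEXT

/-- A state of the strategy can be extended to further variables. -/
theorem hex {I : Type} [Fintype I] [DecidableEq I] {w : ℕ} {G : CNF I}
    {H : Finset I → (I → Bool) → Prop} (hH : Strat G w H) (Q T : Finset I) (z : I → Bool)
    (hz : H Q z) (hw : (Q ∪ T).card ≤ w) :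
    ∃ z' : I → Bool, H (Q ∪ T) z' ∧ ∀ i ∈ Q, z' i = z i := by
  induction T using Finset.induction_on with
  | empty => exact ⟨z, by rw [union_empty]; exact hz, fun _ _ => rfl⟩
  | insert i T hi ih =>
    have h1 : Q ∪ insert i T = insert i (Q ∪ T) := union_insert i Q T
    rw [h1] at hw ⊢
    by_cases h2 : i ∈ Q ∪ T
    · rw [insert_eq_of_mem h2] at hw ⊢
      exact ih hw
    · rw [card_insert_of_notMem h2] at hw
      obtain ⟨z', h3, h4⟩ := ih (by omega)
      obtain ⟨b, hb⟩ := hH.ext (Q ∪ T) z' i h3 (by omega) h2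
      refine ⟨Function.update z' i b, hb, fun j hj => ?_⟩
      have h5 : j ≠ i := by
        rintro rfl
        exact h2 (mem_union_left _ hj)
      rw [Function.update_of_ne h5]
      exact h4 j hj

end MEXT

theorem t_EXT (hCHD : S_CHD) : S_EXT := by
  intro I _ _ t d r w G H W p hH hG Q₀ z₀ hz₀ hw
  obtain ⟨hsub, -, hch⟩ := hCHD I t d W p p
  let P : Finset I → Prop := fun Q => ∃ z₁ : I → Bool, H (Q₀ ∪ Q) z₁ ∧
    (∀ i ∈ Q₀, z₁ i = z₀ i) ∧ Chain d W p Q z₁
  haveI : DecidablePred P := fun _ => Classical.propDecidable _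
  have hne : ((univ : Finset (Finset I)).filter P).Nonempty :=
    ⟨∅, mem_filter.2 ⟨mem_univ _, z₀, by rw [union_empty]; exact hz₀, fun _ _ => rfl,
      Chain.nil z₀⟩⟩
  obtain ⟨Q₁, hQ₁, hmax⟩ := exists_max_image ((univ : Finset (Finset I)).filter P)
    (fun Q => Q.card) hne
  obtain ⟨z₁, h1, h2, h3⟩ := (mem_filter.1 hQ₁).2
  refine ⟨Q₁, z₁, h1, h2, hG Q₁ z₁ h3, h3, fun hbig T hT hdis hdan => ?_⟩
  have h4 : Chain d W p (Q₁ ∪ T) z₁ := Chain.step T h3 hbig hT hdis hdan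
  have h5 := hG _ _ h4
  have h6 : (Q₀ ∪ Q₁ ∪ T).card ≤ w := by
    rw [union_assoc]
    exact (card_union_le _ _).trans (by omega)
  obtain ⟨z₂, h7, h8⟩ := MEXT.hex hH (Q₀ ∪ Q₁) T z₁ h1 h6
  have h9 : ∀ i ∈ Q₁, p i = p i ∧ z₁ i = z₂ i := fun i hi =>
    ⟨rfl, (h8 i (mem_union_right _ hi)).symm⟩
  have h10 : Chain d W p Q₁ z₂ := hch Q₁ z₁ z₂ h9 h3
  have h11 : sub W p Q₁ z₁ = sub W p Q₁ z₂ := hsub Q₁ z₁ z₂ h9
  rw [h11] at hbig hdan
  have h12 : Chain d W p (Q₁ ∪ T) z₂ := Chain.step T h10 hbig hT hdis hdan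
  have h13 : Q₁ ∪ T ∈ (univ : Finset (Finset I)).filter P := by
    refine mem_filter.2 ⟨mem_univ _, z₂, ?_, fun i hi => ?_, h12⟩
    · rw [← union_assoc]
      exact h7
    · rw [h8 i (mem_union_left _ hi)]
      exact h2 i hi
  have h14 := hmax _ h13
  have h15 : (Q₁ ∪ T).card = Q₁.card + T.card := card_union_of_disjoint hdis.symm
  have h16 := hT.card_pos
  have h17 : (Q₁ ∪ T).card ≤ Q₁.card := h14
  omega

end Pool.Agent.DGO
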