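import Pool.Agent.DGO.St1

/-!
# DGO, module FR (helper56): if no set outside of `Q` is dangerous then all values outside of `Q` occur
-/

set_option autoImplicit false

namespace Pool.Agent.DGO

open Finset Pool.Agent.OB

namespace MFR

lemma sg_ne {a b : Bool} (h : b ≠ a) : 1 + sg a * sg b = 0 := by
  cases a <;> cases b <;> simp [sg] at h ⊢

lemma sg_abs (a : Bool) : |sg a| = 1 := by
  cases a <;> simp [sg]

lemma abs_prod_sg {I : Type} (T : Finset I) (κ : I → Bool) : |∏ i ∈ T, sg (κ i)| = 1 := by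
  rw [Finset.abs_prod]
  exact Finset.prod_eq_one fun i _ => sg_abs _

/-- the sum over the subsets -/
lemma sumpw {I : Type} [DecidableEq I] (s : Finset I) (x : ℝ) :
    ∑ T ∈ s.powerset, x ^ T.card = (1 + x) ^ s.card := by
  have h := Finset.prod_one_add (ι := I) (R := ℝ) (f := fun _ => x) s
  rw [Finset.prod_const] at h
  rw [h]
  exact Finset.sum_congr rfl fun T _ => (Finset.prod_const x).symm

end MFR

open MFR in
/-- FR -/
theorem t_FR : S_FR := by
  intro I _ _ t W p Q hW hD κ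
  by_contra hno
  push Not at hno
  have hprod0 : ∀ V ∈ W, ∏ i ∈ Qᶜ, (1 + sg (κ i) * sg (V i (p i))) = 0 := by
    intro V hV
    obtain ⟨i, hi, hne⟩ := hno V hV
    exact Finset.prod_eq_zero (Finset.mem_compl.2 hi) (sg_ne hne)
  have hexp : ∑ V ∈ W, ∏ i ∈ Qᶜ, (1 + sg (κ i) * sg (V i (p i)))
      = ∑ T ∈ (Qᶜ).powerset, (∏ i ∈ T, sg (κ i)) * bias W p T := by
    have h1 : ∀ V ∈ W, ∏ i ∈ Qᶜ, (1 + sg (κ i) * sg (V i (p i)))
        = ∑ T ∈ (Qᶜ).powerset, ∏ i ∈ T, (sg (κ i) * sg (V i (p i))) := fun V _ =>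
      Finset.prod_one_add _
    rw [Finset.sum_congr rfl h1, Finset.sum_comm]
    refine Finset.sum_congr rfl fun T _ => ?_
    rw [bias, Finset.mul_sum]
    exact Finset.sum_congr rfl fun V _ => Finset.prod_mul_distrib
  rw [Finset.sum_eq_zero hprod0] at hexp
  set x : ℝ := 1 / (8 * (Fintype.card I : ℝ)) with hx
  have hx0 : 0 ≤ x := by positivity
  have hWp : (0 : ℝ) < W.card := by exact_mod_cast hW.card_pos
  have hb : ∀ T ∈ (Qᶜ).powerset.erase ∅,
      |(∏ i ∈ T, sg (κ i)) * bias W p T| ≤ (W.card : ℝ) * x ^ T.card := by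
    intro T hT
    obtain ⟨hT0, hTs⟩ := Finset.mem_erase.1 hT
    have hTne : T.Nonempty := Finset.nonempty_iff_ne_empty.2 hT0
    have hdis : Disjoint T Q := by
      rw [Finset.disjoint_left]
      intro i hi hiQ
      exact (Finset.mem_compl.1 (Finset.mem_powerset.1 hTs hi)) hiQ
    have h1 := hD T hTne hdis
    unfold Dang at h1
    rw [not_lt] at h1
    have hn : (0 : ℝ) < 8 * (Fintype.card I : ℝ) := by
      have : 0 < Fintype.card I := Fintype.card_pos_iff.2 ⟨hTne.choose⟩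
      have : (0 : ℝ) < Fintype.card I := by exact_mod_cast this
      linarith
    rw [abs_mul, abs_prod_sg, one_mul, hx, div_pow, one_pow, mul_one_div, le_div_iff₀ (pow_pos hn _)]
    exact h1
  have hsplit := Finset.add_sum_erase ((Qᶜ).powerset)
    (fun T => (∏ i ∈ T, sg (κ i)) * bias W p T) (Finset.empty_mem_powerset (Qᶜ))
  have h0 : (∏ i ∈ (∅ : Finset I), sg (κ i)) * bias W p ∅ = W.card := by
    rw [bias]
    simp
  have hsplit2 := Finset.add_sum_erase ((Qᶜ).powerset)
    (fun T => x ^ T.card) (Finset.empty_mem_powerset (Qᶜ))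
  rw [sumpw] at hsplit2
  simp only [Finset.card_empty, pow_zero] at hsplit2
  simp only [h0] at hsplit
  rw [← hexp] at hsplit
  have h2 : |∑ T ∈ (Qᶜ).powerset.erase ∅, (∏ i ∈ T, sg (κ i)) * bias W p T|
      ≤ (W.card : ℝ) * ∑ T ∈ (Qᶜ).powerset.erase ∅, x ^ T.card := by
    rw [Finset.mul_sum]
    exact (Finset.abs_sum_le_sum_abs _ _).trans (Finset.sum_le_sum hb)
  have h3 : (1 + x) ^ (Qᶜ).card ≤ Real.exp (1 / 8) := by
    have h4 : (1 + x) ^ (Qᶜ).card ≤ Real.exp x ^ (Qᶜ).card := by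
      refine pow_le_pow_left₀ (by linarith) ?_ _
      have := Real.add_one_le_exp x
      linarith
    refine h4.trans ?_
    rw [← Real.exp_nat_mul]
    refine Real.exp_le_exp.2 ?_
    have h5 : ((Qᶜ).card : ℝ) ≤ Fintype.card I := by exact_mod_cast Finset.card_le_univ _
    rcases Nat.eq_zero_or_pos (Fintype.card I) with h6 | h6
    · rw [h6, Nat.cast_zero] at h5
      have h7 : ((Qᶜ).card : ℝ) = 0 := le_antisymm h5 (Nat.cast_nonneg _)
      rw [h7, zero_mul]
      norm_num
    · have h6' : (0 : ℝ) < Fintype.card I := by exact_mod_cast h6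
      calc ((Qᶜ).card : ℝ) * x ≤ Fintype.card I * x := mul_le_mul_of_nonneg_right h5 hx0
        _ = 1 / 8 := by rw [hx]; field_simp
  have h8 : Real.exp (1 / 8) < 2 := by
    have h9 : Real.exp (1 / 8) ≤ 1 + 1 / 8 + (1 / 8) ^ 2 := by
      have := Real.abs_exp_sub_one_sub_id_le (x := 1 / 8) (by norm_num)
      have := (abs_le.1 this).2
      linarith
    refine h9.trans_lt (by norm_num)
  have h10 : ∑ T ∈ (Qᶜ).powerset.erase ∅, x ^ T.card < 1 := by linarith
  have h11 := (abs_le.1 h2).1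
  have h12 : (W.card : ℝ) * ∑ T ∈ (Qᶜ).powerset.erase ∅, x ^ T.card < W.card := by
    calc (W.card : ℝ) * ∑ T ∈ (Qᶜ).powerset.erase ∅, x ^ T.card < W.card * 1 :=
          mul_lt_mul_of_pos_left h10 hWp
      _ = W.card := mul_one _
  linarith

end Pool.Agent.DGO
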