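import Pool.Agent.DGO.St1

set_option autoImplicit false

namespace Pool.Agent.DGO

open Finset Pool.Agent.OB

namespace MHOF

variable {I : Type} [Fintype I] [DecidableEq I] {t : ℕ}

/-- the sum over all arrays of a product of functions of the bits -/
lemma sum_prod (g : I → (Fin t → Bool) → Bool → ℝ) :
    ∑ V : Arr I t, ∏ i, ∏ q, g i q (V i q) = ∏ i, ∏ q, ∑ b, g i q b := by
  have h1 : ∀ i, ∏ q, ∑ b, g i q b = ∑ f : (Fin t → Bool) → Bool, ∏ q, g i q (f q) := by
    intro i
    rw [Finset.prod_univ_sum]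
    rfl
  rw [Finset.prod_congr rfl fun i _ => h1 i, Finset.prod_univ_sum]
  rfl

lemma sg_mul (b b' : Bool) : sg b * sg b' = 1 ∨ sg b * sg b' = -1 := by
  cases b <;> cases b' <;> simp [sg]

/-- the exponential moment -/
lemma mgf (i : I) (C : Finset (Fin t → Bool)) (c : ℝ) (V' : Arr I t) :
    ∑ V : Arr I t, Real.exp (c * ∑ q ∈ C, sg (V i q) * sg (V' i q)) =
      Fintype.card (Arr I t) * Real.cosh c ^ C.card := by
  have h1 : ∀ V : Arr I t, Real.exp (c * ∑ q ∈ C, sg (V i q) * sg (V' i q)) =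
      ∏ j, ∏ q, (if j = i ∧ q ∈ C then Real.exp (c * (sg (V j q) * sg (V' i q))) else 1) := by
    intro V
    rw [Finset.mul_sum, Real.exp_sum]
    rw [Finset.prod_eq_single i]
    · simp only [true_and]
      rw [Finset.prod_ite_mem, Finset.univ_inter]
    · intro j _ hj
      refine Finset.prod_eq_one fun q _ => ?_
      rw [if_neg]
      exact fun h => hj h.1
    · intro h
      exact absurd (Finset.mem_univ i) h
  rw [Finset.sum_congr rfl fun V _ => h1 V]
  rw [sum_prod (fun j q b => if j = i ∧ q ∈ C then Real.exp (c * (sg b * sg (V' i q))) else 1)]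
  have h2 : ∀ j q, ∑ b, (if j = i ∧ q ∈ C then Real.exp (c * (sg b * sg (V' i q))) else 1) =
      2 * (if j = i ∧ q ∈ C then Real.cosh c else 1) := by
    intro j q
    by_cases h : j = i ∧ q ∈ C
    · simp only [if_pos h]
      rw [Fintype.sum_bool, Real.cosh_eq]
      rcases Bool.eq_false_or_eq_true (V' i q) with h' | h' <;> rw [h'] <;> simp [sg] <;> ring
    · simp only [if_neg h]
      simp
  rw [Finset.prod_congr rfl fun j _ => Finset.prod_congr rfl fun q _ => h2 j q]
  have h3 : ∀ j, ∏ q : Fin t → Bool, (2 * (if j = i ∧ q ∈ C then Real.cosh c else 1) : ℝ) =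
      2 ^ Fintype.card (Fin t → Bool) * ∏ q : Fin t → Bool, (if j = i ∧ q ∈ C then Real.cosh c else 1) := by
    intro j
    rw [Finset.prod_mul_distrib, Finset.prod_const, Finset.card_univ]
  rw [Finset.prod_congr rfl fun j _ => h3 j, Finset.prod_mul_distrib, Finset.prod_const,
    Finset.card_univ]
  congr 1
  · have h4 : Fintype.card (Arr I t) =
        (2 ^ Fintype.card (Fin t → Bool)) ^ Fintype.card I := by
      rw [Fintype.card_fun, Fintype.card_fun (α := Fin t → Bool), Fintype.card_bool]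
    rw [h4]
    push_cast
    rfl
  · rw [Finset.prod_eq_single i]
    · simp only [true_and]
      rw [Finset.prod_ite_mem, Finset.univ_inter, Finset.prod_const]
    · intro j _ hj
      refine Finset.prod_eq_one fun q _ => ?_
      rw [if_neg]
      exact fun h => hj h.1
    · intro h
      exact absurd (Finset.mem_univ i) h

open Classical in
/-- one side -/
lemma side (R : ℕ) (i : I) (C : Finset (Fin t → Bool)) (hR : 1 ≤ R) (hC : C.card = R ^ 4)
    (σ : ℝ) (hσ : σ = 1 ∨ σ = -1) :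
    (((univ : Finset (Arr I t × Arr I t)).filter fun v =>
      (R : ℝ) ^ 3 < σ * ∑ q ∈ C, sg (v.1 i q) * sg (v.2 i q)).card : ℝ) ≤
        Real.exp (-((R : ℝ) ^ 2 / 2)) * (Fintype.card (Arr I t) : ℝ) ^ 2 := by
  have hR0 : (0 : ℝ) < R := by exact_mod_cast hR
  set c : ℝ := σ * (1 / R) with hc
  have hcc : c ^ 2 = 1 / (R : ℝ) ^ 2 := by
    rw [hc]
    rcases hσ with rfl | rfl <;> field_simp
  have htot : ∑ v : Arr I t × Arr I t, Real.exp (c * ∑ q ∈ C, sg (v.1 i q) * sg (v.2 i q)) ≤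
      (Fintype.card (Arr I t) : ℝ) ^ 2 * Real.exp ((R : ℝ) ^ 2 / 2) := by
    rw [Fintype.sum_prod_type_right]
    rw [Finset.sum_congr rfl fun V' _ => mgf i C c V', Finset.sum_const, Finset.card_univ,
      nsmul_eq_mul]
    have h1 : Real.cosh c ^ C.card ≤ Real.exp ((R : ℝ) ^ 2 / 2) := by
      calc Real.cosh c ^ C.card ≤ Real.exp (c ^ 2 / 2) ^ C.card :=
            pow_le_pow_left₀ (Real.cosh_pos c).le (Real.cosh_le_exp_half_sq c) _
        _ = Real.exp ((R : ℝ) ^ 2 / 2) := by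
            rw [← Real.exp_nat_mul, hC, hcc]
            congr 1
            push_cast
            field_simp
    calc (Fintype.card (Arr I t) : ℝ) * (Fintype.card (Arr I t) * Real.cosh c ^ C.card)
        = (Fintype.card (Arr I t) : ℝ) ^ 2 * Real.cosh c ^ C.card := by ring
      _ ≤ _ := mul_le_mul_of_nonneg_left h1 (by positivity)
  have hlow : (((univ : Finset (Arr I t × Arr I t)).filter fun v =>
      (R : ℝ) ^ 3 < σ * ∑ q ∈ C, sg (v.1 i q) * sg (v.2 i q)).card : ℝ) * Real.exp ((R : ℝ) ^ 2) ≤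
      ∑ v : Arr I t × Arr I t, Real.exp (c * ∑ q ∈ C, sg (v.1 i q) * sg (v.2 i q)) := by
    rw [← nsmul_eq_mul, ← Finset.sum_const]
    refine (Finset.sum_le_sum fun v hv => ?_).trans
      (Finset.sum_le_sum_of_subset_of_nonneg (Finset.filter_subset _ _)
        fun v _ _ => (Real.exp_pos _).le)
    rw [Finset.mem_filter] at hv
    refine Real.exp_le_exp.2 ?_
    have h1 := hv.2.le
    have h2 : (R : ℝ) ^ 2 = (1 / R) * (R : ℝ) ^ 3 := by field_simp
    rw [h2, hc]
    calc 1 / (R : ℝ) * (R : ℝ) ^ 3 ≤ 1 / R * (σ * ∑ q ∈ C, sg (v.1 i q) * sg (v.2 i q)) :=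
          mul_le_mul_of_nonneg_left h1 (by positivity)
      _ = σ * (1 / R) * ∑ q ∈ C, sg (v.1 i q) * sg (v.2 i q) := by ring
  have h := hlow.trans htot
  rw [← le_div_iff₀ (Real.exp_pos _)] at h
  refine h.trans (le_of_eq ?_)
  rw [mul_div_assoc, ← Real.exp_sub, mul_comm]
  congr 2
  ring

end MHOF

open MHOF

theorem t_HOF : S_HOF := by
  classical
  intro I _ _ t R i C hR hC
  have h1 := side R i C hR hC 1 (Or.inl rfl)
  have h2 := side R i C hR hC (-1) (Or.inr rfl)
  have hsub : ((univ : Finset (Arr I t × Arr I t)).filter fun v =>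
      (R : ℝ) ^ 3 < |∑ q ∈ C, sg (v.1 i q) * sg (v.2 i q)|) ⊆
      ((univ : Finset (Arr I t × Arr I t)).filter fun v =>
        (R : ℝ) ^ 3 < 1 * ∑ q ∈ C, sg (v.1 i q) * sg (v.2 i q)) ∪
      ((univ : Finset (Arr I t × Arr I t)).filter fun v =>
        (R : ℝ) ^ 3 < -1 * ∑ q ∈ C, sg (v.1 i q) * sg (v.2 i q)) := by
    intro v hv
    rw [Finset.mem_filter] at hv
    rw [Finset.mem_union, Finset.mem_filter, Finset.mem_filter]
    rcases lt_abs.1 hv.2 with h | h
    · left
      exact ⟨Finset.mem_univ _, by rwa [one_mul]⟩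
    · right
      exact ⟨Finset.mem_univ _, by rwa [neg_one_mul]⟩
  have h3 := Finset.card_le_card hsub
  have h4 := h3.trans (Finset.card_union_le _ _)
  have h5 : ((((univ : Finset (Arr I t × Arr I t)).filter fun v =>
      (R : ℝ) ^ 3 < |∑ q ∈ C, sg (v.1 i q) * sg (v.2 i q)|).card : ℕ) : ℝ) ≤
      (((univ : Finset (Arr I t × Arr I t)).filter fun v =>
        (R : ℝ) ^ 3 < 1 * ∑ q ∈ C, sg (v.1 i q) * sg (v.2 i q)).card : ℝ) +
      (((univ : Finset (Arr I t × Arr I t)).filter fun v =>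
        (R : ℝ) ^ 3 < -1 * ∑ q ∈ C, sg (v.1 i q) * sg (v.2 i q)).card : ℝ) := by
    exact_mod_cast h4
  linarith

end Pool.Agent.DGO
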