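import Pool.Agent.DGO.St1

/-!
# Project DGO: the second moment
-/

set_option autoImplicit false

namespace Pool.Agent.DGO

open Finset Pool.Agent.OB

/-- `MOM`: the second moment. -/
theorem t_MOM : S_MOM := by
  intro I _ _ t W B T
  have h1 : ∀ p : Ptr I t, bias W p T ^ 2 = ∑ V ∈ W, ∑ V' ∈ W,
      ∏ i, (if i ∈ T then sg (V i (p i)) * sg (V' i (p i)) else 1) := by
    intro p
    unfold bias
    rw [sq, Finset.sum_mul_sum]
    refine Finset.sum_congr rfl fun V _ => Finset.sum_congr rfl fun V' _ => ?_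
    rw [← Finset.prod_mul_distrib, Finset.prod_ite_mem, Finset.univ_inter]
  have h2 : ∑ p ∈ Fintype.piFinset B, bias W p T ^ 2 = ∑ V ∈ W, ∑ V' ∈ W,
      ∑ p ∈ Fintype.piFinset B, ∏ i, (if i ∈ T then sg (V i (p i)) * sg (V' i (p i)) else 1) := by
    rw [Finset.sum_congr rfl fun p _ => h1 p, Finset.sum_comm]
    refine Finset.sum_congr rfl fun V _ => ?_
    rw [Finset.sum_comm]
  rw [h2]
  refine Finset.sum_congr rfl fun V _ => Finset.sum_congr rfl fun V' _ => ?_
  have h3 := Finset.prod_univ_sum B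
    (fun (i : I) (q : Fin t → Bool) => if i ∈ T then sg (V i q) * sg (V' i q) else 1)
  rw [← h3]
  refine Finset.prod_congr rfl fun i _ => ?_
  split_ifs with hi
  · rfl
  · rw [Finset.sum_const, nsmul_eq_mul, mul_one]

end Pool.Agent.DGO
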