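import Pool.Agent.DGO.St2

/-!
# OST: the state of an OBDD after an initial segment of the variables
-/

set_option autoImplicit false

namespace Pool.Agent.DGO

open Finset Pool.Agent.OB

namespace MOST

variable {V : Type} {s : ℕ}

/-- From the node `i` the computation on `x` reaches the node `j`, which is a sink or tests a
variable outside `A`, and all variables tested before are in `A`. -/
inductive St (D : BDD V s) (A : V → Prop) (x : V → Bool) : Fin s → Fin s → Prop
  | stop {i : Fin s} : (∀ v lo hi, D.node i = Sum.inr (v, lo, hi) → ¬ A v) → St D A x i i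
  | step {i j lo hi : Fin s} {v : V} : D.node i = Sum.inr (v, lo, hi) → A v →
      St D A x (if x v = true then hi else lo) j → St D A x i j

theorem exists_of_out {D : BDD V s} {A : V → Prop} {x : V → Bool} {i : Fin s} {b : Bool}
    (h : D.Out x i b) : ∃ j, St D A x i j ∧ D.Out x j b := by
  induction h with
  | @sink i b hi =>
    refine ⟨i, St.stop ?_, BDD.Out.sink hi⟩
    intro v lo hi' h
    rw [hi] at h
    exact absurd h (by simp)
  | @step i lo hi v b hi' hout ih =>
    by_cases hv : A v
    · obtain ⟨j, hj, hjb⟩ := ih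
      exact ⟨j, St.step hi' hv hj, hjb⟩
    · refine ⟨i, St.stop ?_, BDD.Out.step hi' hout⟩
      intro v' lo' hi'' h
      rw [hi'] at h
      simp only [Sum.inr.injEq, Prod.mk.injEq] at h
      rw [← h.1]
      exact hv

theorem stopped {D : BDD V s} {A : V → Prop} {x : V → Bool} {i j : Fin s}
    (h : St D A x i j) : ∀ v lo hi, D.node j = Sum.inr (v, lo, hi) → ¬ A v := by
  induction h with
  | stop h => exact h
  | step _ _ _ ih => exact ih

theorem det {D : BDD V s} {A : V → Prop} {x x' : V → Bool} (hx : ∀ v, A v → x v = x' v)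
    {i j j' : Fin s} (h : St D A x i j) (h' : St D A x' i j') : j = j' := by
  induction h with
  | @stop i hs =>
    cases h' with
    | stop _ => rfl
    | step h1 h2 _ => exact absurd h2 (hs _ _ _ h1)
  | @step i j lo hi v h1 h2 h3 ih =>
    cases h' with
    | stop hs => exact absurd h2 (hs _ _ _ h1)
    | @step _ _ lo' hi' v' h1' h2' h3' =>
      rw [h1] at h1'
      simp only [Sum.inr.injEq, Prod.mk.injEq] at h1'
      obtain ⟨rfl, rfl, rfl⟩ := h1'
      apply ih
      rw [hx v h2]
      exact h3'

theorem out_det {D : BDD V s} {x : V → Bool} {i : Fin s} {b b' : Bool}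
    (h : D.Out x i b) (h' : D.Out x i b') : b = b' := by
  induction h with
  | @sink i b hi =>
    cases h' with
    | sink hi' =>
      rw [hi] at hi'
      simpa using hi'
    | step hi' _ =>
      rw [hi] at hi'
      exact absurd hi' (by simp)
  | @step i lo hi v b hi' hout ih =>
    cases h' with
    | sink hi'' =>
      rw [hi'] at hi''
      exact absurd hi'' (by simp)
    | step hi'' hout' =>
      rw [hi'] at hi''
      simp only [Sum.inr.injEq, Prod.mk.injEq] at hi''
      obtain ⟨rfl, rfl, rfl⟩ := hi''
      exact ih hout'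

theorem out_off [Fintype V] {D : BDD V s} {σ : V ≃ Fin (Fintype.card V)} (hD : D.Ordered σ)
    {c : ℕ} {x x' : V → Bool} (hx : ∀ v, ¬ (σ v : ℕ) < c → x v = x' v) {i : Fin s} {b : Bool}
    (h : D.Out x i b) : (∀ v lo hi, D.node i = Sum.inr (v, lo, hi) → ¬ (σ v : ℕ) < c) →
      D.Out x' i b := by
  induction h with
  | @sink i b hi => intro _; exact BDD.Out.sink hi
  | @step i lo hi v b hi' hout ih =>
    intro hs
    have hv : ¬ (σ v : ℕ) < c := hs _ _ _ hi'
    refine BDD.Out.step hi' ?_
    rw [← hx v hv]
    apply ih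
    intro v' lo' hi'' hn hv'
    have hlt := hD i v lo hi hi' (if x v = true then hi else lo) (by
      by_cases hxv : x v = true
      · right; rw [if_pos hxv]
      · left; rw [if_neg hxv]) v' lo' hi'' hn
    have : (σ v : ℕ) < (σ v' : ℕ) := hlt
    omega

end MOST

open MOST in
/-- **OST.** -/
theorem t_OST : S_OST := by
  intro V _ σ s f h c
  obtain ⟨D, hD, hf⟩ := h
  have hex : ∀ x, ∃ j, St D (fun v => (σ v : ℕ) < c) x D.root j ∧ D.Out x j (f x) :=
    fun x => exists_of_out (hf x)
  choose st hst hout using hex
  refine ⟨st, fun x y hxy => det hxy (hst x) (hst y), ?_⟩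
  intro x y hxy h1
  have h2 : D.Out y (st x) (f x) :=
    out_off hD (fun v hv => h1 v (not_lt.1 hv)) (hout x) (stopped (hst x))
  rw [hxy] at h2
  exact out_det h2 (hout y)

end Pool.Agent.DGO
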