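import Pool.Agent.DGO.St2

/-!
# Project DGO, module PHP: the base formula
-/

set_option autoImplicit false

namespace Pool.Agent.DGO

open Finset Pool.Agent.OB

namespace MPHP

variable {m : ℕ}

/-- The values of the variables for the placement `h` of the pigeons. -/
def val (h : Fin (m + 1) → Fin m) : PV m → Bool
  | (i, Sum.inl j) => decide (h i = j)
  | (i, Sum.inr j) => decide ((h i : ℕ) < j)

theorem mem_ephp {C : Clause (PV m)} : C ∈ EPHP m ↔
    (∃ i, C = {((i, Sum.inr 0), false)}) ∨ (∃ i, C = {((i, Sum.inr (Fin.last m)), true)}) ∨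
    (∃ i j, C = {((i, Sum.inr (Fin.succ j)), false), ((i, Sum.inr (Fin.castSucc j)), true),
      ((i, Sum.inl j), true)}) ∨
    (∃ i i' j, i ≠ i' ∧ C = {((i, Sum.inl j), false), ((i', Sum.inl j), false)}) := by
  unfold EPHP
  simp only [mem_union, mem_image, mem_univ, true_and, mem_filter, Prod.exists]
  constructor
  · rintro (((⟨i, rfl⟩ | ⟨i, rfl⟩) | ⟨i, j, rfl⟩) | ⟨i, i', j, hi, rfl⟩)
    · exact Or.inl ⟨i, rfl⟩
    · exact Or.inr (Or.inl ⟨i, rfl⟩)
    · exact Or.inr (Or.inr (Or.inl ⟨i, j, rfl⟩))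
    · exact Or.inr (Or.inr (Or.inr ⟨i, i', j, hi, rfl⟩))
  · rintro (⟨i, rfl⟩ | ⟨i, rfl⟩ | ⟨i, j, rfl⟩ | ⟨i, i', j, hi, rfl⟩)
    · exact Or.inl (Or.inl (Or.inl ⟨i, rfl⟩))
    · exact Or.inl (Or.inl (Or.inr ⟨i, rfl⟩))
    · exact Or.inl (Or.inr ⟨i, j, rfl⟩)
    · exact Or.inr ⟨i, i', j, hi, rfl⟩

theorem unsat (m : ℕ) : Unsat (EPHP m) := by
  intro x
  by_contra hx
  have hS : ∀ C ∈ EPHP m, Sat x C := fun C hC => by
    by_contra h
    exact hx ⟨C, hC, h⟩
  have h1 : ∀ i, ∃ j : Fin m, x (i, Sum.inl j) = true := by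
    intro i
    by_contra hi
    have hi' : ∀ j : Fin m, x (i, Sum.inl j) ≠ true := fun j h => hi ⟨j, h⟩
    have h2 : ∀ j : Fin (m + 1), x (i, Sum.inr j) = false := by
      intro j
      induction j using Fin.induction with
      | zero =>
        obtain ⟨l, hl, hl2⟩ := hS {((i, Sum.inr 0), false)} (mem_ephp.2 (Or.inl ⟨i, rfl⟩))
        rw [mem_singleton] at hl
        rw [hl] at hl2
        exact hl2
      | succ j ih =>
        obtain ⟨l, hl, hl2⟩ := hS _ (mem_ephp.2 (Or.inr (Or.inr (Or.inl ⟨i, j, rfl⟩))))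
        simp only [mem_insert, mem_singleton] at hl
        rcases hl with rfl | rfl | rfl
        · exact hl2
        · have h3 : x (i, Sum.inr (Fin.castSucc j)) = true := hl2
          rw [ih] at h3
          exact absurd h3 (by decide)
        · exact absurd hl2 (hi' j)
    obtain ⟨l, hl, hl2⟩ := hS _ (mem_ephp.2 (Or.inr (Or.inl ⟨i, rfl⟩)))
    rw [mem_singleton] at hl
    rw [hl] at hl2
    have h3 : x (i, Sum.inr (Fin.last m)) = true := hl2
    rw [h2] at h3
    exact absurd h3 (by decide)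
  choose f hf using h1
  obtain ⟨i, i', hi, hfi⟩ := Fintype.exists_ne_map_eq_of_card_lt f (by simp)
  obtain ⟨l, hl, hl2⟩ := hS _ (mem_ephp.2 (Or.inr (Or.inr (Or.inr ⟨i, i', f i, hi, rfl⟩))))
  simp only [mem_insert, mem_singleton] at hl
  rcases hl with rfl | rfl
  · have h3 : x (i, Sum.inl (f i)) = false := hl2
    rw [hf i] at h3
    exact absurd h3 (by decide)
  · have h3 : x (i', Sum.inl (f i)) = false := hl2
    rw [hfi, hf i'] at h3
    exact absurd h3 (by decide)

theorem width (m : ℕ) : ∀ C ∈ EPHP m, C.card ≤ 3 := by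
  intro C hC
  rcases mem_ephp.1 hC with ⟨i, rfl⟩ | ⟨i, rfl⟩ | ⟨i, j, rfl⟩ | ⟨i, i', j, hi, rfl⟩
  · rw [card_singleton]
    omega
  · rw [card_singleton]
    omega
  · exact card_le_three
  · exact card_le_two.trans (by omega)

theorem size (m : ℕ) : (EPHP m).card ≤ 4 * (m + 1) ^ 3 := by
  have h1 : (univ.image fun i : Fin (m + 1) =>
      ({((i, Sum.inr 0), false)} : Clause (PV m))).card ≤ m + 1 :=
    card_image_le.trans (by simp)
  have h2 : (univ.image fun i : Fin (m + 1) =>
      ({((i, Sum.inr (Fin.last m)), true)} : Clause (PV m))).card ≤ m + 1 :=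
    card_image_le.trans (by simp)
  have h3 : (univ.image fun v : Fin (m + 1) × Fin m =>
      ({((v.1, Sum.inr v.2.succ), false), ((v.1, Sum.inr v.2.castSucc), true),
      ((v.1, Sum.inl v.2), true)} : Clause (PV m))).card ≤ (m + 1) * m :=
    card_image_le.trans (by simp)
  have h4 : ((univ.filter fun v : Fin (m + 1) × Fin (m + 1) × Fin m => v.1 ≠ v.2.1).image fun v =>
      ({((v.1, Sum.inl v.2.2), false), ((v.2.1, Sum.inl v.2.2), false)} : Clause (PV m))).card ≤
      (m + 1) * ((m + 1) * m) :=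
    card_image_le.trans ((card_filter_le _ _).trans (by simp))
  have h5 : (EPHP m).card ≤ (m + 1) + (m + 1) + (m + 1) * m + (m + 1) * ((m + 1) * m) := by
    unfold EPHP
    refine (card_union_le _ _).trans (Nat.add_le_add ?_ h4)
    refine (card_union_le _ _).trans (Nat.add_le_add ?_ h3)
    exact (card_union_le _ _).trans (Nat.add_le_add h1 h2)
  refine h5.trans ?_
  have e : 4 * (m + 1) ^ 3 = ((m + 1) + (m + 1) + (m + 1) * m + (m + 1) * ((m + 1) * m)) +
      (3 * m ^ 3 + 9 * m ^ 2 + 8 * m + 2) := by ring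
  omega

/-- The strategy. -/
def Hs (m : ℕ) (Q : Finset (PV m)) (z : PV m → Bool) : Prop :=
  ∃ h : Fin (m + 1) → Fin m, (∀ i ∈ Q.image Prod.fst, ∀ i' ∈ Q.image Prod.fst, h i = h i' → i = i') ∧
    ∀ v ∈ Q, z v = val h v

theorem val_congr {h h' : Fin (m + 1) → Fin m} {v : PV m} (e : h v.1 = h' v.1) :
    val h v = val h' v := by
  obtain ⟨i, j | j⟩ := v
  · have e' : h i = h' i := e
    simp only [val, e']
  · have e' : h i = h' i := e
    simp only [val, e']

theorem ext_H {Q : Finset (PV m)} {z : PV m → Bool} (i : PV m) (hH : Hs m Q z) (hQ : Q.card < m)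
    (hi : i ∉ Q) : ∃ b, Hs m (insert i Q) (Function.update z i b) := by
  obtain ⟨h, h1, h2⟩ := hH
  by_cases ha : i.1 ∈ Q.image Prod.fst
  · refine ⟨val h i, h, ?_, ?_⟩
    · rw [image_insert, insert_eq_self.2 ha]
      exact h1
    · intro v hv
      rcases mem_insert.1 hv with rfl | hv
      · rw [Function.update_self]
      · have hne : v ≠ i := fun e => hi (e ▸ hv)
        rw [Function.update_of_ne hne]
        exact h2 v hv
  · have hc : ((Q.image Prod.fst).image h).card < Fintype.card (Fin m) := by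
      rw [Fintype.card_fin]
      exact lt_of_le_of_lt (card_image_le.trans card_image_le) hQ
    obtain ⟨j, hj⟩ : ∃ j, j ∉ (Q.image Prod.fst).image h := by
      by_contra hcon
      have h3 : (Q.image Prod.fst).image h = univ := by
        apply eq_univ_of_forall
        intro j
        by_contra hj
        exact hcon ⟨j, hj⟩
      rw [h3, card_univ] at hc
      exact absurd hc (lt_irrefl _)
    have hne : ∀ a ∈ Q.image Prod.fst, a ≠ i.1 := fun a ha' e => ha (e ▸ ha')
    have hup : ∀ a ∈ Q.image Prod.fst, Function.update h i.1 j a = h a := fun a ha' =>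
      Function.update_of_ne (hne a ha') _ _
    refine ⟨val (Function.update h i.1 j) i, Function.update h i.1 j, ?_, ?_⟩
    · rw [image_insert]
      intro a ha1 a' ha2 e
      rcases mem_insert.1 ha1 with rfl | ha1 <;> rcases mem_insert.1 ha2 with rfl | ha2
      · rfl
      · rw [Function.update_self, hup a' ha2] at e
        exact absurd (mem_image.2 ⟨a', ha2, e.symm⟩) hj
      · rw [Function.update_self, hup a ha1] at e
        exact absurd (mem_image.2 ⟨a, ha1, e⟩) hj
      · rw [hup a ha1, hup a' ha2] at e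
        exact h1 a ha1 a' ha2 e
    · intro v hv
      rcases mem_insert.1 hv with rfl | hv
      · rw [Function.update_self]
      · have hne' : v ≠ i := fun e => hi (e ▸ hv)
        rw [Function.update_of_ne hne', h2 v hv]
        exact val_congr (hup v.1 (mem_image_of_mem _ hv)).symm

theorem good_H {Q : Finset (PV m)} {z : PV m → Bool} {C : Clause (PV m)} (hH : Hs m Q z)
    (hC : C ∈ EPHP m) (hl : ∀ l ∈ C, l.1 ∈ Q) : Sat z C := by
  obtain ⟨h, h1, h2⟩ := hH
  rcases mem_ephp.1 hC with ⟨i, rfl⟩ | ⟨i, rfl⟩ | ⟨i, j, rfl⟩ | ⟨i, i', j, hi, rfl⟩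
  · refine ⟨((i, Sum.inr 0), false), mem_singleton_self _, ?_⟩
    have h3 := h2 _ (hl _ (mem_singleton_self _))
    rw [h3]
    simp [val]
  · refine ⟨((i, Sum.inr (Fin.last m)), true), mem_singleton_self _, ?_⟩
    have h3 := h2 _ (hl _ (mem_singleton_self _))
    rw [h3]
    simp [val]
  · have m1 : (((i, Sum.inr j.succ), false) : Lit (PV m)) ∈
        ({((i, Sum.inr j.succ), false), ((i, Sum.inr j.castSucc), true),
          ((i, Sum.inl j), true)} : Clause (PV m)) := mem_insert_self _ _
    have m2 : (((i, Sum.inr j.castSucc), true) : Lit (PV m)) ∈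
        ({((i, Sum.inr j.succ), false), ((i, Sum.inr j.castSucc), true),
          ((i, Sum.inl j), true)} : Clause (PV m)) := mem_insert_of_mem (mem_insert_self _ _)
    have m3 : (((i, Sum.inl j), true) : Lit (PV m)) ∈
        ({((i, Sum.inr j.succ), false), ((i, Sum.inr j.castSucc), true),
          ((i, Sum.inl j), true)} : Clause (PV m)) :=
      mem_insert_of_mem (mem_insert_of_mem (mem_singleton_self _))
    rcases lt_trichotomy (h i : ℕ) (j : ℕ) with hlt | heq | hgt
    · refine ⟨_, m2, ?_⟩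
      have h3 := h2 _ (hl _ m2)
      rw [h3]
      simp [val, hlt]
    · refine ⟨_, m3, ?_⟩
      have h3 := h2 _ (hl _ m3)
      rw [h3]
      have h4 : h i = j := Fin.ext heq
      simp [val, h4]
    · refine ⟨_, m1, ?_⟩
      have h3 := h2 _ (hl _ m1)
      rw [h3]
      have h4 : ¬ (h i : ℕ) < (j : ℕ) + 1 := by omega
      simp only [val, Fin.val_succ, decide_eq_false_iff_not]
      exact h4
  · have m1 : (((i, Sum.inl j), false) : Lit (PV m)) ∈
        ({((i, Sum.inl j), false), ((i', Sum.inl j), false)} : Clause (PV m)) :=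
      mem_insert_self _ _
    have m2 : (((i', Sum.inl j), false) : Lit (PV m)) ∈
        ({((i, Sum.inl j), false), ((i', Sum.inl j), false)} : Clause (PV m)) :=
      mem_insert_of_mem (mem_singleton_self _)
    by_cases hij : h i = j
    · refine ⟨_, m2, ?_⟩
      have h3 := h2 _ (hl _ m2)
      rw [h3]
      have h4 : ¬ h i' = j := by
        intro e
        exact hi (h1 i (mem_image.2 ⟨_, hl _ m1, rfl⟩) i' (mem_image.2 ⟨_, hl _ m2, rfl⟩)
          (hij.trans e.symm))
      simp only [val, decide_eq_false_iff_not]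
      exact h4
    · refine ⟨_, m1, ?_⟩
      have h3 := h2 _ (hl _ m1)
      rw [h3]
      simp only [val, decide_eq_false_iff_not]
      exact hij

theorem strat (hm : 1 ≤ m) : Strat (EPHP m) m (Hs m) where
  emp := fun z => ⟨fun _ => ⟨0, hm⟩, fun i hi => absurd hi (by simp), fun v hv => absurd hv (by simp)⟩
  mono := fun Q Q' z hH hQ => by
    obtain ⟨h, h1, h2⟩ := hH
    exact ⟨h, fun i hi i' hi' => h1 i (image_subset_image hQ hi) i' (image_subset_image hQ hi'),
      fun v hv => h2 v (hQ hv)⟩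
  congr := fun Q z z' hH e => by
    obtain ⟨h, h1, h2⟩ := hH
    exact ⟨h, h1, fun v hv => (e v hv).symm.trans (h2 v hv)⟩
  ext := fun Q z i hH hQ hi => ext_H i hH hQ hi
  good := fun Q z C hH hC hl => good_H hH hC hl

end MPHP

theorem t_PHP : S_PHP := by
  intro m hm
  refine ⟨MPHP.unsat m, MPHP.width m, MPHP.size m, ?_, MPHP.Hs m, MPHP.strat hm⟩
  simp only [Fintype.card_prod, Fintype.card_sum, Fintype.card_fin]
  ring

end Pool.Agent.DGO
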