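import Pool.Agent.DGO.St1

/-!
# Project DGO: one pointer assignment is good for all lines
-/

set_option autoImplicit false

namespace Pool.Agent.DGO

open Finset Pool.Agent.OB

namespace MPST

section

variable {I : Type} [Fintype I] [DecidableEq I] {t : ℕ}

open Classical in
/-- one class -/
lemma one (d r n S : ℕ) (C : Finset (Ptr I t)) (F : Ptr I t → Finset (Arr I t))
    (B : Finset (Arr I t))
    (h : ∀ W : Finset (Arr I t), (C.filter fun p => ¬ Good d r W p).card * n ≤ C.card)
    (hS : (C.image F).card ≤ S) :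
    (C.filter fun p => ¬ Good d r (F p \ B) p).card * n ≤ S * C.card := by
  have h1 : (C.filter fun p => ¬ Good d r (F p \ B) p) ⊆
      (C.image F).biUnion fun W => C.filter fun p => ¬ Good d r (W \ B) p := by
    intro p hp
    rw [mem_filter] at hp
    rw [mem_biUnion]
    exact ⟨F p, mem_image_of_mem _ hp.1, mem_filter.2 hp⟩
  have h2 : (C.filter fun p => ¬ Good d r (F p \ B) p).card ≤
      ∑ W ∈ C.image F, (C.filter fun p => ¬ Good d r (W \ B) p).card :=
    (card_le_card h1).trans card_biUnion_le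
  calc (C.filter fun p => ¬ Good d r (F p \ B) p).card * n
      ≤ (∑ W ∈ C.image F, (C.filter fun p => ¬ Good d r (W \ B) p).card) * n :=
        Nat.mul_le_mul_right _ h2
    _ = ∑ W ∈ C.image F, (C.filter fun p => ¬ Good d r (W \ B) p).card * n := by
        rw [sum_mul]
    _ ≤ ∑ W ∈ C.image F, C.card := sum_le_sum fun W _ => h (W \ B)
    _ = (C.image F).card * C.card := by rw [sum_const, smul_eq_mul]
    _ ≤ S * C.card := Nat.mul_le_mul_right _ hS

/-- the pointer assignment without the free bits -/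
def g (Λ : I → Finset (Fin t)) (p : Ptr I t) : Ptr I t :=
  fun i l => if l ∈ Λ i then false else p i l

lemma g_eq (Λ : I → Finset (Fin t)) (p p₀ : Ptr I t) : g Λ p = g Λ p₀ ↔ p ∈ cls Λ p₀ := by
  unfold cls
  rw [mem_filter]
  constructor
  · intro h
    refine ⟨mem_univ _, fun i l hl => ?_⟩
    have h1 := congrFun (congrFun h i) l
    simpa [g, hl] using h1
  · rintro ⟨-, h⟩
    funext i l
    by_cases hl : l ∈ Λ i
    · simp [g, hl]
    · simp [g, hl, h i l hl]

open Classical in
/-- one line -/
lemma line (d r n a S : ℕ) (F : Ptr I t → Finset (Arr I t)) (B : Finset (Arr I t))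
    (h : ∀ (Λ : I → Finset (Fin t)) (p₀ : Ptr I t) (W : Finset (Arr I t)),
      (∀ i, (Λ i).card = a) →
      ((cls Λ p₀).filter fun p => ¬ Good d r W p).card * n ≤ (cls Λ p₀).card)
    (hF : Few a S F) :
    ((univ : Finset (Ptr I t)).filter fun p => ¬ Good d r (F p \ B) p).card * n ≤
      S * Fintype.card (Ptr I t) := by
  obtain ⟨Λ, hΛ, hS⟩ := hF
  have h1 : ((univ : Finset (Ptr I t)).filter fun p => ¬ Good d r (F p \ B) p).card =
      ∑ b ∈ univ.image (g Λ), (((univ : Finset (Ptr I t)).filter fun p =>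
        ¬ Good d r (F p \ B) p).filter fun p => g Λ p = b).card :=
    card_eq_sum_card_fiberwise fun p _ => mem_coe.2 (mem_image_of_mem _ (mem_univ p))
  have h2 : Fintype.card (Ptr I t) =
      ∑ b ∈ univ.image (g Λ), ((univ : Finset (Ptr I t)).filter fun p => g Λ p = b).card := by
    rw [← card_univ]
    exact card_eq_sum_card_fiberwise fun p _ => mem_coe.2 (mem_image_of_mem _ (mem_univ p))
  rw [h1, h2, sum_mul, mul_sum]
  refine sum_le_sum fun b hb => ?_
  obtain ⟨p₀, -, rfl⟩ := mem_image.1 hb
  have h3 : ((univ : Finset (Ptr I t)).filter fun p => g Λ p = g Λ p₀) = cls Λ p₀ := by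
    ext p
    rw [mem_filter, g_eq]
    exact ⟨fun h => h.2, fun h => ⟨mem_univ _, h⟩⟩
  have h4 : (((univ : Finset (Ptr I t)).filter fun p =>
        ¬ Good d r (F p \ B) p).filter fun p => g Λ p = g Λ p₀) =
      (cls Λ p₀).filter fun p => ¬ Good d r (F p \ B) p := by
    ext p
    rw [mem_filter, mem_filter, mem_filter, g_eq]
    exact ⟨fun h => ⟨h.2, h.1.2⟩, fun h => ⟨⟨mem_univ _, h.2⟩, h.1⟩⟩
  rw [h3, h4]
  refine one d r n S (cls Λ p₀) F B (fun W => h Λ p₀ W hΛ) ?_
  have h5 := hS p₀
  exact h5

end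

end MPST

open Classical in
theorem t_PST (_hCLC : S_CLC) : S_PST := by
  intro I _ _ t a d r L S F h hF hL
  by_contra hne
  push Not at hne
  have h1 : (univ : Finset (Ptr I t)) ⊆ (range L).biUnion fun v =>
      (univ : Finset (Ptr I t)).filter fun p => ¬ Good d r (F v p \ Bad d F v) p := by
    intro p _
    obtain ⟨v, hv, hp⟩ := hne p
    rw [mem_biUnion]
    exact ⟨v, mem_range.2 hv, mem_filter.2 ⟨mem_univ _, hp⟩⟩
  have h2 : Fintype.card (Ptr I t) ≤ ∑ v ∈ range L, ((univ : Finset (Ptr I t)).filter fun p =>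
      ¬ Good d r (F v p \ Bad d F v) p).card := by
    rw [← card_univ]
    exact (card_le_card h1).trans card_biUnion_le
  have h3 : Fintype.card (Ptr I t) * Fintype.card I ^ r ≤
      L * S * Fintype.card (Ptr I t) := by
    calc Fintype.card (Ptr I t) * Fintype.card I ^ r
        ≤ (∑ v ∈ range L, ((univ : Finset (Ptr I t)).filter fun p =>
            ¬ Good d r (F v p \ Bad d F v) p).card) * Fintype.card I ^ r :=
          Nat.mul_le_mul_right _ h2
      _ = ∑ v ∈ range L, ((univ : Finset (Ptr I t)).filter fun p =>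
            ¬ Good d r (F v p \ Bad d F v) p).card * Fintype.card I ^ r := by rw [sum_mul]
      _ ≤ ∑ v ∈ range L, S * Fintype.card (Ptr I t) := by
          refine sum_le_sum fun v hv => ?_
          exact MPST.line d r _ a S (F v) (Bad d F v) (fun Λ p₀ W hΛ => h Λ p₀ W hΛ)
            (hF v (mem_range.1 hv))
      _ = L * S * Fintype.card (Ptr I t) := by
          rw [sum_const, card_range, smul_eq_mul, mul_assoc]
  have h4 : 0 < Fintype.card (Ptr I t) := Fintype.card_pos
  have h5 : Fintype.card I ^ r ≤ L * S := by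
    rw [mul_comm (L * S)] at h3
    exact Nat.le_of_mul_le_mul_left h3 h4
  omega

end Pool.Agent.DGO
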