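import Pool.Agent.DGO.St1

/-!
# Project DGO, module SM: a fixed set is rarely dangerous
-/

set_option autoImplicit false

namespace Pool.Agent.DGO

open Finset Pool.Agent.OB

namespace MSM

theorem sg_abs (b : Bool) : |sg b| = 1 := by
  unfold sg
  split_ifs <;> simp

theorem sum_abs_le {t : ℕ} (C : Finset (Fin t → Bool)) (f g : (Fin t → Bool) → Bool) :
    |∑ q ∈ C, sg (f q) * sg (g q)| ≤ (C.card : ℝ) := by
  refine (Finset.abs_sum_le_sum_abs _ _).trans ?_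
  simp [abs_mul, sg_abs]

/-- The product is small if all factors in `T` are small. -/
theorem prod_small {I : Type} [Fintype I] [DecidableEq I] (T : Finset I) (R : ℝ) (hR : 0 ≤ R)
    (g : I → ℝ) (hg : ∀ i ∈ T, |g i| ≤ R ^ 3) :
    ∏ i, (if i ∈ T then g i else R ^ 4) ≤
      (R ^ 3) ^ T.card * (R ^ 4) ^ (Fintype.card I - T.card) := by
  have h1 : ((univ : Finset I).filter fun i => i ∈ T).card = T.card := by simp
  have h2 : ((univ : Finset I).filter fun i => i ∉ T).card = Fintype.card I - T.card := by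
    rw [Finset.filter_notMem_eq_sdiff, Finset.card_univ_diff]
  calc ∏ i, (if i ∈ T then g i else R ^ 4) ≤ |∏ i, (if i ∈ T then g i else R ^ 4)| :=
        le_abs_self _
    _ = ∏ i, |(if i ∈ T then g i else R ^ 4)| := Finset.abs_prod _ _
    _ ≤ ∏ i, (if i ∈ T then R ^ 3 else R ^ 4) := by
        apply Finset.prod_le_prod
        · intro i _
          exact abs_nonneg _
        · intro i _
          split_ifs with h
          · exact hg i h
          · rw [abs_of_nonneg (by positivity)]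
    _ = _ := by
        rw [Finset.prod_ite, Finset.prod_const, Finset.prod_const, h1, h2]

/-- The product is never large. -/
theorem prod_any {I : Type} [Fintype I] [DecidableEq I] (T : Finset I) (R : ℝ) (hR : 0 ≤ R)
    (g : I → ℝ) (hg : ∀ i ∈ T, |g i| ≤ R ^ 4) :
    ∏ i, (if i ∈ T then g i else R ^ 4) ≤ (R ^ 4) ^ Fintype.card I := by
  calc ∏ i, (if i ∈ T then g i else R ^ 4) ≤ |∏ i, (if i ∈ T then g i else R ^ 4)| :=
        le_abs_self _
    _ = ∏ i, |(if i ∈ T then g i else R ^ 4)| := Finset.abs_prod _ _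
    _ ≤ ∏ _i : I, R ^ 4 := by
        apply Finset.prod_le_prod
        · intro i _
          exact abs_nonneg _
        · intro i _
          split_ifs with h
          · exact hg i h
          · rw [abs_of_nonneg (by positivity)]
    _ = _ := by
        rw [Finset.prod_const, Finset.card_univ]

open Classical in
/-- The bound for the second moment. -/
theorem sum_bias (hHOF : S_HOF) (hMOM : S_MOM) {I : Type} [Fintype I] [DecidableEq I] {t R : ℕ}
    (hR : 1 ≤ R) (W : Finset (Arr I t)) (B : I → Finset (Fin t → Bool))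
    (hB : ∀ i, (B i).card = R ^ 4) (T : Finset I) :
    ∑ p ∈ Fintype.piFinset B, bias W p T ^ 2 ≤
      (W.card : ℝ) ^ 2 * (((R : ℝ) ^ 3) ^ T.card * ((R : ℝ) ^ 4) ^ (Fintype.card I - T.card)) +
      ((T.card : ℝ) * (2 * Real.exp (-((R : ℝ) ^ 2 / 2)) * (Fintype.card (Arr I t) : ℝ) ^ 2)) *
        ((R : ℝ) ^ 4) ^ Fintype.card I := by
  set Ei : I → Finset (Arr I t × Arr I t) := fun i =>
    (univ : Finset (Arr I t × Arr I t)).filter fun v =>
      (R : ℝ) ^ 3 < |∑ q ∈ B i, sg (v.1 i q) * sg (v.2 i q)| with hEi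
  set E : Finset (Arr I t × Arr I t) := T.biUnion Ei with hE
  set a : ℝ := ((R : ℝ) ^ 3) ^ T.card * ((R : ℝ) ^ 4) ^ (Fintype.card I - T.card) with ha
  set b : ℝ := ((R : ℝ) ^ 4) ^ Fintype.card I with hb
  have ha0 : 0 ≤ a := by positivity
  have hb0 : 0 ≤ b := by positivity
  have hR0 : (0 : ℝ) ≤ R := Nat.cast_nonneg _
  have hEc : (E.card : ℝ) ≤
      (T.card : ℝ) * (2 * Real.exp (-((R : ℝ) ^ 2 / 2)) * (Fintype.card (Arr I t) : ℝ) ^ 2) := by
    have h1 : (E.card : ℝ) ≤ ∑ i ∈ T, ((Ei i).card : ℝ) := by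
      have := Finset.card_biUnion_le (s := T) (t := Ei)
      exact_mod_cast this
    refine h1.trans ?_
    rw [← nsmul_eq_mul]
    refine Finset.sum_le_card_nsmul _ _ _ fun i _ => ?_
    exact hHOF I t R i (B i) hR (hB i)
  have hterm : ∀ V V' : Arr I t,
      (∏ i, if i ∈ T then ∑ q ∈ B i, sg (V i q) * sg (V' i q) else ((B i).card : ℝ)) ≤
        a + if (V, V') ∈ E then b else 0 := by
    intro V V'
    have h0 : (∏ i, if i ∈ T then ∑ q ∈ B i, sg (V i q) * sg (V' i q) else ((B i).card : ℝ)) =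
        ∏ i, if i ∈ T then ∑ q ∈ B i, sg (V i q) * sg (V' i q) else (R : ℝ) ^ 4 := by
      refine Finset.prod_congr rfl fun i _ => ?_
      rw [hB i, Nat.cast_pow]
    rw [h0]
    by_cases hv : (V, V') ∈ E
    · rw [if_pos hv]
      have h1 := prod_any T (R : ℝ) hR0 (fun i => ∑ q ∈ B i, sg (V i q) * sg (V' i q))
        (fun i _ => by
          have := sum_abs_le (B i) (V i) (V' i)
          rw [hB i, Nat.cast_pow] at this
          exact this)
      linarith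
    · rw [if_neg hv]
      have h1 := prod_small T (R : ℝ) hR0 (fun i => ∑ q ∈ B i, sg (V i q) * sg (V' i q))
        (fun i hi => by
          by_contra hlt
          rw [not_le] at hlt
          exact hv (Finset.mem_biUnion.2 ⟨i, hi, Finset.mem_filter.2 ⟨Finset.mem_univ _, hlt⟩⟩))
      linarith
  rw [hMOM I t W B T]
  calc ∑ V ∈ W, ∑ V' ∈ W,
        (∏ i, if i ∈ T then ∑ q ∈ B i, sg (V i q) * sg (V' i q) else ((B i).card : ℝ))
      ≤ ∑ V ∈ W, ∑ V' ∈ W, (a + if (V, V') ∈ E then b else 0) :=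
        Finset.sum_le_sum fun V _ => Finset.sum_le_sum fun V' _ => hterm V V'
    _ = (W.card : ℝ) ^ 2 * a + ∑ v ∈ W ×ˢ W, (if v ∈ E then b else 0) := by
        rw [Finset.sum_product]
        simp only [Finset.sum_add_distrib, Finset.sum_const, nsmul_eq_mul]
        ring
    _ ≤ (W.card : ℝ) ^ 2 * a + (E.card : ℝ) * b := by
        have h1 : ∑ v ∈ W ×ˢ W, (if v ∈ E then b else 0) ≤ ∑ v : Arr I t × Arr I t,
            (if v ∈ E then b else 0) := by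
          refine Finset.sum_le_sum_of_subset_of_nonneg (Finset.subset_univ _) fun v _ _ => ?_
          split_ifs
          · exact hb0
          · exact le_rfl
        have h2 : ∑ v : Arr I t × Arr I t, (if v ∈ E then b else 0) = (E.card : ℝ) * b := by
          rw [Finset.sum_ite_mem, Finset.univ_inter, Finset.sum_const, nsmul_eq_mul]
        linarith
    _ ≤ _ := by
        have := mul_le_mul_of_nonneg_right hEc hb0
        linarith

/-- The numbers. -/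
theorem numbers {n k R d a' : ℕ} (hR : R = 2 ^ a') (hk : 1 ≤ k) (hkn : k ≤ n)
    (h1 : 512 * n ^ 5 ≤ R) (h2 : 4 * n * (256 * n ^ 5) ^ n * 4 ^ d ≤ 2 ^ (R ^ 2 / 2)) :
    (256 * (n : ℝ) ^ 5) ^ k * (1 / (R : ℝ) ^ k +
      2 * k * 4 ^ d * Real.exp (-((R : ℝ) ^ 2 / 2))) ≤ 1 := by
  have hn1 : 1 ≤ n := hk.trans hkn
  have hnr : (1 : ℝ) ≤ n := by exact_mod_cast hn1
  have hR1 : 1 ≤ R := by
    rw [hR]
    exact Nat.one_le_two_pow
  have hRr : (1 : ℝ) ≤ R := by exact_mod_cast hR1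
  have hR0 : (0 : ℝ) < R := by linarith
  have hA1 : (1 : ℝ) ≤ 256 * (n : ℝ) ^ 5 := by
    have : (1 : ℝ) ≤ (n : ℝ) ^ 5 := one_le_pow₀ hnr
    linarith
  have hfirst : (256 * (n : ℝ) ^ 5) ^ k * (1 / (R : ℝ) ^ k) ≤ 1 / 2 := by
    have h3 : (512 * (n : ℝ) ^ 5) ≤ R := by exact_mod_cast h1
    have h4 : 256 * (n : ℝ) ^ 5 / R ≤ 1 / 2 := by
      rw [div_le_iff₀ hR0]
      linarith
    have h5 : 0 ≤ 256 * (n : ℝ) ^ 5 / R := by positivity
    have h6 : (256 * (n : ℝ) ^ 5) ^ k * (1 / (R : ℝ) ^ k) = (256 * (n : ℝ) ^ 5 / R) ^ k := by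
      rw [div_pow, mul_one_div]
    rw [h6]
    calc (256 * (n : ℝ) ^ 5 / R) ^ k ≤ (256 * (n : ℝ) ^ 5 / R) ^ 1 :=
          pow_le_pow_of_le_one h5 (h4.trans (by norm_num)) hk
      _ ≤ 1 / 2 := by rw [pow_one]; exact h4
  have hexp : (2 : ℝ) ^ (R ^ 2 / 2) ≤ Real.exp ((R : ℝ) ^ 2 / 2) := by
    have h3 : (2 : ℝ) ≤ Real.exp 1 := by
      have := Real.add_one_le_exp (1 : ℝ)
      linarith
    calc (2 : ℝ) ^ (R ^ 2 / 2) ≤ (Real.exp 1) ^ (R ^ 2 / 2) :=
          pow_le_pow_left₀ (by norm_num) h3 _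
      _ = Real.exp ((R ^ 2 / 2 : ℕ) : ℝ) := by
          rw [← Real.exp_nat_mul, mul_one]
      _ ≤ Real.exp ((R : ℝ) ^ 2 / 2) := by
          rw [Real.exp_le_exp]
          have := Nat.cast_div_le (α := ℝ) (m := R ^ 2) (n := 2)
          push_cast at this
          exact this
  have hsecond : (256 * (n : ℝ) ^ 5) ^ k * (2 * k * 4 ^ d * Real.exp (-((R : ℝ) ^ 2 / 2))) ≤
      1 / 2 := by
    have h3 : (4 * (n : ℝ) * (256 * (n : ℝ) ^ 5) ^ n * 4 ^ d) ≤ (2 : ℝ) ^ (R ^ 2 / 2) := by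
      exact_mod_cast h2
    have h4 := h3.trans hexp
    have h5 : (256 * (n : ℝ) ^ 5) ^ k ≤ (256 * (n : ℝ) ^ 5) ^ n := pow_le_pow_right₀ hA1 hkn
    have h6 : (k : ℝ) ≤ n := by exact_mod_cast hkn
    have h7 : (256 * (n : ℝ) ^ 5) ^ k * (2 * k * 4 ^ d) ≤
        (256 * (n : ℝ) ^ 5) ^ n * (2 * n * 4 ^ d) := by
      apply mul_le_mul h5 _ (by positivity) (by positivity)
      apply mul_le_mul_of_nonneg_right _ (by positivity)
      linarith
    have h8 : (256 * (n : ℝ) ^ 5) ^ k * (2 * k * 4 ^ d) ≤ Real.exp ((R : ℝ) ^ 2 / 2) / 2 := by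
      refine h7.trans ?_
      have : (256 * (n : ℝ) ^ 5) ^ n * (2 * n * 4 ^ d) =
          (4 * (n : ℝ) * (256 * (n : ℝ) ^ 5) ^ n * 4 ^ d) / 2 := by ring
      rw [this]
      linarith
    calc (256 * (n : ℝ) ^ 5) ^ k * (2 * k * 4 ^ d * Real.exp (-((R : ℝ) ^ 2 / 2)))
        = (256 * (n : ℝ) ^ 5) ^ k * (2 * k * 4 ^ d) * Real.exp (-((R : ℝ) ^ 2 / 2)) := by ring
      _ ≤ Real.exp ((R : ℝ) ^ 2 / 2) / 2 * Real.exp (-((R : ℝ) ^ 2 / 2)) :=
          mul_le_mul_of_nonneg_right h8 (Real.exp_nonneg _)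
      _ = 1 / 2 := by
          rw [Real.exp_neg]
          have := Real.exp_ne_zero ((R : ℝ) ^ 2 / 2)
          field_simp
  calc _ = (256 * (n : ℝ) ^ 5) ^ k * (1 / (R : ℝ) ^ k) +
        (256 * (n : ℝ) ^ 5) ^ k * (2 * k * 4 ^ d * Real.exp (-((R : ℝ) ^ 2 / 2))) := by ring
    _ ≤ 1 := by linarith

end MSM

open MSM in
open Classical in
theorem t_SM (hCLC : S_CLC) (hHOF : S_HOF) (hMOM : S_MOM) : S_SM := by
  intro I _ _ t a' d Λ p₀ W T hΛ hn hN hBig hT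
  obtain ⟨hcls, hB, -, -⟩ := hCLC I t Λ p₀
  have hk1 : 1 ≤ T.card := hT.card_pos
  have hkn : T.card ≤ Fintype.card I := Finset.card_le_univ T
  obtain ⟨R, hR⟩ : ∃ R : ℕ, R = 2 ^ a' := ⟨_, rfl⟩
  obtain ⟨n, hn'⟩ : ∃ n : ℕ, n = Fintype.card I := ⟨_, rfl⟩
  obtain ⟨k, hk'⟩ : ∃ k : ℕ, k = T.card := ⟨_, rfl⟩
  rw [← hR, ← hn'] at hn hN
  rw [← hk'] at hk1 hkn
  rw [← hn'] at hkn
  have hR1 : 1 ≤ R := by
    rw [hR]
    exact Nat.one_le_two_pow
  have hBc : ∀ i, (blc Λ p₀ i).card = R ^ 4 := by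
    intro i
    rw [hB i, hΛ i, hR, ← pow_mul, mul_comm]
  have hC : (cls Λ p₀).card = (R ^ 4) ^ n := by
    rw [hcls, Fintype.card_piFinset, Finset.prod_congr rfl (fun i _ => hBc i), Finset.prod_const,
      Finset.card_univ, hn']
  have hnum := numbers hR hk1 hkn hn hN
  have hsum := sum_bias hHOF hMOM hR1 W (blc Λ p₀) hBc T
  rw [← hcls, ← hn', ← hk'] at hsum
  -- real numbers
  have hRr : (1 : ℝ) ≤ R := by exact_mod_cast hR1
  have hR0 : (0 : ℝ) < R := by linarith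
  have hArr : (0 : ℝ) < Fintype.card (Arr I t) := by
    exact_mod_cast (Fintype.card_pos : 0 < Fintype.card (Arr I t))
  have hbig : (Fintype.card (Arr I t) : ℝ) ≤ (W.card : ℝ) * 2 ^ d := by
    unfold Big at hBig
    exact_mod_cast hBig
  have hw : (0 : ℝ) < W.card := by
    by_contra h
    rw [not_lt] at h
    have : (W.card : ℝ) * 2 ^ d ≤ 0 := mul_nonpos_of_nonpos_of_nonneg h (by positivity)
    linarith
  set D : ℕ := ((cls Λ p₀).filter fun p => Dang W p T).card with hD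
  set e : ℝ := Real.exp (-((R : ℝ) ^ 2 / 2)) with he
  have he0 : 0 < e := Real.exp_pos _
  -- Markov
  have hM : (D : ℝ) * (W.card : ℝ) ^ 2 ≤
      (8 * (n : ℝ)) ^ (2 * k) * ∑ p ∈ cls Λ p₀, bias W p T ^ 2 := by
    have h1 : (D : ℝ) * (W.card : ℝ) ^ 2 =
        ∑ p ∈ (cls Λ p₀).filter fun p => Dang W p T, (W.card : ℝ) ^ 2 := by
      rw [Finset.sum_const, nsmul_eq_mul]
    rw [h1, Finset.mul_sum]
    calc ∑ p ∈ (cls Λ p₀).filter fun p => Dang W p T, (W.card : ℝ) ^ 2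
        ≤ ∑ p ∈ (cls Λ p₀).filter fun p => Dang W p T,
            (8 * (n : ℝ)) ^ (2 * k) * bias W p T ^ 2 := by
          refine Finset.sum_le_sum fun p hp => ?_
          have hd : (W.card : ℝ) < |bias W p T| * (8 * (Fintype.card I : ℝ)) ^ T.card :=
            (Finset.mem_filter.1 hp).2
          rw [← hn', ← hk'] at hd
          have h2 : (W.card : ℝ) ^ 2 ≤ (|bias W p T| * (8 * (n : ℝ)) ^ k) ^ 2 :=
            pow_le_pow_left₀ hw.le hd.le 2
          rw [mul_pow, sq_abs, ← pow_mul, mul_comm k 2] at h2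
          linarith
      _ ≤ ∑ p ∈ cls Λ p₀, (8 * (n : ℝ)) ^ (2 * k) * bias W p T ^ 2 := by
          refine Finset.sum_le_sum_of_subset_of_nonneg (Finset.filter_subset _ _) fun p _ _ => ?_
          positivity
  -- the second moment
  have hN2 : (Fintype.card (Arr I t) : ℝ) ^ 2 ≤ (W.card : ℝ) ^ 2 * 4 ^ d := by
    have h1 : (Fintype.card (Arr I t) : ℝ) ^ 2 ≤ ((W.card : ℝ) * 2 ^ d) ^ 2 :=
      pow_le_pow_left₀ hArr.le hbig 2
    have h2 : ((W.card : ℝ) * 2 ^ d) ^ 2 = (W.card : ℝ) ^ 2 * 4 ^ d := by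
      rw [mul_pow, ← pow_mul, mul_comm d 2, pow_mul]
      norm_num
    rw [h2] at h1
    exact h1
  have hpow : ((R : ℝ) ^ 3) ^ k * ((R : ℝ) ^ 4) ^ (n - k) =
      ((R : ℝ) ^ 4) ^ n * (1 / (R : ℝ) ^ k) := by
    have h1 : ((R : ℝ) ^ 4) ^ n = ((R : ℝ) ^ 4) ^ k * ((R : ℝ) ^ 4) ^ (n - k) := by
      rw [← pow_add, Nat.add_sub_cancel' hkn]
    have h2 : ((R : ℝ) ^ 4) ^ k = ((R : ℝ) ^ 3) ^ k * (R : ℝ) ^ k := by
      rw [← mul_pow]
      ring
    rw [h1, h2]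
    have : (R : ℝ) ^ k ≠ 0 := by positivity
    field_simp
  have hS : ∑ p ∈ cls Λ p₀, bias W p T ^ 2 ≤
      (W.card : ℝ) ^ 2 * (((R : ℝ) ^ 4) ^ n * (1 / (R : ℝ) ^ k + 2 * k * 4 ^ d * e)) := by
    refine hsum.trans ?_
    rw [hpow]
    have h1 : ((k : ℝ) * (2 * e * (Fintype.card (Arr I t) : ℝ) ^ 2)) * ((R : ℝ) ^ 4) ^ n ≤
        ((k : ℝ) * (2 * e * ((W.card : ℝ) ^ 2 * 4 ^ d))) * ((R : ℝ) ^ 4) ^ n := by
      gcongr
    refine (add_le_add_right h1 _).trans (le_of_eq ?_)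
    ring
  have hDr : (D : ℝ) ≤ (8 * (n : ℝ)) ^ (2 * k) *
      (((R : ℝ) ^ 4) ^ n * (1 / (R : ℝ) ^ k + 2 * k * 4 ^ d * e)) := by
    have h1 : (D : ℝ) * (W.card : ℝ) ^ 2 ≤ ((8 * (n : ℝ)) ^ (2 * k) *
        (((R : ℝ) ^ 4) ^ n * (1 / (R : ℝ) ^ k + 2 * k * 4 ^ d * e))) * (W.card : ℝ) ^ 2 := by
      refine hM.trans ?_
      have := mul_le_mul_of_nonneg_left hS (by positivity : (0 : ℝ) ≤ (8 * (n : ℝ)) ^ (2 * k))
      refine this.trans (le_of_eq ?_)
      ring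
    exact le_of_mul_le_mul_right h1 (by positivity)
  have hfin : (D : ℝ) * (4 * (n : ℝ) ^ 3) ^ k ≤ ((R : ℝ) ^ 4) ^ n := by
    have h1 : (D : ℝ) * (4 * (n : ℝ) ^ 3) ^ k ≤ ((8 * (n : ℝ)) ^ (2 * k) *
        (((R : ℝ) ^ 4) ^ n * (1 / (R : ℝ) ^ k + 2 * k * 4 ^ d * e))) * (4 * (n : ℝ) ^ 3) ^ k :=
      mul_le_mul_of_nonneg_right hDr (by positivity)
    have h2 : (8 * (n : ℝ)) ^ (2 * k) * (4 * (n : ℝ) ^ 3) ^ k = (256 * (n : ℝ) ^ 5) ^ k := by
      rw [pow_mul, ← mul_pow]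
      ring
    have h3 : ((8 * (n : ℝ)) ^ (2 * k) *
        (((R : ℝ) ^ 4) ^ n * (1 / (R : ℝ) ^ k + 2 * k * 4 ^ d * e))) * (4 * (n : ℝ) ^ 3) ^ k =
        ((R : ℝ) ^ 4) ^ n * ((256 * (n : ℝ) ^ 5) ^ k *
          (1 / (R : ℝ) ^ k + 2 * k * 4 ^ d * e)) := by
      rw [← h2]
      ring
    rw [h3] at h1
    refine h1.trans ?_
    have h4 := mul_le_mul_of_nonneg_left hnum (by positivity : (0 : ℝ) ≤ ((R : ℝ) ^ 4) ^ n)
    rw [mul_one] at h4
    exact h4
  rw [hC, ← hn', ← hk']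
  exact_mod_cast hfin

end Pool.Agent.DGO
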