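import Pool.Agent.DGO.St1

/-!
# SWP: two independent copies
-/

set_option autoImplicit false

namespace Pool.Agent.DGO

open Finset Pool.Agent.OB

namespace MSWP

variable {I : Type} [Fintype I] [DecidableEq I] {t : ℕ}

/-- exchange the values on `T` -/
def sw (T : Finset I) (v : Ptr I t × Ptr I t) : Ptr I t × Ptr I t :=
  (fun i => if i ∈ T then v.2 i else v.1 i, fun i => if i ∈ T then v.1 i else v.2 i)

omit [Fintype I] in
lemma sw_sw (T : Finset I) (v : Ptr I t × Ptr I t) : sw T (sw T v) = v := by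
  apply Prod.ext
  · funext i
    simp only [sw]
    by_cases h : i ∈ T
    · simp only [if_pos h]
    · simp only [if_neg h]
  · funext i
    simp only [sw]
    by_cases h : i ∈ T
    · simp only [if_pos h]
    · simp only [if_neg h]

lemma mem_cls {Λ : I → Finset (Fin t)} {p₀ p : Ptr I t} :
    p ∈ cls Λ p₀ ↔ ∀ i, ∀ l ∉ Λ i, p i l = p₀ i l := by
  simp only [cls, Finset.mem_filter, Finset.mem_univ, true_and]

lemma sw_mem {Λ : I → Finset (Fin t)} {p₀ : Ptr I t} (T : Finset I) {v : Ptr I t × Ptr I t}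
    (h1 : v.1 ∈ cls Λ p₀) (h2 : v.2 ∈ cls Λ p₀) :
    (sw T v).1 ∈ cls Λ p₀ ∧ (sw T v).2 ∈ cls Λ p₀ := by
  rw [mem_cls] at h1 h2 ⊢
  rw [mem_cls]
  refine ⟨fun i l hl => ?_, fun i l hl => ?_⟩
  · simp only [sw]
    by_cases h : i ∈ T
    · simp only [if_pos h]
      exact h2 i l hl
    · simp only [if_neg h]
      exact h1 i l hl
  · simp only [sw]
    by_cases h : i ∈ T
    · simp only [if_pos h]
      exact h1 i l hl
    · simp only [if_neg h]
      exact h2 i l hl

end MSWP

open MSWP in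
theorem t_SWP : S_SWP := by
  intro I _ _ t Λ p₀ T A B hA hB
  rw [← Finset.card_product]
  have key : ∀ v : Ptr I t × Ptr I t, (A v.1 ∧ B v.1 v.1 ↔ A (sw T v).1 ∧ B (sw T v).1 (sw T v).2) := by
    intro v
    have e1 : ∀ i ∉ T, v.1 i = (sw T v).1 i := fun i hi => by simp only [sw, if_neg hi]
    have e2 : ∀ i ∈ T, v.1 i = (sw T v).2 i := fun i hi => by simp only [sw, if_pos hi]
    rw [hA v.1 (sw T v).1 e1, hB v.1 v.1 (sw T v).1 (sw T v).2 e1 e2]
  apply Finset.card_nbij' (sw T) (sw T)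
  · intro v hv
    have hv' := Finset.mem_coe.1 hv
    simp only [Finset.mem_product, Finset.mem_filter] at hv'
    apply Finset.mem_coe.2
    simp only [Finset.mem_product, Finset.mem_filter]
    exact ⟨sw_mem T hv'.1.1 hv'.2, (key v).1 hv'.1.2⟩
  · intro v hv
    have hv' := Finset.mem_coe.1 hv
    simp only [Finset.mem_product, Finset.mem_filter] at hv'
    apply Finset.mem_coe.2
    simp only [Finset.mem_product, Finset.mem_filter]
    have h1 := sw_mem T hv'.1.1 hv'.1.2
    refine ⟨⟨h1.1, (key (sw T v)).2 ?_⟩, h1.2⟩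
    rw [sw_sw]
    exact hv'.2
  · intro v _
    exact sw_sw T v
  · intro v _
    exact sw_sw T v

end Pool.Agent.DGO
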