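import Pool.Agent.DGO.St1

/-!
# Project DGO, module WLK: there is no state
-/

set_option autoImplicit false

namespace Pool.Agent.DGO

open Finset Pool.Agent.OB

namespace MWLK

variable {I : Type} [Fintype I] [DecidableEq I] {t : ℕ}

omit [Fintype I] in
/-- the strategy can be extended -/
lemma hex {w : ℕ} {G : CNF I} {H : Finset I → (I → Bool) → Prop} (hS : Strat G w H)
    (Q T : Finset I) (z : I → Bool) (hH : H Q z) (hc : (Q ∪ T).card ≤ w) :
    ∃ z', H (Q ∪ T) z' ∧ ∀ i ∈ Q, z' i = z i := by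
  induction T using Finset.induction_on with
  | empty =>
    refine ⟨z, ?_, fun _ _ => rfl⟩
    rw [union_empty]
    exact hH
  | insert a T ha ih =>
    rw [union_insert] at hc ⊢
    by_cases h : a ∈ Q ∪ T
    · rw [insert_eq_of_mem h] at hc ⊢
      exact ih hc
    · rw [card_insert_of_notMem h] at hc
      obtain ⟨z', h1, h2⟩ := ih (by omega)
      obtain ⟨b, hb⟩ := hS.ext (Q ∪ T) z' a h1 (by omega) h
      refine ⟨Function.update z' a b, hb, fun i hi => ?_⟩
      have hne : i ≠ a := by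
        rintro rfl
        exact h (mem_union_left _ hi)
      rw [Function.update_of_ne hne]
      exact h2 i hi

/-- a big set is not empty -/
lemma big_ne {d : ℕ} {W : Finset (Arr I t)} (h : Big d W) : W.Nonempty := by
  rw [nonempty_iff_ne_empty]
  rintro rfl
  unfold Big at h
  rw [card_empty, zero_mul] at h
  have : 0 < Fintype.card (Arr I t) := Fintype.card_pos
  omega

/-- a member of the line with given values -/
lemma ex_mem (hFR : S_FR) {d : ℕ} {H : Finset I → (I → Bool) → Prop} {W : Finset (Arr I t)}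
    {p : Ptr I t} {Q : Finset I} {z : I → Bool} (hst : State d H W p Q z) (κ : I → Bool)
    (hκ : ∀ i ∈ Q, κ i = z i) : ∃ V ∈ W, ∀ i, V i (p i) = κ i := by
  obtain ⟨_, hB, hD, _⟩ := hst
  obtain ⟨V, hV, h1⟩ := hFR I t (sub W p Q z) p Q (big_ne hB) hD κ
  unfold sub at hV
  rw [mem_filter] at hV
  refine ⟨V, hV.1, fun i => ?_⟩
  by_cases hi : i ∈ Q
  · rw [hV.2 i hi, hκ i hi]
  · exact h1 i hi

end MWLK

open MWLK in
/-- WLK: there is no state. -/
theorem t_WLK (hCHD : S_CHD) (hFR : S_FR) (hBAD : S_BAD) (hEXT : S_EXT) : S_WLK := by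
  intro I _ _ t d r w L G H F p hS hrw hG hgood hline v
  obtain ⟨-, hmono, hbig⟩ := hBAD I t d F
  induction v using Nat.strong_induction_on with
  | _ v ih =>
    intro hv Q z hst
    obtain ⟨hC, hB, hD, hH⟩ := id hst
    have hQ : Q.card ≤ r := hgood v hv Q z hC
    rcases hline v hv with ⟨u₁, hu₁, u₂, hu₂, hF⟩ | ⟨C, hCG, hF⟩
    · -- an inference
      obtain ⟨Q₁, z₁, a1, a2, a3, a4, a5⟩ := hEXT I t d r w G H (Wc d F u₁ p) p hS
        (hgood u₁ (by omega)) Q z hH (by omega)
      have hc : (Q ∪ Q₁).card ≤ Q.card + Q₁.card := card_union_le _ _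
      obtain ⟨Q₂, z₂, b1, b2, b3, b4, b5⟩ := hEXT I t d r w G H (Wc d F u₂ p) p hS
        (hgood u₂ (by omega)) (Q ∪ Q₁) z₁ a1 (by omega)
      obtain ⟨V, hV, hVz⟩ := ex_mem hFR hst z₂ fun i hi => by
        rw [b2 i (mem_union_left _ hi), a2 i hi]
      unfold Wc at hV
      rw [mem_sdiff] at hV
      -- a state at an earlier line
      have key : ∀ u < v, V ∈ F u p → ∀ Q' : Finset I, Q' ⊆ Q ∪ Q₁ ∪ Q₂ →
          Chain d (Wc d F u p) p Q' z₂ →
          (Big d (sub (Wc d F u p) p Q' z₂) →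
            ∀ T : Finset I, T.Nonempty → Disjoint T Q' →
              ¬ Dang (sub (Wc d F u p) p Q' z₂) p T) → False := by
        intro u hu hVu Q' hQ' hch hnd
        have h1 : V ∈ Wc d F u p := by
          unfold Wc
          rw [mem_sdiff]
          exact ⟨hVu, fun h => hV.2 (hmono u v hu.le h)⟩
        have h2 : V ∈ sub (Wc d F u p) p Q' z₂ := by
          unfold sub
          rw [mem_filter]
          exact ⟨h1, fun i _ => hVz i⟩
        have h3 := hbig u v p Q' z₂ V hu h2 hV.2
        exact ih u hu (by omega) Q' z₂ ⟨hch, h3, hnd h3, hS.mono _ _ _ b1 hQ'⟩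
      have hz : ∀ i ∈ Q₁, z₁ i = z₂ i := fun i hi => (b2 i (mem_union_right _ hi)).symm
      rcases mem_union.1 (hF hV.1) with h | h
      · obtain ⟨c1, -, c3⟩ := hCHD I t d (Wc d F u₁ p) p p
        have e1 : sub (Wc d F u₁ p) p Q₁ z₁ = sub (Wc d F u₁ p) p Q₁ z₂ :=
          c1 Q₁ z₁ z₂ fun i hi => ⟨rfl, hz i hi⟩
        refine key u₁ hu₁ h Q₁ ?_ (c3 Q₁ z₁ z₂ (fun i hi => ⟨rfl, hz i hi⟩) a4) ?_
        · exact (subset_union_right (s₁ := Q)).trans subset_union_left
        · rw [← e1]
          exact a5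
      · exact key u₂ hu₂ h Q₂ subset_union_right b4 b5
    · -- an axiom
      have hcard : (Q ∪ C.image Prod.fst).card ≤ w := by
        have h1 : (Q ∪ C.image Prod.fst).card ≤ Q.card + (C.image Prod.fst).card :=
          card_union_le _ _
        have h2 : (C.image Prod.fst).card ≤ C.card := card_image_le
        have h3 := hG C hCG
        omega
      obtain ⟨z', h1, h2⟩ := hex hS Q (C.image Prod.fst) z hH hcard
      have h3 : Sat z' C := hS.good _ z' C h1 hCG fun l hl =>
        mem_union_right _ (mem_image_of_mem _ hl)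
      obtain ⟨V, hV, hVz⟩ := ex_mem hFR hst z' h2
      unfold Wc at hV
      rw [mem_sdiff] at hV
      apply hF V hV.1
      have h4 : (fun i => V i (p i)) = z' := funext hVz
      rw [h4]
      exact h3

end Pool.Agent.DGO
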