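import Pool.Agent.DGO.CDefs

/-!
# Project DGO: statements, part 1 (counting, chains, the walk)

`n = Fintype.card I` is the number of the blocks. Fix the set `W` of arrays, `d` with `Big d W`, and a
class `cls Λ p₀` of pointer assignments with `4 a'` free pointer bits in each block; `R = 2 ^ a'`, so
the class restricted to one block has `R ^ 4` elements. For a random `p` of the class a fixed set `T` of
base variables is dangerous with probability at most `(4 n ^ 3) ^ (-|T|)` (module SM).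
-/

set_option autoImplicit false

namespace Pool.Agent.DGO

open Finset Pool.Agent.OB

/-- The class `cls Λ p₀` in the block `i`. -/
def blc {I : Type} {t : ℕ} (Λ : I → Finset (Fin t)) (p₀ : Ptr I t) (i : I) :
    Finset (Fin t → Bool) := univ.filter fun q => ∀ l ∉ Λ i, q l = p₀ i l

/-- CLC: classes are products.
Proof. `p ∈ cls Λ p₀ ↔ ∀ i, p i ∈ blc Λ p₀ i` is `Fintype.mem_piFinset`. For the cardinality of
`blc Λ p₀ i`: bijection with the functions `Λ i → Bool` (restriction; inverse: extend by `p₀ i`), or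
`blc Λ p₀ i = Fintype.piFinset fun l => if l ∈ Λ i then univ else {p₀ i l}` and
`Fintype.card_piFinset`, `Finset.prod_ite`/`Finset.prod_pow_boole`-like computation. Last claim:
`Fintype.card_piFinset` and the first two. -/
def S_CLC : Prop := ∀ (I : Type) [Fintype I] [DecidableEq I] (t : ℕ) (Λ : I → Finset (Fin t))
  (p₀ : Ptr I t), cls Λ p₀ = Fintype.piFinset (blc Λ p₀) ∧
    (∀ i, (blc Λ p₀ i).card = 2 ^ (Λ i).card) ∧ p₀ ∈ cls Λ p₀ ∧
    (∀ p ∈ cls Λ p₀, cls Λ p = cls Λ p₀)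

open Classical in
/-- HOF: Hoeffding for pairs of arrays.
Proof. Let `c = 1 / R`, `X (V, V') = ∑ q ∈ C, sg (V i q) * sg (V' i q)`. For fixed `V'` the sum over
`V` of `exp (c X)` is `|Arr| * cosh(c) ^ |C|`: it is the sum over `V : I × (Fin t → Bool) → Bool`
(curry) of the product over all `x = (j, q)` of `g x (V x)` with
`g (j, q) b = if j = i ∧ q ∈ C then exp (c * sg b * sg (V' i q)) else 1`, and
`∑ f, ∏ x, g x (f x) = ∏ x, ∑ b, g x b` (`Finset.prod_univ_sum`, `Fintype.piFinset_univ`);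
`∑ b, g x b` is `2` or `exp c + exp (-c) = 2 cosh c` (`Real.cosh_eq`). By
`Real.cosh_le_exp_half_sq` this is `≤ |Arr| * exp (c ^ 2 / 2 * R ^ 4) = |Arr| * exp (R ^ 2 / 2)`. So
`∑ over pairs exp (c X) ≤ |Arr| ^ 2 exp (R ^ 2 / 2)`; pairs with `X > R ^ 3` have
`exp (c X) ≥ exp (R ^ 2)`, so there are at most `exp (- R ^ 2 / 2) |Arr| ^ 2` of them. The same for `-X`
(use `exp (-c X)`; same computation). -/
def S_HOF : Prop := ∀ (I : Type) [Fintype I] [DecidableEq I] (t R : ℕ) (i : I)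
  (C : Finset (Fin t → Bool)), 1 ≤ R → C.card = R ^ 4 →
  (((univ : Finset (Arr I t × Arr I t)).filter fun v =>
    (R : ℝ) ^ 3 < |∑ q ∈ C, sg (v.1 i q) * sg (v.2 i q)|).card : ℝ) ≤
      2 * Real.exp (-((R : ℝ) ^ 2 / 2)) * (Fintype.card (Arr I t) : ℝ) ^ 2

/-- MOM: the second moment.
Proof. `bias ^ 2 = ∑ V ∈ W, ∑ V' ∈ W, ∏ i ∈ T, sg (V i (p i)) * sg (V' i (p i))`
(`Finset.sum_mul_sum`, `Finset.prod_mul_distrib`); exchange the sums; for fixed `V, V'` the sum over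
`p ∈ Fintype.piFinset B` of `∏ i, g i (p i)` (with `g i q = if i ∈ T then sg (V i q) * sg (V' i q) else
1`) is `∏ i, ∑ q ∈ B i, g i q` (`Finset.prod_univ_sum`). -/
def S_MOM : Prop := ∀ (I : Type) [Fintype I] [DecidableEq I] (t : ℕ) (W : Finset (Arr I t))
  (B : I → Finset (Fin t → Bool)) (T : Finset I),
  ∑ p ∈ Fintype.piFinset B, bias W p T ^ 2 =
    ∑ V ∈ W, ∑ V' ∈ W, ∏ i, if i ∈ T then ∑ q ∈ B i, sg (V i q) * sg (V' i q)
      else ((B i).card : ℝ)

open Classical in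
/-- SM (uses `S_CLC`, `S_HOF`, `S_MOM`): a fixed set is rarely dangerous.
Proof. `k = |T|`, `R = 2 ^ a'`, `M = R ^ 4` (the size of each `blc Λ p₀ i`), `C = |cls Λ p₀| = M ^ n`.
By MOM the sum of `bias ^ 2` over the class is the sum over the pairs `(V, V')` in `W × W` of a
product with absolute value at most `C` (each factor at most `M`), and at most `C * R ^ (-k)` if all
factors `i ∈ T` are at most `R ^ 3 = M / R`. By HOF (`B i = blc Λ p₀ i`) at most
`k * 2 * exp (-R²/2) * |Arr|²` pairs do not have this property, and `|Arr| ≤ 2 ^ d |W|`. So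
`∑ p, bias² ≤ (R ^ (-k) + 2 k 4 ^ d exp (-R²/2)) |W|² C`. If `T` is dangerous then
`bias² * (8 n) ^ (2 k) > |W|²`; so (`|W| > 0` as `W` is big) the number `D` of the `p` with this property
satisfies `D ≤ (8 n) ^ (2 k) (R ^ (-k) + 2 k 4 ^ d exp (-R²/2)) C`. Multiply with `(4 n ^ 3) ^ k`:
`(64 n² * 4 n³ / R) ^ k = (256 n ^ 5 / R) ^ k ≤ 1/2` as `512 n ^ 5 ≤ R`, `k ≥ 1`; and
`(256 n ^ 5) ^ k * 2 k * 4 ^ d * exp (-R²/2) ≤ (256 n ^ 5) ^ n * 2 n * 4 ^ d * exp (-R²/2) ≤ 1/2`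
as `4 n (256 n ^ 5) ^ n 4 ^ d ≤ 2 ^ (R² / 2) ≤ exp (R² / 2)` (`2 ≤ exp 1`, `R²` is even). -/
def S_SM : Prop := ∀ (I : Type) [Fintype I] [DecidableEq I] (t a' d : ℕ) (Λ : I → Finset (Fin t))
  (p₀ : Ptr I t) (W : Finset (Arr I t)) (T : Finset I), (∀ i, (Λ i).card = 4 * a') →
  512 * Fintype.card I ^ 5 ≤ 2 ^ a' →
  4 * Fintype.card I * (256 * Fintype.card I ^ 5) ^ Fintype.card I * 4 ^ d ≤
    2 ^ ((2 ^ a') ^ 2 / 2) →
  Big d W → T.Nonempty →
  ((cls Λ p₀).filter fun p => Dang W p T).card * (4 * Fintype.card I ^ 3) ^ T.card ≤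
    (cls Λ p₀).card

/-- CHD: a chain depends only on `p` and `z` on `Q`.
Proof. First: `sub W p Q z`, `bias W p T` and `Dang W p T` depend only on `p`, `z` on `Q`, resp. on `p`
on `T` (`Finset.filter_congr`, `Finset.prod_congr`). The third claim is by induction on the chain
(the statement for all `p'`, `z'`); in the step use it for `Q ⊆ Q ∪ T`. -/
def S_CHD : Prop := ∀ (I : Type) [Fintype I] [DecidableEq I] (t d : ℕ) (W : Finset (Arr I t))
  (p p' : Ptr I t),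
  (∀ (Q : Finset I) (z z' : I → Bool), (∀ i ∈ Q, p i = p' i ∧ z i = z' i) →
    sub W p Q z = sub W p' Q z') ∧
  (∀ T : Finset I, (∀ i ∈ T, p i = p' i) → (Dang W p T ↔ Dang W p' T)) ∧
  ∀ (Q : Finset I) (z z' : I → Bool), (∀ i ∈ Q, p i = p' i ∧ z i = z' i) → Chain d W p Q z →
    Chain d W p' Q z'

open Classical in
/-- SWP: two independent copies.
Proof. `s (p, p') = (T.piecewise p' p, T.piecewise p p')` is an involution of
`cls Λ p₀ ×ˢ cls Λ p₀` (membership is blockwise). If `s (p, p') = (u, u')` then `p = u` outside of `T`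
and `p = u'` on `T`, so `A p ↔ A u` and `B p p ↔ B u u'`. So `s` maps the pairs with `A p ∧ B p p`
(there are (left hand side) of them) bijectively to the pairs with `A u ∧ B u u'`. -/
def S_SWP : Prop := ∀ (I : Type) [Fintype I] [DecidableEq I] (t : ℕ) (Λ : I → Finset (Fin t))
  (p₀ : Ptr I t) (T : Finset I) (A : Ptr I t → Prop) (B : Ptr I t → Ptr I t → Prop),
  (∀ p p', (∀ i ∉ T, p i = p' i) → (A p ↔ A p')) →
  (∀ p p' u u', (∀ i ∉ T, p i = u i) → (∀ i ∈ T, p' i = u' i) → (B p p' ↔ B u u')) →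
  ((cls Λ p₀).filter fun p => A p ∧ B p p).card * (cls Λ p₀).card =
    ((cls Λ p₀ ×ˢ cls Λ p₀).filter fun v => A v.1 ∧ B v.1 v.2).card

open Classical in
/-- CHP (uses `S_CHD`, `S_SWP`): a fixed chain is rare.
Proof. Induction on `|Q|` (strong). `Q = ∅`: clear. Let `Q ≠ ∅`, `k = |Q| ≤ n`. By the definition of
`Chain` the set of the `p` with a chain `Q` is covered by the sets (for `∅ ≠ T ⊆ Q`, `Q' = Q \ T`)
`D T = {p | (Chain d W p Q' z ∧ Big d (sub W p Q' z)) ∧ Dang (sub W p Q' z) p T}`. SWP with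
`A p` = the first bracket and `B p p' = Dang (sub W p Q' z) p' T` (the hypotheses of SWP by CHD):
`|D T| * |cls| = ∑ over the p with A p of #{p' ∈ cls | Dang (sub W p Q' z) p' T}`; by the hypothesis
`h` each term times `(4 n³) ^ |T|` is at most `|cls|`. So `|D T| * (4 n³) ^ |T| ≤ #{p | A p}`
(`|cls| > 0`), and by induction `#{p | A p} * (2 n²) ^ (k - |T|) ≤ |cls|`; so
`|D T| * (2 n²) ^ k * (2 n) ^ |T| ≤ |cls|` (`4 n³ = 2 n² * 2 n`). In `ℝ`: `(2 n²) ^ k` times the number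
of the `p` with a chain `Q` is at most `|cls| * ∑ T ∈ Q.powerset \ {∅}, (1 / (2 n)) ^ |T|
= |cls| * ((1 + 1 / (2 n)) ^ k - 1) ≤ |cls|`, as
`(1 + 1 / (2 n)) ^ k ≤ exp (k / (2 n)) ≤ exp (1/2) ≤ 2` (`Finset.sum_pow_mul_eq_add_pow`
or `Finset.prod_one_add`, `Real.add_one_le_exp`). If `n = 0` then `Q = ∅`. -/
def S_CHP : Prop := ∀ (I : Type) [Fintype I] [DecidableEq I] (t d : ℕ) (Λ : I → Finset (Fin t))
  (p₀ : Ptr I t) (W : Finset (Arr I t)),
  (∀ (W' : Finset (Arr I t)) (T : Finset I), Big d W' → T.Nonempty →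
    ((cls Λ p₀).filter fun p => Dang W' p T).card * (4 * Fintype.card I ^ 3) ^ T.card ≤
      (cls Λ p₀).card) →
  ∀ (Q : Finset I) (z : I → Bool),
    ((cls Λ p₀).filter fun p => Chain d W p Q z).card * (2 * Fintype.card I ^ 2) ^ Q.card ≤
      (cls Λ p₀).card

open Classical in
/-- GOO (uses `S_CHD`): few pointer assignments are not good.
Proof. If `p` is not good there are `Q`, `z` with a chain and `|Q| ≥ r + 1`; by CHD `z` may be taken
`false` outside of `Q`, so there are `2 ^ |Q|` possibilities for `z` (`z` = indicator of a subset of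
`Q`). For each `Q`, by `h`: the number of the `p` with a chain `Q, z` for some `z` is at most
`2 ^ |Q| |cls| / (2 n²) ^ |Q| ≤ |cls| n ^ (-2 |Q|) ≤ |cls| n ^ (-r - 1) n ^ (-|Q|)`
(for `|Q| ≥ r + 1`; note `2 ^ k / (2 n²) ^ k = n ^ (-2 k)`).
Sum over all `Q`: `≤ |cls| n ^ (-r) * (1/n) (1 + 1/n) ^ n ≤ |cls| n ^ (-r)`, as
`(1 + 1/n) ^ n ≤ exp 1 ≤ 3 ≤ n`. -/
def S_GOO : Prop := ∀ (I : Type) [Fintype I] [DecidableEq I] (t d r : ℕ) (Λ : I → Finset (Fin t))
  (p₀ : Ptr I t) (W : Finset (Arr I t)), 3 ≤ Fintype.card I →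
  (∀ (Q : Finset I) (z : I → Bool),
    ((cls Λ p₀).filter fun p => Chain d W p Q z).card * (2 * Fintype.card I ^ 2) ^ Q.card ≤
      (cls Λ p₀).card) →
  ((cls Λ p₀).filter fun p => ¬ Good d r W p).card * Fintype.card I ^ r ≤ (cls Λ p₀).card

open Classical in
/-- PST (uses `S_CLC`): one pointer assignment is good for all lines.
Proof. The set `Bad d F v` does not depend on the pointers. For `v < L` let `Λ` be from `Few a S (F v)`.
For a class `cls Λ p₀` the sets `F v p`, `p` in the class, are at most `S`, so also the sets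
`W = Wc d F v p = F v p \ Bad d F v` (image of them) are at most `S`; by the hypothesis, for each of
them at most `|cls| / n ^ r` of the `p` in the class are not good for `W`. So
`#{p ∈ cls | ¬ Good d r (Wc d F v p) p} * n ^ r ≤ S |cls|`. The classes are the fibres of
`p ↦ (p without the bits in Λ)` (`cls Λ p = cls Λ p₀` for `p ∈ cls Λ p₀`): sum over the classes
(`Finset.card_eq_sum_card_fiberwise`; for the function `g p = fun i l => if l ∈ Λ i then false else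
p i l` the fibre of `g p` is `cls Λ p`): `#{p | ¬ Good d r (Wc d F v p) p} * n ^ r ≤ S |Ptr|`. Sum over
`v < L`: `#{p | ∃ v < L, ¬ Good ..} * n ^ r ≤ L S |Ptr| < n ^ r |Ptr|`. -/
def S_PST : Prop := ∀ (I : Type) [Fintype I] [DecidableEq I] (t a d r L S : ℕ)
  (F : ℕ → Ptr I t → Finset (Arr I t)),
  (∀ (Λ : I → Finset (Fin t)) (p₀ : Ptr I t) (W : Finset (Arr I t)), (∀ i, (Λ i).card = a) →
    ((cls Λ p₀).filter fun p => ¬ Good d r W p).card * Fintype.card I ^ r ≤ (cls Λ p₀).card) →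
  (∀ v < L, Few a S (F v)) → L * S < Fintype.card I ^ r →
  ∃ p, ∀ v < L, Good d r (Wc d F v p) p

/-- FR: if no set outside of `Q` is dangerous then all values outside of `Q` occur.
Proof. For `κ` consider `∑ V ∈ W, ∏ i ∈ Qᶜ, (1 + sg (κ i) * sg (V i (p i)))`. Expand
(`Finset.prod_one_add`): `∑ T ∈ Qᶜ.powerset, (∏ i ∈ T, sg (κ i)) * bias W p T`. The term `T = ∅` is
`|W|`, for `T ≠ ∅` the absolute value is `≤ |W| / (8 n) ^ |T|` (not dangerous). So the sum is at least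
`|W| (2 - ∑ T ∈ Qᶜ.powerset, (1 / (8 n)) ^ |T|) = |W| (2 - (1 + 1 / (8 n)) ^ |Qᶜ|)
≥ |W| (2 - exp (1/8)) > 0`. So some product is not `0`, that is `sg (κ i) * sg (V i (p i)) ≠ -1` for
all `i ∉ Q`. (If `n = 0` the claim is clear.) -/
def S_FR : Prop := ∀ (I : Type) [Fintype I] [DecidableEq I] (t : ℕ) (W : Finset (Arr I t))
  (p : Ptr I t) (Q : Finset I), W.Nonempty →
  (∀ T : Finset I, T.Nonempty → Disjoint T Q → ¬ Dang W p T) →
  ∀ κ : I → Bool, ∃ V ∈ W, ∀ i ∉ Q, V i (p i) = κ i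

/-- BAD: few arrays are removed.
Proof. `Bad d F (v + 1)` is the union of `Bad d F v` and of the sets `sub (F v p \ Bad d F v) p Q z` that
are not big, for all `p` (`2 ^ (n t)` of them), `Q` and `z` (`2 ^ n` each); a set `U` that is not big
has `|U| * 2 ^ d ≤ |Arr|`. Induction on `v`. Second claim: monotone. Third: definition. -/
def S_BAD : Prop := ∀ (I : Type) [Fintype I] [DecidableEq I] (t d : ℕ)
  (F : ℕ → Ptr I t → Finset (Arr I t)),
  (∀ L : ℕ, (Bad d F L).card * 2 ^ d ≤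
    L * 2 ^ (Fintype.card I * t) * 4 ^ Fintype.card I * Fintype.card (Arr I t)) ∧
  (∀ u v : ℕ, u ≤ v → Bad d F u ⊆ Bad d F v) ∧
  ∀ (u v : ℕ) (p : Ptr I t) (Q : Finset I) (z : I → Bool) (V : Arr I t), u < v →
    V ∈ sub (Wc d F u p) p Q z → V ∉ Bad d F v → Big d (sub (Wc d F u p) p Q z)

/-- ALL: the set of all arrays without a small set.
Proof. `|sub univ p Q z| * 2 ^ |Q| = |Arr|`: flipping: the arrays are partitioned by the values
`(V i (p i)) for i ∈ Q` into `2 ^ |Q|` classes of the same size (bijections that flip the bits `(i, p i)`),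
or `sub univ p Q z` is in bijection with a `Fintype.piFinset` with one value at the places `(i, p i)`,
`i ∈ Q`. Then `|sub (univ \ B) p Q z| ≥ |Arr| / 2 ^ |Q| - |B| ≥ |Arr| / 2 ^ n - |Arr| / 2 ^ (n + 1)`. -/
def S_ALL : Prop := ∀ (I : Type) [Fintype I] [DecidableEq I] (t d : ℕ) (B : Finset (Arr I t))
  (p : Ptr I t) (Q : Finset I) (z : I → Bool),
  (sub (univ : Finset (Arr I t)) p Q z).card * 2 ^ Q.card = Fintype.card (Arr I t) ∧
  (B.card * 2 ^ (Fintype.card I + 1) ≤ Fintype.card (Arr I t) → Fintype.card I + 1 ≤ d →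
    Big d (sub (univ \ B) p Q z))

/-- EXT (uses `S_CHD`): querying a line with the strategy.
Proof. First HEX: if `H Q z` and `|Q ∪ T| ≤ w` then there is `z'` with `H (Q ∪ T) z'` and `z' = z` on
`Q` (induction on `T` with `Strat.ext`; `Function.update z i b` is `z` on `Q` if `i ∉ Q`). Now consider
the pairs `(Q₁, z₁)` with `H (Q₀ ∪ Q₁) z₁`, `z₁ = z₀` on `Q₀` and `Chain d W p Q₁ z₁`; `(∅, z₀)` is one,
and `|Q₁| ≤ r` by `Good`. Take one with `|Q₁|` maximal. If `sub W p Q₁ z₁` is big and some nonempty `T`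
disjoint from `Q₁` is dangerous for it, then `Chain.step` gives a chain `Q₁ ∪ T`, so `|Q₁ ∪ T| ≤ r` and
`|(Q₀ ∪ Q₁) ∪ T| ≤ |Q₀| + r ≤ w`; HEX gives `z₂` with `H (Q₀ ∪ Q₁ ∪ T) z₂`, `z₂ = z₁` on `Q₀ ∪ Q₁`; by
CHD `Chain d W p Q₁ z₂`, and `sub W p Q₁ z₂ = sub W p Q₁ z₁`, so `Chain.step` gives
`Chain d W p (Q₁ ∪ T) z₂`: contradiction to the maximality. -/
def S_EXT : Prop := ∀ (I : Type) [Fintype I] [DecidableEq I] (t d r w : ℕ) (G : CNF I)
  (H : Finset I → (I → Bool) → Prop) (W : Finset (Arr I t)) (p : Ptr I t), Strat G w H →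
  Good d r W p → ∀ (Q₀ : Finset I) (z₀ : I → Bool), H Q₀ z₀ → Q₀.card + r ≤ w →
  ∃ (Q₁ : Finset I) (z₁ : I → Bool), H (Q₀ ∪ Q₁) z₁ ∧ (∀ i ∈ Q₀, z₁ i = z₀ i) ∧ Q₁.card ≤ r ∧
    Chain d W p Q₁ z₁ ∧ (Big d (sub W p Q₁ z₁) →
      ∀ T : Finset I, T.Nonempty → Disjoint T Q₁ → ¬ Dang (sub W p Q₁ z₁) p T)

/-- A state of the walk at a line. -/
def State {I : Type} [Fintype I] [DecidableEq I] {t : ℕ} (d : ℕ)
    (H : Finset I → (I → Bool) → Prop) (W : Finset (Arr I t)) (p : Ptr I t) (Q : Finset I)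
    (z : I → Bool) : Prop :=
  Chain d W p Q z ∧ Big d (sub W p Q z) ∧
    (∀ T : Finset I, T.Nonempty → Disjoint T Q → ¬ Dang (sub W p Q z) p T) ∧ H Q z

/-- WLK (uses `S_CHD`, `S_FR`, `S_BAD`, `S_EXT`): there is no state.
Proof. Strong induction on `v`: there is no state `(Q, z)` at the line `v < L`. Let there be one; so
`|Q| ≤ r` by `Good`. `sub (Wc d F v p) p Q z` is not empty, as it is big (`|Arr| > 0`).
(1) Axiom `C`: let `Q' = Q ∪ C.image Prod.fst`, `|Q'| ≤ w`; HEX (see EXT, or EXT-like induction with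
`Strat.ext`) gives `z'` with `H Q' z'`, `z' = z` on `Q`; `Strat.good` gives `Sat z' C`. FR with
`κ = z'` gives `V ∈ sub (Wc d F v p) p Q z` with `V i (p i) = z' i` for `i ∉ Q`, and for `i ∈ Q`
`V i (p i) = z i = z' i`. So `V ∈ F v p` and `Sat (fun i => V i (p i)) C`: contradiction.
(2) Inference from `u₁, u₂ < v`: EXT for `W = Wc d F u₁ p`, `(Q, z)` gives `(Q₁, z₁)`; EXT for
`W = Wc d F u₂ p`, `(Q ∪ Q₁, z₁)` (`|Q ∪ Q₁| + r ≤ 3 r ≤ w`) gives `(Q₂, z₂)`. FR with `κ = z₂` gives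
`V ∈ sub (Wc d F v p) p Q z` with `V i (p i) = z₂ i` for all `i` (as in (1)). `V ∉ Bad d F v`, so
`V ∉ Bad d F uᵢ`; `V ∈ F v p`, so `V ∈ F uᵢ p` for some `i ∈ {1, 2}` and `V ∈ Wc d F uᵢ p`,
`V ∈ sub (Wc d F uᵢ p) p Qᵢ z₂`; BAD: this set is big. By CHD `Chain d (Wc d F uᵢ p) p Qᵢ z₂` and for
`i = 1` `sub (..) p Q₁ z₂ = sub (..) p Q₁ z₁` (`z₂ = z₁` on `Q ∪ Q₁`). So the last part of EXT applies: no
dangerous sets. `H Qᵢ z₂` by `mono` (for `i = 1`: `Q₁ ⊆ Q ∪ Q₁ ∪ Q₂`). So `(Qᵢ, z₂)` is a state at `uᵢ`. -/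
def S_WLK : Prop := ∀ (I : Type) [Fintype I] [DecidableEq I] (t d r w L : ℕ) (G : CNF I)
  (H : Finset I → (I → Bool) → Prop) (F : ℕ → Ptr I t → Finset (Arr I t)) (p : Ptr I t),
  Strat G w H → 3 * r ≤ w → (∀ C ∈ G, C.card + r ≤ w) →
  (∀ v < L, Good d r (Wc d F v p) p) →
  (∀ v < L, (∃ u₁ < v, ∃ u₂ < v, F v p ⊆ F u₁ p ∪ F u₂ p) ∨
    ∃ C ∈ G, ∀ V ∈ F v p, ¬ Sat (fun i => V i (p i)) C) →
  ∀ v < L, ∀ (Q : Finset I) (z : I → Bool), ¬ State d H (Wc d F v p) p Q z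

/-- STA (uses `S_CHD`, `S_BAD`, `S_ALL`, `S_EXT`): the start.
Proof. `Wc d F v p = univ \ Bad d F v`, `|Bad d F v| * 2 ^ (n + 1) ≤ |Arr|` by BAD and the numbers:
`|Bad| * 2 ^ d ≤ L * 2 ^ (n t) * 4 ^ n * |Arr| ≤ 2 ^ (lg + n t + 2 n) |Arr|` and
`d = n t + 3 n + 1 + lg`. EXT for `Q₀ = ∅` (`Strat.emp`, any `z₀`) gives `(Q₁, z₁)`; by ALL the set
`sub (univ \ Bad d F v) p Q₁ z₁` is big, so it is a state. -/
def S_STA : Prop := ∀ (I : Type) [Fintype I] [DecidableEq I] (t d r w L lg : ℕ) (G : CNF I)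
  (H : Finset I → (I → Bool) → Prop) (F : ℕ → Ptr I t → Finset (Arr I t)) (p : Ptr I t) (v : ℕ),
  Strat G w H → 3 * r ≤ w → v < L → L ≤ 2 ^ lg →
  d = Fintype.card I * t + 3 * Fintype.card I + 1 + lg → Good d r (Wc d F v p) p →
  F v p = univ → ∃ (Q : Finset I) (z : I → Bool), State d H (Wc d F v p) p Q z

/-- The conclusion of part 1: no short sequences of lines with few sets. -/
def S_CORE : Prop := ∀ (I : Type) [Fintype I] [DecidableEq I] (t a' d r w L S lg : ℕ) (G : CNF I)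
  (H : Finset I → (I → Bool) → Prop) (F : ℕ → Ptr I t → Finset (Arr I t)),
  3 ≤ Fintype.card I → 512 * Fintype.card I ^ 5 ≤ 2 ^ a' →
  4 * Fintype.card I * (256 * Fintype.card I ^ 5) ^ Fintype.card I * 4 ^ d ≤
    2 ^ ((2 ^ a') ^ 2 / 2) →
  d = Fintype.card I * t + 3 * Fintype.card I + 1 + lg → L ≤ 2 ^ lg →
  Strat G w H → 3 * r ≤ w → (∀ C ∈ G, C.card + r ≤ w) →
  (∀ v < L, Few (4 * a') S (F v)) →
  (∀ v < L, (∃ u₁ < v, ∃ u₂ < v, ∀ p, F v p ⊆ F u₁ p ∪ F u₂ p) ∨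
    ∃ C ∈ G, ∀ p, ∀ V ∈ F v p, ¬ Sat (fun i => V i (p i)) C) →
  (∃ v < L, ∀ p, F v p = univ) → Fintype.card I ^ r ≤ L * S

end Pool.Agent.DGO
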