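import Pool.Agent.DGO.St1

/-!
# Project DGO: the start of the walk
-/

set_option autoImplicit false

namespace Pool.Agent.DGO

open Finset Pool.Agent.OB

namespace MSTA

/-- The numbers. -/
theorem nums (b L v lg N m A d : ℕ) (hv : v ≤ L) (hL : L ≤ 2 ^ lg)
    (hd : d = m + 3 * N + 1 + lg)
    (h : b * 2 ^ d ≤ v * 2 ^ m * 4 ^ N * A) : b * 2 ^ (N + 1) ≤ A := by
  have h1 : v * 2 ^ m * 4 ^ N * A ≤ 2 ^ (lg + m + 2 * N) * A := by
    have h2 : v ≤ 2 ^ lg := hv.trans hL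
    have h4 : (4 : ℕ) ^ N = 2 ^ (2 * N) := by
      rw [pow_mul]; norm_num
    calc v * 2 ^ m * 4 ^ N * A ≤ 2 ^ lg * 2 ^ m * 4 ^ N * A := by gcongr
      _ = 2 ^ (lg + m + 2 * N) * A := by rw [h4, pow_add, pow_add]
  have h3 : (2 : ℕ) ^ d = 2 ^ (lg + m + 2 * N) * 2 ^ (N + 1) := by
    rw [← pow_add, hd]; congr 1; ring
  have h5 : 2 ^ (lg + m + 2 * N) * (b * 2 ^ (N + 1)) ≤ 2 ^ (lg + m + 2 * N) * A := by
    calc 2 ^ (lg + m + 2 * N) * (b * 2 ^ (N + 1)) = b * 2 ^ d := by rw [h3]; ring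
      _ ≤ _ := h
      _ ≤ _ := h1
  exact Nat.le_of_mul_le_mul_left h5 (by positivity)

end MSTA

theorem t_STA (hCHD : S_CHD) (hBAD : S_BAD) (hALL : S_ALL) (hEXT : S_EXT) : S_STA := by
  have _ := hCHD
  intro I _ _ t d r w L lg G H F p v hS hr hv hL hd hg hF
  have hW : Wc d F v p = (univ : Finset (Arr I t)) \ Bad d F v := by
    unfold Wc; rw [hF]
  have hb : (Bad d F v).card * 2 ^ (Fintype.card I + 1) ≤ Fintype.card (Arr I t) :=
    MSTA.nums _ L v lg _ (Fintype.card I * t) _ d hv.le hL hd ((hBAD I t d F).1 v)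
  obtain ⟨Q₁, z₁, h1, -, -, h4, h5⟩ := hEXT I t d r w G H (Wc d F v p) p hS hg ∅
    (fun _ => false) (hS.emp _) (by simp; omega)
  have hbig : Big d (sub (Wc d F v p) p Q₁ z₁) := by
    rw [hW]
    exact (hALL I t d (Bad d F v) p Q₁ z₁).2 hb (by omega)
  refine ⟨Q₁, z₁, h4, hbig, h5 hbig, ?_⟩
  rwa [empty_union] at h1

end Pool.Agent.DGO
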