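import Pool.Agent.DGO.St3

/-!
# Project DGO: assembly of the theorem
-/

set_option autoImplicit false

namespace Pool.Agent.DGO

open Finset Pool.Agent.OB

theorem t_MAIN (hPHP : S_PHP) (hLFT : S_LFT) (hTRN : S_TRN) (hROW : S_ROW) (hUNI : S_UNI)
    (hSEQ : S_SEQ) (hREF : S_REF) (hNUM : S_NUM) : S_MAIN := by
  obtain ⟨K, hK, hnum⟩ := hNUM
  refine ⟨1 / 16000, K, by norm_num, ?_⟩
  intro l hl N hN
  obtain ⟨m, a', g, N₀, n, t, hn, ht, hN₀, hm, hN1, h2l, h8l, hq, hg, h512, hbig, hcard, hwid,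
    hfin⟩ := hnum l hl N hN
  obtain ⟨hU, h3, hEc, hPc, H, hH⟩ := hPHP m (by omega)
  have hcI : Fintype.card (PV m) = n := by rw [hPc, hn]
  have hX : Fintype.card (Ix t (t + 3)) = t + 2 ^ t * (t + 3) := by
    simp [Ix, Fintype.card_sum, Fintype.card_prod]
  have hn1 : 1 ≤ n := by
    rw [hn]
    exact Nat.one_le_iff_ne_zero.2 (by positivity)
  have hq1 : 8 * Fintype.card (Ix t (t + 3)) ^ 2 ≤ N₀ := by
    rw [hX]
    exact le_trans (Nat.le_mul_of_pos_right _ hn1) hq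
  -- the table
  obtain ⟨τ, hτ⟩ := hUNI (PV m) N₀ g t (t + 3) l (4 * a') hN1 (fun A U hA hUc =>
    hROW N₀ t (t + 3) l (4 * a') A U hl h2l h8l ht rfl hA hq1 (by
      refine le_trans (Nat.mul_le_mul_left _ hUc) ?_
      rw [hcI, hX]
      refine le_trans (le_of_eq ?_) hq
      ring)) (by rw [hcI]; exact hg)
  have hτ' : ∀ A : Fin l → Finset (Fin N₀), (∀ k, (A k).card = N₀ / (2 * l)) →
      ∃ so : PV m → Fin g → Bool,
        (Function.Injective fun v : PV m × Ix t (t + 3) => τ v.1 (so v.1) v.2) ∧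
        (∀ i k, 4 * a' ≤ (univ.filter fun j : Fin t => τ i (so i) (Sum.inl j) ∈ A k).card) ∧
        ∀ i (q : Fin t → Bool), ∃ j : Fin (t + 3), ∀ k, τ i (so i) (Sum.inr (q, j)) ∉ A k :=
    fun A hA => hSEQ (PV m) N₀ g t (t + 3) l (4 * a') τ A fun U hUc i => hτ A U hA hUc i
  obtain ⟨-, hLU, hLT, hLw, hLc⟩ := hLFT (PV m) N₀ g t (t + 3) τ (EPHP m) h3
  have hV : Fintype.card (LV (PV m) N₀ g) = N := by
    rw [← hN₀, ← hcI]
    simp [LV, Fintype.card_sum, Fintype.card_prod]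
  have e : LV (PV m) N₀ g ≃ Fin N := Fintype.equivFinOfCardEq hV
  obtain ⟨F', hF1, hF2, hF3, hF4, hF5⟩ := hTRN (LV (PV m) N₀ g) (Fin N) e (lift τ (EPHP m))
  refine ⟨F', hF1 (hLU hU), ?_, ?_, ?_⟩
  · refine hF2.trans (hLc.trans (le_trans (Nat.mul_le_mul_right _ hEc) hcard))
  · intro C hC
    refine ⟨(hF3 _ hLw C hC).trans hwid, hF4 hLT C hC⟩
  · intro s L hD
    have hD' := hF5 l s L hD
    refine hfin s L ?_
    by_cases hL : 2 ^ m < L
    · exact Or.inl hL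
    · refine Or.inr ?_
      have h := hREF (PV m) N₀ g t (t + 3) l a' (n * t + 3 * n + 1 + m) (m / 3) m s L m (EPHP m) H
        τ hl hτ' (by rw [hcI, hn]; nlinarith) (by rw [hcI]; exact h512) (by rw [hcI]; exact hbig)
        (by rw [hcI]) (not_lt.1 hL) hH (by omega) h3 (by omega) hD'
      rwa [hcI] at h

end Pool.Agent.DGO
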