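import Pool.Agent.DGO.St3

/-!
# DGO, module COL: few functions are not injective, few hit a small set
-/

set_option autoImplicit false

namespace Pool.Agent.DGO

open Finset

namespace MCOL

variable {X : Type} [Fintype X] [DecidableEq X] {N : ℕ}

lemma card_ne (x : X) : Fintype.card {z : X // z ≠ x} = Fintype.card X - 1 := by
  rw [Fintype.card_subtype_compl, Fintype.card_subtype_eq]

lemma card_res (x : X) :
    (univ : Finset ({z : X // z ≠ x} → Fin N)).card = N ^ (Fintype.card X - 1) := by
  rw [card_univ, Fintype.card_fun, Fintype.card_fin, card_ne]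

lemma one_le (x : X) : 1 ≤ Fintype.card X := Fintype.card_pos_iff.2 ⟨x⟩

lemma two (x y : X) (h : x ≠ y) (p : (X → Fin N) → Prop) [DecidablePred p]
    (hp : ∀ ρ, p ρ → ρ x = ρ y) :
    ((univ : Finset (X → Fin N)).filter fun ρ => p ρ).card ≤ N ^ (Fintype.card X - 1) := by
  rw [← card_res x]
  refine card_le_card_of_injOn (fun ρ z => ρ z.1) (fun ρ _ => mem_coe.2 (mem_univ _)) ?_
  intro ρ hρ ρ' hρ' e
  have h1 := hp ρ (mem_filter.1 (mem_coe.1 hρ)).2
  have h2 := hp ρ' (mem_filter.1 (mem_coe.1 hρ')).2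
  have h3 : ∀ z, z ≠ x → ρ z = ρ' z := fun z hz => congrFun e ⟨z, hz⟩
  funext z
  by_cases hz : z = x
  · subst hz
    rw [h1, h2]
    exact h3 y (Ne.symm h)
  · exact h3 z hz

lemma one (x : X) (U : Finset (Fin N)) (p : (X → Fin N) → Prop) [DecidablePred p]
    (hp : ∀ ρ, p ρ → ρ x ∈ U) :
    ((univ : Finset (X → Fin N)).filter fun ρ => p ρ).card ≤
      U.card * N ^ (Fintype.card X - 1) := by
  rw [← card_res (N := N) x, ← card_product]
  refine card_le_card_of_injOn (fun ρ => (ρ x, fun z : {z : X // z ≠ x} => ρ z.1)) ?_ ?_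
  · intro ρ hρ
    exact mem_coe.2 (mem_product.2 ⟨hp ρ (mem_filter.1 (mem_coe.1 hρ)).2, mem_univ _⟩)
  intro ρ hρ ρ' hρ' e
  have e1 := congrArg Prod.fst e
  have e2 := congrArg Prod.snd e
  have h3 : ∀ z, z ≠ x → ρ z = ρ' z := fun z hz => congrFun e2 ⟨z, hz⟩
  funext z
  by_cases hz : z = x
  · subst hz
    exact e1
  · exact h3 z hz

end MCOL

open MCOL in
theorem t_COL : S_COL := by
  classical
  intro X _ _ N U
  constructor
  · intro hN
    have h1 : ((univ : Finset (X → Fin N)).filter fun ρ => ¬ Function.Injective ρ) ⊆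
        (univ : Finset (X × X)).biUnion fun z =>
          (univ : Finset (X → Fin N)).filter fun ρ => z.1 ≠ z.2 ∧ ρ z.1 = ρ z.2 := by
      intro ρ hρ
      have h2 := (mem_filter.1 hρ).2
      unfold Function.Injective at h2
      push Not at h2
      obtain ⟨x, y, h3, h4⟩ := h2
      exact mem_biUnion.2 ⟨(x, y), mem_univ _, mem_filter.2 ⟨mem_univ _, h4, h3⟩⟩
    have h5 : ((univ : Finset (X → Fin N)).filter fun ρ => ¬ Function.Injective ρ).card ≤
        Fintype.card (X × X) * N ^ (Fintype.card X - 1) := by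
      refine (card_le_card h1).trans (card_biUnion_le.trans ?_)
      rw [← card_univ, ← smul_eq_mul]
      refine sum_le_card_nsmul _ _ _ fun z _ => ?_
      by_cases hz : z.1 = z.2
      · rw [filter_false_of_mem fun ρ _ h => h.1 hz]
        exact Nat.zero_le _
      · exact two z.1 z.2 hz _ fun ρ h => h.2
    rw [Fintype.card_prod] at h5
    rcases Nat.eq_zero_or_pos (Fintype.card X) with h0 | h0
    · rw [h0] at h5 ⊢
      simp only [zero_mul, Nat.le_zero] at h5
      rw [h5]
      exact Nat.zero_le _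
    · have e : N ^ Fintype.card X = N * N ^ (Fintype.card X - 1) := by
        rw [← pow_succ', Nat.sub_add_cancel h0]
      rw [e]
      calc _ ≤ 8 * (Fintype.card X * Fintype.card X * N ^ (Fintype.card X - 1)) :=
            Nat.mul_le_mul_left 8 h5
        _ = 8 * Fintype.card X ^ 2 * N ^ (Fintype.card X - 1) := by ring
        _ ≤ N * N ^ (Fintype.card X - 1) := Nat.mul_le_mul_right _ hN
  · intro hN
    have h1 : ((univ : Finset (X → Fin N)).filter fun ρ => ∃ x, ρ x ∈ U) ⊆
        (univ : Finset X).biUnion fun x =>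
          (univ : Finset (X → Fin N)).filter fun ρ => ρ x ∈ U := by
      intro ρ hρ
      obtain ⟨x, hx⟩ := (mem_filter.1 hρ).2
      exact mem_biUnion.2 ⟨x, mem_univ _, mem_filter.2 ⟨mem_univ _, hx⟩⟩
    have h5 : ((univ : Finset (X → Fin N)).filter fun ρ => ∃ x, ρ x ∈ U).card ≤
        Fintype.card X * (U.card * N ^ (Fintype.card X - 1)) := by
      refine (card_le_card h1).trans (card_biUnion_le.trans ?_)
      rw [← card_univ (α := X), ← smul_eq_mul]
      exact sum_le_card_nsmul _ _ _ fun x _ => one x U _ fun ρ h => h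
    rcases Nat.eq_zero_or_pos (Fintype.card X) with h0 | h0
    · rw [h0] at h5 ⊢
      simp only [zero_mul, Nat.le_zero] at h5
      rw [h5]
      exact Nat.zero_le _
    · have e : N ^ Fintype.card X = N * N ^ (Fintype.card X - 1) := by
        rw [← pow_succ', Nat.sub_add_cancel h0]
      rw [e]
      calc _ ≤ 8 * (Fintype.card X * (U.card * N ^ (Fintype.card X - 1))) :=
            Nat.mul_le_mul_left 8 h5
        _ = 8 * Fintype.card X * U.card * N ^ (Fintype.card X - 1) := by ring
        _ ≤ N * N ^ (Fintype.card X - 1) := Nat.mul_le_mul_right _ hN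

end Pool.Agent.DGO
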