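import Pool.Agent.DGO.St2

/-!
# DGO, module CTL: cutting an order
-/

set_option autoImplicit false

namespace Pool.Agent.DGO

open Finset Pool.Agent.OB

theorem t_CTL : S_CTL := by
  intro V _ N κ e σ he hκ
  set F : ℕ → ℕ := fun c => (univ.filter fun x : Fin N => (σ (e x) : ℕ) < c).card with hF
  have h0 : F 0 = 0 := by simp [hF]
  have hN : κ ≤ F (Fintype.card V) := by
    have h1 : F (Fintype.card V) = N := by
      simp only [hF]
      rw [Finset.filter_true_of_mem fun x _ => (σ (e x)).isLt, Finset.card_univ, Fintype.card_fin]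
    rw [h1]
    exact hκ
  have hstep : ∀ c, F (c + 1) ≤ F c + 1 := by
    intro c
    have h1 : (univ.filter fun x : Fin N => (σ (e x) : ℕ) < c + 1) =
        (univ.filter fun x : Fin N => (σ (e x) : ℕ) < c) ∪
          (univ.filter fun x : Fin N => (σ (e x) : ℕ) = c) := by
      ext x
      simp only [Finset.mem_filter, Finset.mem_union, Finset.mem_univ, true_and]
      omega
    have h2 : (univ.filter fun x : Fin N => (σ (e x) : ℕ) = c).card ≤ 1 := by
      refine Finset.card_le_one.2 fun x hx y hy => ?_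
      rw [Finset.mem_filter] at hx hy
      exact he (σ.injective (Fin.ext (hx.2.trans hy.2.symm)))
    simp only [hF]
    rw [h1]
    exact (Finset.card_union_le _ _).trans (Nat.add_le_add_left h2 _)
  have hex : ∃ c, κ ≤ F c := ⟨_, hN⟩
  classical
  refine ⟨Nat.find hex, ?_⟩
  have h1 : κ ≤ F (Nat.find hex) := Nat.find_spec hex
  change F (Nat.find hex) = κ
  rcases Nat.eq_zero_or_pos (Nat.find hex) with h2 | h2
  · rw [h2] at h1 ⊢
    omega
  · obtain ⟨m, hm⟩ : ∃ m, Nat.find hex = m + 1 := ⟨Nat.find hex - 1, by omega⟩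
    have h3 : ¬ κ ≤ F m := Nat.find_min hex (by omega)
    rw [hm] at h1 ⊢
    have h4 := hstep m
    omega

end Pool.Agent.DGO
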