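import Pool.Agent.DGO.St3

/-!
# Project DGO: many orders
-/

set_option autoImplicit false

namespace Pool.Agent.DGO

open Finset Pool.Agent.OB

/-- The theorem for `l ≤ ε log N / log log N` orders. -/
def S_COR : Prop := ∃ K : ℕ, ∀ A : ℝ, ∃ ε : ℝ, 0 < ε ∧ ∃ N₀ : ℕ, ∀ N ≥ N₀, ∀ l : ℕ, 1 ≤ l →
  (l : ℝ) ≤ ε * Real.log N / Real.log (Real.log N) →
  ∃ F : CNF (Fin N), Unsat F ∧ F.card ≤ N ^ K ∧ (∀ C ∈ F, C.card ≤ K * Nat.log 2 N ∧ ¬ Taut C) ∧
    ∀ s L : ℕ, DagRef F l s L → (2 : ℝ) ^ (Real.log N ^ A) ≤ (max s L : ℕ)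

theorem t_COR (hMAIN : S_MAIN) : S_COR := by
  obtain ⟨c, K, hc, h⟩ := hMAIN
  refine ⟨K, fun A => ?_⟩
  -- `B` is a positive bound for `A` and for `K`
  set B : ℝ := max (|A| / c) (K + 1) with hB
  have hB1 : (K : ℝ) + 1 ≤ B := le_max_right _ _
  have hK0 : (0 : ℝ) ≤ K := Nat.cast_nonneg _
  have hB0 : 0 < B := by linarith
  have hBA : |A| ≤ c * B := by
    have : |A| / c ≤ B := le_max_left _ _
    rw [div_le_iff₀ hc] at this
    linarith
  refine ⟨1 / B, by positivity, ?_⟩
  refine ⟨⌈Real.exp (Real.exp 1)⌉₊, fun N hN l hl hlN => ?_⟩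
  have hNe : Real.exp (Real.exp 1) ≤ N := (Nat.le_ceil _).trans (by exact_mod_cast hN)
  have hN0 : (0 : ℝ) < N := (Real.exp_pos _).trans_le hNe
  have hx : Real.exp 1 ≤ Real.log N := by
    have := Real.log_le_log (Real.exp_pos _) hNe
    rwa [Real.log_exp] at this
  have hx0 : 0 < Real.log N := (Real.exp_pos _).trans_le hx
  have hy : 1 ≤ Real.log (Real.log N) := by
    have := Real.log_le_log (Real.exp_pos _) hx
    rwa [Real.log_exp] at this
  have hy0 : 0 < Real.log (Real.log N) := by linarith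
  have hl0 : (0 : ℝ) < l := by exact_mod_cast hl
  -- `l B log log N ≤ log N`
  have hlB : (l : ℝ) * (B * Real.log (Real.log N)) ≤ Real.log N := by
    rw [le_div_iff₀ hy0] at hlN
    have h1 := mul_le_mul_of_nonneg_left hlN hB0.le
    have h2 : B * (1 / B * Real.log N) = Real.log N := by field_simp
    rw [h2] at h1
    linarith
  have hKl : ((K * l : ℕ) : ℝ) ≤ Real.log N := by
    push_cast
    have h1 : (K : ℝ) * l ≤ l * (B * Real.log (Real.log N)) := by
      have : (K : ℝ) ≤ B * Real.log (Real.log N) := by nlinarith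
      nlinarith
    linarith
  have hpow : (K * l) ^ (K * l) ≤ N := by
    rcases Nat.eq_zero_or_pos (K * l) with h0 | h0
    · rw [h0, pow_zero]
      have : (1 : ℝ) ≤ N := by
        have : (1 : ℝ) ≤ Real.exp (Real.exp 1) := Real.one_le_exp (Real.exp_pos _).le
        linarith
      exact_mod_cast this
    · have h1 : Real.log (((K * l : ℕ) : ℝ) ^ (K * l)) ≤ Real.log N := by
        rw [Real.log_pow]
        have h2 : Real.log ((K * l : ℕ) : ℝ) ≤ Real.log (Real.log N) :=
          Real.log_le_log (by exact_mod_cast h0) hKl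
        calc ((K * l : ℕ) : ℝ) * Real.log ((K * l : ℕ) : ℝ)
            ≤ ((K * l : ℕ) : ℝ) * Real.log (Real.log N) :=
              mul_le_mul_of_nonneg_left h2 (Nat.cast_nonneg _)
          _ ≤ l * (B * Real.log (Real.log N)) := by
              push_cast
              have : (K : ℝ) * Real.log (Real.log N) ≤ B * Real.log (Real.log N) :=
                mul_le_mul_of_nonneg_right (by linarith) hy0.le
              nlinarith
          _ ≤ Real.log N := hlB
      have h3 : (0 : ℝ) < ((K * l : ℕ) : ℝ) ^ (K * l) := by positivity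
      have h4 := (Real.log_le_log_iff h3 hN0).1 h1
      exact_mod_cast h4
  obtain ⟨F, hF1, hF2, hF3, hF4⟩ := h l hl N hpow
  refine ⟨F, hF1, hF2, hF3, fun s L hD => le_trans ?_ (hF4 s L hD)⟩
  refine Real.rpow_le_rpow_of_exponent_le (by norm_num) ?_
  -- `(log N) ^ A ≤ N ^ (c / l)`
  rw [Real.rpow_def_of_pos hx0, Real.rpow_def_of_pos hN0]
  refine Real.exp_le_exp.2 ?_
  rw [mul_div_assoc', le_div_iff₀ hl0]
  calc Real.log (Real.log N) * A * l ≤ Real.log (Real.log N) * (c * B) * l := by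
        have h1 : A ≤ c * B := (le_abs_self A).trans hBA
        have h2 := mul_le_mul_of_nonneg_left h1 hy0.le
        exact mul_le_mul_of_nonneg_right h2 hl0.le
    _ = c * (l * (B * Real.log (Real.log N))) := by ring
    _ ≤ c * Real.log N := mul_le_mul_of_nonneg_left hlB hc.le
    _ = Real.log N * c := mul_comm _ _

end Pool.Agent.DGO
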