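import Pool.Agent.Lib_helper80.OB.ODefs

/-!
# DAG-like OBDD refutations with several orders: definitions

Clauses, CNFs and OBDDs are those of `Pool.Agent.Lib_helper80.OB.ODefs`.
-/

set_option autoImplicit false

namespace Pool.Agent.DGO

open Pool.Agent.OB

/-- `DagRef F l s L`: there is a DAG-like refutation of the CNF `F` with `L` lines, which uses at
most `l` orders of the variables and whose lines are OBDDs with at most `s` nodes. The line `k`
is an OBDD for the order `ord (o k)`, it computes the function `f k`. It is implied by a clause of
`F`, or by two earlier lines (this contains the rules conjunction, weakening and reordering; the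
premises may have different orders, they may be equal, and a line may be used arbitrarily often).
Some line computes the constant function false. -/
def DagRef {V : Type*} [Fintype V] (F : CNF V) (l s L : ℕ) : Prop :=
  ∃ (ord : Fin l → (V ≃ Fin (Fintype.card V))) (o : ℕ → Fin l) (f : ℕ → (V → Bool) → Bool),
    (∀ k < L, (∃ s' ≤ s, HasOBDD (ord (o k)) s' (f k)) ∧
      ((∃ C ∈ F, ∀ x, Sat x C → f k x = true) ∨
        ∃ i < k, ∃ j < k, ∀ x, f i x = true → f j x = true → f k x = true)) ∧
    ∃ k < L, ∀ x, f k x = false

end Pool.Agent.DGO
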