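import Pool.Agent.DGO.St3

/-!
# DGO, module ECP: few rows have all copies of a bit in a set
-/

set_option autoImplicit false

namespace Pool.Agent.DGO

open Finset

namespace MECP

variable {N t h : ℕ}

/-- The allowed values of the rows with all copies of the bit `q` in `B`. -/
def S (B : Finset (Fin N)) (q : Fin t → Bool) : Ix t h → Finset (Fin N) :=
  Sum.elim (fun _ => univ) fun y => if y.1 = q then B else univ

/-- The factor two for the copies of the bit `q`. -/
def d (q : Fin t → Bool) : Ix t h → ℕ :=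
  Sum.elim (fun _ => 1) fun y => if y.1 = q then 2 else 1

lemma prod_d (q : Fin t → Bool) : ∏ x : Ix t h, d q x = 2 ^ h := by
  rw [Fintype.prod_sum_type]
  simp only [d, Sum.elim_inl, Sum.elim_inr, Finset.prod_const_one, one_mul]
  rw [Fintype.prod_prod_type, Finset.prod_eq_single q]
  · refine (Finset.prod_congr rfl fun j _ => if_pos rfl).trans ?_
    rw [Finset.prod_const, Finset.card_univ, Fintype.card_fin]
  · intro q' _ hq'
    exact Finset.prod_eq_one fun j _ => if_neg hq'
  · intro hq
    exact absurd (Finset.mem_univ q) hq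

lemma card_le (B : Finset (Fin N)) (hB : 2 * B.card ≤ N) (q : Fin t → Bool) :
    2 ^ h * (Fintype.piFinset (S (h := h) B q)).card ≤ N ^ Fintype.card (Ix t h) := by
  rw [Fintype.card_piFinset, ← prod_d (h := h) q, ← Finset.prod_mul_distrib]
  have h1 : N ^ Fintype.card (Ix t h) = ∏ _x : Ix t h, N := by
    rw [Finset.prod_const, Finset.card_univ]
  rw [h1]
  refine Finset.prod_le_prod (fun x _ => Nat.zero_le _) fun x _ => ?_
  rcases x with j | y
  · simp only [d, S, Sum.elim_inl, Finset.card_univ, Fintype.card_fin, one_mul]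
    exact le_rfl
  · simp only [d, S, Sum.elim_inr]
    by_cases hy : y.1 = q
    · rw [if_pos hy, if_pos hy]
      exact hB
    · rw [if_neg hy, if_neg hy, one_mul, Finset.card_univ, Fintype.card_fin]

lemma mem_S (B : Finset (Fin N)) (q : Fin t → Bool) (ρ : Ix t h → Fin N)
    (hρ : ∀ j : Fin h, ρ (Sum.inr (q, j)) ∈ B) : ρ ∈ Fintype.piFinset (S (h := h) B q) := by
  rw [Fintype.mem_piFinset]
  rintro (j | ⟨q', j⟩)
  · exact Finset.mem_univ _
  · simp only [S, Sum.elim_inr]
    by_cases hy : q' = q
    · rw [if_pos hy, hy]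
      exact hρ j
    · rw [if_neg hy]
      exact Finset.mem_univ _

end MECP

theorem t_ECP : S_ECP := by
  intro N t h B hh hB
  have h1 : ((univ : Finset (Ix t h → Fin N)).filter fun ρ =>
      ∃ q : Fin t → Bool, ∀ j : Fin h, ρ (Sum.inr (q, j)) ∈ B).card ≤
      ∑ q : Fin t → Bool, (Fintype.piFinset (MECP.S (h := h) B q)).card := by
    refine le_trans (Finset.card_le_card ?_) Finset.card_biUnion_le
    intro ρ hρ
    obtain ⟨q, hq⟩ := (mem_filter.1 hρ).2
    exact mem_biUnion.2 ⟨q, mem_univ _, MECP.mem_S B q ρ hq⟩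
  have h2 : 2 ^ h * ∑ q : Fin t → Bool, (Fintype.piFinset (MECP.S (h := h) B q)).card ≤
      2 ^ t * N ^ Fintype.card (Ix t h) := by
    rw [Finset.mul_sum]
    refine (Finset.sum_le_card_nsmul _ _ (N ^ Fintype.card (Ix t h))
      fun q _ => MECP.card_le B hB q).trans ?_
    rw [Finset.card_univ, Fintype.card_fun, Fintype.card_bool, Fintype.card_fin, smul_eq_mul]
  have h3 := (Nat.mul_le_mul_left (2 ^ h) h1).trans h2
  rw [hh, pow_add, mul_assoc] at h3
  rw [hh]
  exact Nat.le_of_mul_le_mul_left h3 (by positivity)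

end Pool.Agent.DGO
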