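import Pool.Agent.DGO.St2

/-!
# Project DGO, module EMB (helper39): the embedding of the arrays
-/

set_option autoImplicit false

namespace Pool.Agent.DGO

open Finset Pool.Agent.OB

namespace MEMB

variable {I : Type} [Fintype I] {N g t h : ℕ}
  {τ : I → (Fin g → Bool) → Ix t h → Fin N} {so : I → Fin g → Bool}
  {rep : I → (Fin t → Bool) → Fin h}

/-- a parity with one term -/
lemma xr_one (j₀ : Fin h) (b : Bool) : xr (fun j : Fin h => if j = j₀ then b else false) = b := by
  cases b with
  | false =>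
    have e : (univ.filter fun j : Fin h => (if j = j₀ then false else false) = true) = ∅ := by
      apply Finset.filter_eq_empty_iff.2
      intro j _
      simp
    unfold xr
    rw [e]
    simp
  | true =>
    have e : (univ.filter fun j : Fin h => (if j = j₀ then true else false) = true) = {j₀} := by
      ext j
      simp
    unfold xr
    rw [e]
    simp

lemma at_ptr (hτ : Function.Injective fun v : I × Ix t h => τ v.1 (so v.1) v.2) (p : Ptr I t)
    (V : Arr I t) (i : I) (l : Fin t) :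
    emb τ so rep p V (Sum.inl (τ i (so i) (Sum.inl l))) = p i l := by
  have hx : ∃ v : I × Fin t, τ v.1 (so v.1) (Sum.inl v.2) = τ i (so i) (Sum.inl l) :=
    ⟨(i, l), rfl⟩
  have h1 : (hx.choose.1, (Sum.inl hx.choose.2 : Ix t h)) = (i, Sum.inl l) := hτ hx.choose_spec
  have h2 := (Prod.mk.inj h1).1
  have h3 := Sum.inl.inj (Prod.mk.inj h1).2
  simp only [emb]
  rw [dif_pos hx, h2, h3]

lemma at_tab (hτ : Function.Injective fun v : I × Ix t h => τ v.1 (so v.1) v.2) (p : Ptr I t)
    (V : Arr I t) (i : I) (q : Fin t → Bool) (j : Fin h) :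
    emb τ so rep p V (Sum.inl (τ i (so i) (Sum.inr (q, j)))) =
      if j = rep i q then V i q else false := by
  have hx : ¬ ∃ v : I × Fin t, τ v.1 (so v.1) (Sum.inl v.2) = τ i (so i) (Sum.inr (q, j)) := by
    rintro ⟨v, hv⟩
    have h1 : (v.1, (Sum.inl v.2 : Ix t h)) = (i, Sum.inr (q, j)) := hτ hv
    have h2 := (Prod.mk.inj h1).2
    simp at h2
  simp only [emb]
  rw [dif_neg hx]
  by_cases hj : j = rep i q
  · have hy : ∃ v : I × (Fin t → Bool), τ v.1 (so v.1) (Sum.inr (v.2, rep v.1 v.2)) =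
        τ i (so i) (Sum.inr (q, j)) := ⟨(i, q), by rw [hj]⟩
    have h1 : (hy.choose.1, (Sum.inr (hy.choose.2, rep hy.choose.1 hy.choose.2) : Ix t h)) =
        (i, Sum.inr (q, j)) := hτ hy.choose_spec
    have h2 := (Prod.mk.inj h1).1
    have h3 := (Prod.mk.inj (Sum.inr.inj (Prod.mk.inj h1).2)).1
    rw [dif_pos hy, if_pos hj, h2, h3]
  · have hy : ¬ ∃ v : I × (Fin t → Bool), τ v.1 (so v.1) (Sum.inr (v.2, rep v.1 v.2)) =
        τ i (so i) (Sum.inr (q, j)) := by
      rintro ⟨v, hv⟩
      have h1 : (v.1, (Sum.inr (v.2, rep v.1 v.2) : Ix t h)) = (i, Sum.inr (q, j)) := hτ hv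
      have h2 := (Prod.mk.inj h1).1
      have h3 := Prod.mk.inj (Sum.inr.inj (Prod.mk.inj h1).2)
      exact hj (by rw [← h3.2, h2, h3.1])
    rw [dif_neg hy, if_neg hj]

lemma at_sel (p : Ptr I t) (V : Arr I t) (i : I) : sel (emb τ so rep p V) i = so i := rfl

end MEMB

theorem t_EMB : S_EMB := by
  intro I _ _ N g t h τ so rep hτ
  refine ⟨fun p V i => ?_, fun p V i l => MEMB.at_ptr hτ p V i l, ?_⟩
  · have h1 : ptr τ (emb τ so rep p V) i = p i := by
      funext l
      exact MEMB.at_ptr hτ p V i l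
    have h2 : cpy τ (emb τ so rep p V) i = fun j => if j = rep i (p i) then V i (p i) else false := by
      funext j
      unfold cpy
      rw [h1, MEMB.at_sel]
      exact MEMB.at_tab hτ p V i (p i) j
    unfold Z
    rw [h2]
    exact MEMB.xr_one _ _
  · intro p V p' V' x h1 h2
    simp only [emb]
    by_cases hx : ∃ v : I × Fin t, τ v.1 (so v.1) (Sum.inl v.2) = x
    · rw [dif_pos hx, dif_pos hx]
      exact h1 _ _ hx.choose_spec.symm
    · rw [dif_neg hx, dif_neg hx]
      by_cases hy : ∃ v : I × (Fin t → Bool), τ v.1 (so v.1) (Sum.inr (v.2, rep v.1 v.2)) = x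
      · rw [dif_pos hy, dif_pos hy]
        exact h2 _ _ hy.choose_spec.symm
      · rw [dif_neg hy, dif_neg hy]

end Pool.Agent.DGO
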