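import Pool.Agent.DGO.St3

/-!
# DGO: module EPT (few rows have few pointer positions in a set)
-/

set_option autoImplicit false

namespace Pool.Agent.DGO

open Finset Pool.Agent.OB

namespace MEPT

theorem exp_bound : (4 : ℝ) ≤ Real.exp (3 / 2) := by
  have h1 := Real.exp_one_gt_d9
  have h2 : Real.exp (3 / 2) ^ 2 = Real.exp 1 ^ 3 := by
    rw [← Real.exp_nat_mul, ← Real.exp_nat_mul]
    norm_num
  have h3 : (4 : ℝ) ^ 2 ≤ Real.exp (3 / 2) ^ 2 := by
    rw [h2]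
    have h4 : (2.7 : ℝ) ^ 3 ≤ Real.exp 1 ^ 3 :=
      pow_le_pow_left₀ (by norm_num) (by linarith) 3
    refine le_trans ?_ h4
    norm_num
  exact (pow_le_pow_iff_left₀ (by norm_num) (Real.exp_pos _).le (by norm_num)).1 h3

theorem pow_bound (l a : ℕ) (hl : 1 ≤ l) :
    (1 - 1 / (8 * (l : ℝ))) ^ (12 * l * a) ≤ (1 / 4 : ℝ) ^ a := by
  have hl' : (1 : ℝ) ≤ l := by exact_mod_cast hl
  have h0 : 0 ≤ 1 - 1 / (8 * (l : ℝ)) := by
    rw [sub_nonneg, div_le_one (by linarith)]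
    linarith
  have h1 : 1 - 1 / (8 * (l : ℝ)) ≤ Real.exp (-(1 / (8 * (l : ℝ)))) :=
    Real.one_sub_le_exp_neg _
  have h2 : (1 - 1 / (8 * (l : ℝ))) ^ (12 * l * a) ≤
      Real.exp (-(1 / (8 * (l : ℝ)))) ^ (12 * l * a) := pow_le_pow_left₀ h0 h1 _
  have h3 : Real.exp (-(1 / (8 * (l : ℝ)))) ^ (12 * l * a) =
      Real.exp (-(3 / 2)) ^ a := by
    rw [← Real.exp_nat_mul, ← Real.exp_nat_mul]
    congr 1
    push_cast
    field_simp
    ring
  have h4 : Real.exp (-(3 / 2)) ≤ 1 / 4 := by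
    rw [Real.exp_neg, one_div]
    exact inv_anti₀ (by norm_num) exp_bound
  rw [h3] at h2
  exact h2.trans (pow_le_pow_left₀ (Real.exp_pos _).le h4 _)

theorem total (N t h : ℕ) (A : Finset (Fin N)) :
    ∑ ρ : Ix t h → Fin N, ∏ x : Ix t h,
      (Sum.elim (fun _ => if ρ x ∈ A then (1 / 2 : ℝ) else 1) (fun _ => 1) x) =
      ((N : ℝ) - A.card / 2) ^ t * (N : ℝ) ^ Fintype.card ((Fin t → Bool) × Fin h) := by
  have h1 := Finset.prod_univ_sum (fun _ : Ix t h => (univ : Finset (Fin N)))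
    (fun (x : Ix t h) (y : Fin N) =>
      (Sum.elim (fun _ => if y ∈ A then (1 / 2 : ℝ) else 1) (fun _ => 1) x))
  rw [Fintype.piFinset_univ] at h1
  rw [← h1, Fintype.prod_sum_type]
  congr 1
  · simp only [Sum.elim_inl]
    rw [Finset.prod_const, Finset.card_univ, Fintype.card_fin]
    congr 1
    have h2 : ∀ y : Fin N, (if y ∈ A then (1 / 2 : ℝ) else 1) =
        1 - (if y ∈ A then (1 / 2 : ℝ) else 0) := by
      intro y
      split_ifs <;> norm_num
    rw [Finset.sum_congr rfl fun y _ => h2 y, Finset.sum_sub_distrib, Finset.sum_const,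
      Finset.card_univ, Fintype.card_fin, Finset.sum_ite_mem, Finset.univ_inter,
      Finset.sum_const, nsmul_eq_mul, nsmul_eq_mul]
    ring
  · simp only [Sum.elim_inr]
    rw [Finset.prod_const, Finset.card_univ, Finset.sum_const, Finset.card_univ,
      Fintype.card_fin, nsmul_eq_mul, mul_one]

theorem weight {N t h : ℕ} (A : Finset (Fin N)) (ρ : Ix t h → Fin N) (c : Finset (Fin t))
    (hc : ∀ j, j ∈ c ↔ ρ (Sum.inl j) ∈ A) :
    ∏ x : Ix t h, (Sum.elim (fun _ => if ρ x ∈ A then (1 / 2 : ℝ) else 1) (fun _ => 1) x) =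
      (1 / 2 : ℝ) ^ c.card := by
  rw [Fintype.prod_sum_type]
  simp only [Sum.elim_inl, Sum.elim_inr, Finset.prod_const_one, mul_one]
  have h2 : ∀ j : Fin t, (if ρ (Sum.inl j) ∈ A then (1 / 2 : ℝ) else 1) =
      if j ∈ c then (1 / 2 : ℝ) else 1 := by
    intro j
    by_cases hj : j ∈ c
    · rw [if_pos hj, if_pos ((hc j).1 hj)]
    · rw [if_neg hj, if_neg fun h => hj ((hc j).2 h)]
  rw [Finset.prod_congr rfl fun j _ => h2 j, Finset.prod_ite_mem, Finset.univ_inter,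
    Finset.prod_const]

theorem key (N t h l a : ℕ) (A : Finset (Fin N)) (hl : 1 ≤ l) (hN : 2 * l ≤ N)
    (ha : 8 * l ≤ 2 ^ a) (ht : t = 12 * l * a) (hA : A.card = N / (2 * l))
    (Bd : Finset (Ix t h → Fin N))
    (hBd : ∀ ρ ∈ Bd, ∃ c : Finset (Fin t), (∀ j, j ∈ c ↔ ρ (Sum.inl j) ∈ A) ∧ c.card < a) :
    8 * l * Bd.card ≤ N ^ Fintype.card (Ix t h) := by
  have hcard : Fintype.card (Ix t h) = t + Fintype.card ((Fin t → Bool) × Fin h) := by
    rw [Fintype.card_sum, Fintype.card_fin]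
  set m := Fintype.card ((Fin t → Bool) × Fin h) with hm
  have hl' : (1 : ℝ) ≤ l := by exact_mod_cast hl
  have hN0 : (0 : ℝ) ≤ N := Nat.cast_nonneg _
  -- the sum of the weights
  have h1 : (Bd.card : ℝ) * (1 / 2) ^ a ≤ ((N : ℝ) - A.card / 2) ^ t * (N : ℝ) ^ m := by
    rw [← total N t h A]
    calc (Bd.card : ℝ) * (1 / 2) ^ a = ∑ _ρ ∈ Bd, (1 / 2 : ℝ) ^ a := by
          rw [Finset.sum_const, nsmul_eq_mul]
      _ ≤ ∑ ρ ∈ Bd, ∏ x : Ix t h,
            (Sum.elim (fun _ => if ρ x ∈ A then (1 / 2 : ℝ) else 1) (fun _ => 1) x) := by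
          refine Finset.sum_le_sum fun ρ hρ => ?_
          obtain ⟨c, hc, hca⟩ := hBd ρ hρ
          rw [weight A ρ c hc]
          exact pow_le_pow_of_le_one (by norm_num) (by norm_num) hca.le
      _ ≤ _ := by
          refine Finset.sum_le_sum_of_subset_of_nonneg (Finset.subset_univ _) ?_
          intro ρ _ _
          refine Finset.prod_nonneg fun x _ => ?_
          rcases x with x | x
          · simp only [Sum.elim_inl]
            split_ifs <;> norm_num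
          · simp only [Sum.elim_inr]
            norm_num
  -- the density of `A`
  have hdens : (N : ℝ) ≤ 4 * l * A.card := by
    have h2 : N < 2 * l * (N / (2 * l) + 1) := Nat.lt_mul_div_succ N (by omega)
    have h3 : 1 ≤ N / (2 * l) := (Nat.one_le_div_iff (by omega)).2 hN
    have h4 : N ≤ 4 * l * A.card := by
      rw [hA]
      calc N ≤ 2 * l * (N / (2 * l) + 1) := h2.le
        _ ≤ 2 * l * (2 * (N / (2 * l))) := Nat.mul_le_mul_left _ (by omega)
        _ = 4 * l * (N / (2 * l)) := by ring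
    exact_mod_cast h4
  have hAN : (A.card : ℝ) ≤ N := by
    have : A.card ≤ N := by simpa using Finset.card_le_univ A
    exact_mod_cast this
  have h5 : (N : ℝ) - A.card / 2 ≤ N * (1 - 1 / (8 * (l : ℝ))) := by
    have h6 : (N : ℝ) / (8 * l) ≤ A.card / 2 := by
      rw [div_le_iff₀ (by linarith)]
      calc (N : ℝ) ≤ 4 * l * A.card := hdens
        _ = A.card / 2 * (8 * l) := by ring
    have h7 : (N : ℝ) * (1 - 1 / (8 * (l : ℝ))) = N - N / (8 * l) := by ring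
    rw [h7]
    linarith
  have h8 : ((N : ℝ) - A.card / 2) ^ t ≤ (N : ℝ) ^ t * (1 / 4) ^ a := by
    have h9 : ((N : ℝ) - A.card / 2) ^ t ≤ (N * (1 - 1 / (8 * (l : ℝ)))) ^ t :=
      pow_le_pow_left₀ (by linarith) h5 t
    refine h9.trans ?_
    rw [mul_pow]
    refine mul_le_mul_of_nonneg_left ?_ (pow_nonneg hN0 t)
    rw [ht]
    exact pow_bound l a hl
  have h10 : (Bd.card : ℝ) * (1 / 2) ^ a ≤ (N : ℝ) ^ t * (1 / 4) ^ a * (N : ℝ) ^ m :=
    h1.trans (mul_le_mul_of_nonneg_right h8 (pow_nonneg hN0 m))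
  have h11 : (2 : ℝ) ^ a * Bd.card ≤ (N : ℝ) ^ (t + m) := by
    have h12 := mul_le_mul_of_nonneg_left h10 (show (0 : ℝ) ≤ 4 ^ a by positivity)
    have e1 : (4 : ℝ) ^ a * (Bd.card * (1 / 2) ^ a) = 2 ^ a * Bd.card := by
      have : (4 : ℝ) ^ a * (1 / 2) ^ a = 2 ^ a := by
        rw [← mul_pow]; norm_num
      calc (4 : ℝ) ^ a * (Bd.card * (1 / 2) ^ a) = (4 : ℝ) ^ a * (1 / 2) ^ a * Bd.card := by ring
        _ = _ := by rw [this]
    have e2 : (4 : ℝ) ^ a * ((N : ℝ) ^ t * (1 / 4) ^ a * (N : ℝ) ^ m) = (N : ℝ) ^ (t + m) := by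
      have : (4 : ℝ) ^ a * (1 / 4) ^ a = 1 := by
        rw [← mul_pow]; norm_num
      calc (4 : ℝ) ^ a * ((N : ℝ) ^ t * (1 / 4) ^ a * (N : ℝ) ^ m) =
          (4 : ℝ) ^ a * (1 / 4) ^ a * ((N : ℝ) ^ t * (N : ℝ) ^ m) := by ring
        _ = _ := by rw [this, one_mul, pow_add]
    rw [e1, e2] at h12
    exact h12
  have h13 : (8 * l * Bd.card : ℕ) ≤ 2 ^ a * Bd.card := Nat.mul_le_mul_right _ ha
  have h14 : 2 ^ a * Bd.card ≤ N ^ (t + m) := by exact_mod_cast h11
  rw [hcard]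
  exact h13.trans h14

end MEPT

/-- Module EPT. -/
theorem t_EPT : S_EPT := by
  intro N t h l a A hl hN ha ht hA
  refine MEPT.key N t h l a A hl hN ha ht hA _ fun ρ hρ => ?_
  refine ⟨_, fun j => ?_, (Finset.mem_filter.1 hρ).2⟩
  rw [Finset.mem_filter]
  exact ⟨fun h => h.2, fun h => ⟨Finset.mem_univ _, h⟩⟩

end Pool.Agent.DGO
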