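import Pool.Agent.DGO.St2

/-!
# FEW: the arrays falsified by a line are one of few sets
-/

set_option autoImplicit false

namespace Pool.Agent.DGO

open Finset Pool.Agent.OB

namespace MFEW

variable {I : Type} [Fintype I] [DecidableEq I] {N g t h : ℕ}

/-- a function of a state has few values -/
lemma card_image {α : Type} {k : ℕ} {β : Type} [DecidableEq β] (A : Finset α) (F : α → β)
    (st : α → Fin k) (b₀ : β) (key : ∀ p ∈ A, ∀ p' ∈ A, st p = st p' → F p = F p') :
    (A.image F).card ≤ k := by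
  have hφ : ∀ j : Fin k, ∃ b : β, ∀ p ∈ A, st p = j → F p = b := by
    intro j
    by_cases hj : ∃ p ∈ A, st p = j
    · obtain ⟨p, hp, hpj⟩ := hj
      exact ⟨F p, fun p' hp' hj' => key p' hp' p hp (hj'.trans hpj.symm)⟩
    · exact ⟨b₀, fun p hp hpj => absurd ⟨p, hp, hpj⟩ hj⟩
  choose φ hφ using hφ
  have hsub : A.image F ⊆ (univ : Finset (Fin k)).image φ := by
    intro b hb
    obtain ⟨p, hp, rfl⟩ := mem_image.1 hb
    exact mem_image.2 ⟨st p, mem_univ _, (hφ (st p) p hp rfl).symm⟩
  refine (card_le_card hsub).trans (card_image_le.trans ?_)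
  rw [card_univ, Fintype.card_fin]

end MFEW

/-- **FEW.** -/
theorem t_FEW (hOST : S_OST) (hEMB : S_EMB) : S_FEW := by
  intro I _ _ N g t h a s c τ so rep σ f hinj hA hrep hf
  obtain ⟨s', hs', hob⟩ := hf
  obtain ⟨st, hst1, hst2⟩ := hOST (LV I N g) σ s' f hob c
  obtain ⟨-, -, hE3⟩ := hEMB I N g t h τ so rep hinj
  have hΛ : ∀ i, ∃ Λ : Finset (Fin t), Λ ⊆ (univ.filter fun l : Fin t =>
      (σ (Sum.inl (τ i (so i) (Sum.inl l))) : ℕ) < c) ∧ Λ.card = a :=
    fun i => Finset.exists_subset_card_eq (hA i)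
  choose Λ hΛ1 hΛ2 using hΛ
  refine ⟨Λ, hΛ2, fun p₀ => ?_⟩
  -- the state does not depend on the array
  have hstV : ∀ (p : Ptr I t) (V : Arr I t),
      st (emb τ so rep p V) = st (emb τ so rep p fun _ _ => false) := by
    intro p V
    refine hst1 _ _ ?_
    rintro (x | ⟨i, j⟩) hv
    · refine hE3 p V p _ x (fun _ _ _ => rfl) (fun i q hx => ?_)
      rw [hx] at hv
      exact absurd (hrep i q) (not_le.2 hv)
    · rfl
  have key : ∀ p ∈ cls Λ p₀, ∀ p' ∈ cls Λ p₀,
      st (emb τ so rep p fun _ _ => false) = st (emb τ so rep p' fun _ _ => false) →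
      (univ.filter fun V : Arr I t => f (emb τ so rep p V) = false) =
        univ.filter fun V : Arr I t => f (emb τ so rep p' V) = false := by
    intro p hp p' hp' hpp
    have hp1 := (mem_filter.1 hp).2
    have hp1' := (mem_filter.1 hp').2
    ext V
    rw [mem_filter, mem_filter]
    have hff : f (emb τ so rep p V) = f (emb τ so rep p' V) := by
      refine hst2 _ _ (by rw [hstV p V, hstV p' V, hpp]) ?_
      rintro (x | ⟨i, j⟩) hv
      · refine hE3 p V p' V x (fun i l hx => ?_) (fun _ _ _ => rfl)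
        have hl : l ∉ Λ i := by
          intro hl
          have h1 := (mem_filter.1 (hΛ1 i hl)).2
          rw [hx] at hv
          exact absurd hv (not_le.2 h1)
        rw [hp1 i l hl, hp1' i l hl]
      · rfl
    rw [hff]
  refine le_trans ?_ hs'
  exact MFEW.card_image (cls Λ p₀) _ (fun p => st (emb τ so rep p fun _ _ => false)) ∅ key

end Pool.Agent.DGO
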