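import Pool.Agent.DGO.St2

set_option autoImplicit false

namespace Pool.Agent.DGO

open Finset Pool.Agent.OB

namespace MLFT

variable {I : Type} [Fintype I] [DecidableEq I] {N g t h : ℕ}

lemma mem_lift {τ : I → (Fin g → Bool) → Ix t h → Fin N} {G : CNF I} {D : Clause (LV I N g)} :
    D ∈ lift τ G ↔ ∃ C ∈ G, ∃ b : LV I N g → Bool, ¬ Sat (Z τ b) C ∧ cl τ C b = D := by
  classical
  unfold lift
  simp only [Finset.mem_biUnion, Finset.mem_image, Finset.mem_filter, Finset.mem_univ, true_and]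

lemma agree {τ : I → (Fin g → Bool) → Ix t h → Fin N} {C : Clause I} {b b' : LV I N g → Bool}
    (hs : ¬ Sat b (cl τ C b')) : ∀ i ∈ C.image Prod.fst, ∀ x ∈ look τ b' i, b x = b' x := by
  intro i hi x hx
  by_contra hne
  refine hs ⟨(x, !b' x), ?_, ?_⟩
  · unfold cl
    exact Finset.mem_image.2 ⟨x, Finset.mem_biUnion.2 ⟨i, hi, hx⟩, rfl⟩
  · show b x = !b' x
    cases h1 : b x <;> cases h2 : b' x <;> simp_all

lemma look_congr {τ : I → (Fin g → Bool) → Ix t h → Fin N} {b b' : LV I N g → Bool} {i : I}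
    (hl : ∀ x ∈ look τ b' i, b x = b' x) :
    sel b i = sel b' i ∧ ptr τ b i = ptr τ b' i ∧ cpy τ b i = cpy τ b' i := by
  have h1 : sel b i = sel b' i := by
    funext j
    refine hl _ ?_
    unfold look
    exact Finset.mem_union_left _ (Finset.mem_union_left _ (Finset.mem_image.2 ⟨j, mem_univ _, rfl⟩))
  have h2 : ptr τ b i = ptr τ b' i := by
    funext l
    unfold ptr
    rw [h1]
    refine hl _ ?_
    unfold look
    exact Finset.mem_union_left _ (Finset.mem_union_right _ (Finset.mem_image.2 ⟨l, mem_univ _, rfl⟩))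
  refine ⟨h1, h2, ?_⟩
  funext j
  unfold cpy
  rw [h1, h2]
  refine hl _ ?_
  unfold look
  exact Finset.mem_union_right _ (Finset.mem_image.2 ⟨j, mem_univ _, rfl⟩)

lemma sat_congr {C : Clause I} {z z' : I → Bool} (hz : ∀ i ∈ C.image Prod.fst, z i = z' i) :
    Sat z C ↔ Sat z' C := by
  constructor
  · rintro ⟨l, hl, h'⟩
    exact ⟨l, hl, by rw [← hz _ (Finset.mem_image_of_mem _ hl)]; exact h'⟩
  · rintro ⟨l, hl, h'⟩
    exact ⟨l, hl, by rw [hz _ (Finset.mem_image_of_mem _ hl)]; exact h'⟩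

lemma card_look (τ : I → (Fin g → Bool) → Ix t h → Fin N) (b : LV I N g → Bool) (i : I) :
    (look τ b i).card ≤ g + t + h := by
  unfold look
  refine (Finset.card_union_le _ _).trans (Nat.add_le_add ((Finset.card_union_le _ _).trans
    (Nat.add_le_add ?_ ?_)) ?_)
  · exact Finset.card_image_le.trans (by simp)
  · exact Finset.card_image_le.trans (by simp)
  · exact Finset.card_image_le.trans (by simp)

/-- the part of a clause that belongs to one block -/
def piece (τ : I → (Fin g → Bool) → Ix t h → Fin N) (i : I)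
    (k : (Fin g → Bool) × (Fin t → Bool) × (Fin h → Bool)) : Clause (LV I N g) :=
  ((univ.image fun j : Fin g => ((Sum.inr (i, j) : LV I N g), !k.1 j)) ∪
  (univ.image fun l : Fin t => ((Sum.inl (τ i k.1 (Sum.inl l)) : LV I N g), !k.2.1 l))) ∪
  (univ.image fun j : Fin h => ((Sum.inl (τ i k.1 (Sum.inr (k.2.1, j))) : LV I N g), !k.2.2 j))

lemma cl_eq (τ : I → (Fin g → Bool) → Ix t h → Fin N) (C : Clause I) (b : LV I N g → Bool) :
    cl τ C b = (C.image Prod.fst).attach.biUnion fun i =>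
      piece τ i.1 (sel b i.1, ptr τ b i.1, cpy τ b i.1) := by
  have h1 : ∀ i, (look τ b i).image (fun x => (x, !b x)) =
      piece τ i (sel b i, ptr τ b i, cpy τ b i) := by
    intro i
    unfold look piece
    rw [Finset.image_union, Finset.image_union, Finset.image_image, Finset.image_image,
      Finset.image_image]
    rfl
  unfold cl
  ext x
  constructor
  · intro hx
    obtain ⟨y, hy, rfl⟩ := Finset.mem_image.1 hx
    obtain ⟨i, hi, hyi⟩ := Finset.mem_biUnion.1 hy
    refine Finset.mem_biUnion.2 ⟨⟨i, hi⟩, Finset.mem_attach _ _, ?_⟩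
    rw [← h1 i]
    exact Finset.mem_image_of_mem _ hyi
  · intro hx
    obtain ⟨i, _, hi⟩ := Finset.mem_biUnion.1 hx
    rw [← h1 i.1] at hi
    obtain ⟨y, hy, rfl⟩ := Finset.mem_image.1 hi
    exact Finset.mem_image_of_mem _ (Finset.mem_biUnion.2 ⟨i.1, i.2, hy⟩)

lemma card_cls (τ : I → (Fin g → Bool) → Ix t h → Fin N) (C : Clause I) (hC : C.card ≤ 3)
    (B : Finset (LV I N g → Bool)) : (B.image (cl τ C)).card ≤ 2 ^ (3 * (g + t + h)) := by
  have hsub : B.image (cl τ C) ⊆ (univ : Finset ({i // i ∈ C.image Prod.fst} →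
      (Fin g → Bool) × (Fin t → Bool) × (Fin h → Bool))).image
      (fun k => (C.image Prod.fst).attach.biUnion fun i => piece τ i.1 (k i)) := by
    intro D hD
    obtain ⟨b, _, rfl⟩ := Finset.mem_image.1 hD
    refine Finset.mem_image.2 ⟨fun i => (sel b i.1, ptr τ b i.1, cpy τ b i.1), mem_univ _, ?_⟩
    exact (cl_eq τ C b).symm
  refine (Finset.card_le_card hsub).trans (Finset.card_image_le.trans ?_)
  rw [Finset.card_univ, Fintype.card_fun, Fintype.card_prod, Fintype.card_prod, Fintype.card_fun,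
    Fintype.card_fun, Fintype.card_fun, Fintype.card_bool, Fintype.card_fin, Fintype.card_fin,
    Fintype.card_fin, Fintype.card_coe, ← pow_add, ← pow_add, ← pow_mul]
  refine Nat.pow_le_pow_right (by norm_num) ?_
  have h3 : (C.image Prod.fst).card ≤ 3 := Finset.card_image_le.trans hC
  calc (g + (t + h)) * (C.image Prod.fst).card ≤ (g + (t + h)) * 3 := Nat.mul_le_mul_left _ h3
    _ = 3 * (g + t + h) := by ring

end MLFT

open MLFT

theorem t_LFT : S_LFT := by
  classical
  intro I _ _ N g t h τ G hG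
  refine ⟨?_, ?_, ?_, ?_, ?_⟩
  · intro D hD
    obtain ⟨C, hC, b', hb', rfl⟩ := mem_lift.1 hD
    refine ⟨C, hC, fun b hb hs => hb' ?_⟩
    refine (sat_congr fun i hi => ?_).1 hs
    have h1 := (look_congr (agree hb i hi)).2.2
    unfold Z
    rw [h1]
  · intro hU b
    obtain ⟨C, hC, hs⟩ := hU (Z τ b)
    refine ⟨cl τ C b, mem_lift.2 ⟨C, hC, b, hs, rfl⟩, ?_⟩
    rintro ⟨l, hl, h'⟩
    unfold cl at hl
    obtain ⟨x, _, rfl⟩ := Finset.mem_image.1 hl
    have h'' : b x = !b x := h'
    cases h1 : b x <;> rw [h1] at h'' <;> simp at h''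
  · intro D hD
    obtain ⟨C, hC, b, hb, rfl⟩ := mem_lift.1 hD
    rintro ⟨v, h1, h2⟩
    unfold cl at h1 h2
    obtain ⟨x, _, hx⟩ := Finset.mem_image.1 h1
    obtain ⟨y, _, hy⟩ := Finset.mem_image.1 h2
    rw [Prod.mk.injEq] at hx hy
    obtain ⟨hx1, hx2⟩ := hx
    obtain ⟨hy1, hy2⟩ := hy
    rw [hx1] at hx2
    rw [hy1, hx2] at hy2
    exact absurd hy2 (by simp)
  · intro D hD
    obtain ⟨C, hC, b, hb, rfl⟩ := mem_lift.1 hD
    unfold cl
    refine Finset.card_image_le.trans (Finset.card_biUnion_le.trans ?_)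
    refine (Finset.sum_le_sum fun i _ => card_look τ b i).trans ?_
    rw [Finset.sum_const, smul_eq_mul]
    exact Nat.mul_le_mul_right _ (Finset.card_image_le.trans (hG C hC))
  · unfold lift
    refine Finset.card_biUnion_le.trans ?_
    refine (Finset.sum_le_sum fun C hC => card_cls τ C (hG C hC) _).trans ?_
    rw [Finset.sum_const, smul_eq_mul]

end Pool.Agent.DGO
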