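import Pool.Agent.DGO.St3

/-!
# DGO: module NUM, the numbers
-/

set_option autoImplicit false

namespace Pool.Agent.DGO

namespace MNUM

lemma sq_le_two_pow (x : ℕ) : x ^ 2 ≤ 2 ^ (x + 1) := by
  induction x with
  | zero => norm_num
  | succ x ih =>
    rcases Nat.lt_or_ge x 3 with h | h
    · interval_cases x <;> norm_num
    · have h1 : (x + 1) ^ 2 ≤ 2 * x ^ 2 := by nlinarith
      calc (x + 1) ^ 2 ≤ 2 * x ^ 2 := h1
        _ ≤ 2 * 2 ^ (x + 1) := Nat.mul_le_mul_left _ ih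
        _ = 2 ^ (x + 1 + 1) := by ring

lemma add_three_le (x : ℕ) (h : 3 ≤ x) : x + 3 ≤ 2 ^ x := by
  induction x, h using Nat.le_induction with
  | base => norm_num
  | succ x hx ih =>
    have : 1 ≤ 2 ^ x := Nat.one_le_two_pow
    rw [pow_succ]
    omega

/-- Upper bound for the ceiling of the logarithm. -/
lemma pow_clog_le (x : ℕ) (h : 2 ≤ x) : 2 ^ Nat.clog 2 x ≤ 2 * x := by
  have h1 := Nat.pow_pred_clog_lt_self (b := 2) (by norm_num) h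
  have h2 : 1 ≤ Nat.clog 2 x := Nat.clog_pos (by norm_num) h
  obtain ⟨y, hy⟩ : ∃ y, Nat.clog 2 x = y + 1 := ⟨Nat.clog 2 x - 1, by omega⟩
  rw [hy] at h1 ⊢
  rw [pow_succ]
  simp only [Nat.pred_eq_sub_one, Nat.add_sub_cancel] at h1
  omega

/-- Bounds for `n` and `a'`. -/
lemma part1 (l m n a' : ℕ) (hl : 1 ≤ l) (hm : 2 ^ 20 * l ≤ m) (hn : n = (m + 1) * (2 * m + 1))
    (ha : a' = Nat.clog 2 (512 * n ^ 5)) :
    n ≤ m ^ 3 ∧ m ≤ n ∧ 2 ^ 41 ≤ n ∧ 512 * n ^ 5 ≤ 2 ^ a' ∧ 2 ^ a' ≤ m ^ 16 ∧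
      2 ^ a' ≤ 1024 * n ^ 5 := by
  have hm1 : 2 ^ 20 ≤ m := le_trans (by nlinarith) hm
  have h1 : n ≤ 3 * m ^ 2 := by
    rw [hn]
    nlinarith
  have h2 : 3 * m ^ 2 ≤ m ^ 3 := by
    rw [pow_succ m 2, mul_comm 3]
    exact Nat.mul_le_mul_left _ (by omega)
  have h3 : m ≤ n := by
    rw [hn]
    nlinarith
  have h4 : 2 ^ 41 ≤ n := by
    have : 2 ^ 20 * 2 ^ 20 ≤ m * m := Nat.mul_le_mul hm1 hm1
    rw [hn]
    nlinarith
  have h5 : 512 * n ^ 5 ≤ 2 ^ a' := by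
    rw [ha]
    exact Nat.le_pow_clog (by norm_num) _
  have h6 : 2 ^ a' ≤ 1024 * n ^ 5 := by
    rw [ha]
    have h7 : 1 ≤ n ^ 5 := Nat.one_le_pow _ _ (by omega)
    have h8 := pow_clog_le (512 * n ^ 5) (by omega)
    omega
  have h7 : 1024 * n ^ 5 ≤ m ^ 16 := by
    have h8 : n ^ 5 ≤ (m ^ 3) ^ 5 := Nat.pow_le_pow_left (h1.trans h2) 5
    have h9 : 1024 ≤ m := by omega
    calc 1024 * n ^ 5 ≤ m * (m ^ 3) ^ 5 := Nat.mul_le_mul h9 h8
      _ = m ^ 16 := by ring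
  exact ⟨h1.trans h2, h3, h4, h5, h6.trans h7, h6⟩

/-- The condition with `4 ^ d`. -/
lemma part2 (l m n a' t : ℕ) (hl : l ≤ n) (hm : m ≤ n) (hn : 1 ≤ n) (h5 : 512 * n ^ 5 ≤ 2 ^ a')
    (h6 : 2 ^ a' ≤ 1024 * n ^ 5) (ht : t = 12 * l * (4 * a')) :
    4 * n * (256 * n ^ 5) ^ n * 4 ^ (n * t + 3 * n + 1 + m) ≤ 2 ^ ((2 ^ a') ^ 2 / 2) := by
  have hn2 : n ≤ 2 ^ n := Nat.lt_two_pow_self.le
  have ha : a' ≤ 16 * n := by
    have h1 : 2 ^ a' ≤ 2 ^ (10 + 5 * n) := by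
      calc 2 ^ a' ≤ 1024 * n ^ 5 := h6
        _ ≤ 1024 * (2 ^ n) ^ 5 := Nat.mul_le_mul_left _ (Nat.pow_le_pow_left hn2 5)
        _ = 2 ^ (10 + 5 * n) := by rw [pow_add, ← pow_mul, mul_comm n 5]; norm_num
    have h2 := (Nat.pow_le_pow_iff_right (by norm_num : 1 < 2)).1 h1
    omega
  have ht2 : t ≤ 768 * n ^ 2 := by
    rw [ht]
    calc 12 * l * (4 * a') ≤ 12 * n * (4 * (16 * n)) :=
          Nat.mul_le_mul (Nat.mul_le_mul_left _ hl) (Nat.mul_le_mul_left _ ha)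
      _ = 768 * n ^ 2 := by ring
  have e1 : 4 * n ≤ 2 ^ (2 + n) := by
    rw [pow_add]
    exact Nat.mul_le_mul_left _ hn2
  have e2 : (256 * n ^ 5) ^ n ≤ 2 ^ ((8 + 5 * n) * n) := by
    rw [pow_mul]
    refine Nat.pow_le_pow_left ?_ n
    rw [pow_add, mul_comm 5 n, pow_mul]
    exact Nat.mul_le_mul_left _ (Nat.pow_le_pow_left hn2 5)
  have e3 : 4 ^ (n * t + 3 * n + 1 + m) = 2 ^ (2 * (n * t + 3 * n + 1 + m)) := by
    rw [pow_mul]
    norm_num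
  have e4 : 4 * n * (256 * n ^ 5) ^ n * 4 ^ (n * t + 3 * n + 1 + m) ≤
      2 ^ ((2 + n) + (8 + 5 * n) * n + 2 * (n * t + 3 * n + 1 + m)) := by
    rw [e3, pow_add, pow_add]
    exact Nat.mul_le_mul_right _ (Nat.mul_le_mul e1 e2)
  refine e4.trans (Nat.pow_le_pow_right (by norm_num) ?_)
  rw [Nat.le_div_iff_mul_le (by norm_num)]
  have h7 : (512 * n ^ 5) ^ 2 ≤ (2 ^ a') ^ 2 := Nat.pow_le_pow_left h5 2
  refine le_trans ?_ h7
  have h8 : n * t ≤ 768 * n ^ 3 := by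
    calc n * t ≤ n * (768 * n ^ 2) := Nat.mul_le_mul_left _ ht2
      _ = 768 * n ^ 3 := by ring
  have h9 : n ≤ n ^ 3 := Nat.le_self_pow (by norm_num) n
  have h10 : n ^ 2 ≤ n ^ 3 := Nat.pow_le_pow_right hn (by norm_num)
  have h11 : n ^ 3 ≤ n ^ 10 := Nat.pow_le_pow_right hn (by norm_num)
  have h12 : 1 ≤ n ^ 3 := Nat.one_le_pow _ _ hn
  have h13 : (2 + n + (8 + 5 * n) * n + 2 * (n * t + 3 * n + 1 + m)) * 2 ≤ 4000 * n ^ 3 := by
    have e5 : (8 + 5 * n) * n = 8 * n + 5 * n ^ 2 := by ring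
    rw [e5]
    omega
  calc (2 + n + (8 + 5 * n) * n + 2 * (n * t + 3 * n + 1 + m)) * 2 ≤ 4000 * n ^ 3 := h13
    _ ≤ 512 ^ 2 * n ^ 10 := Nat.mul_le_mul (by norm_num) h11
    _ = (512 * n ^ 5) ^ 2 := by ring

/-- The natural inequalities. -/
lemma part3 (l m N n a' g t : ℕ) (hl : 1 ≤ l) (hm : 2 ^ 20 * l ≤ m) (hN : m ^ (8000 * l) ≤ N)
    (hn : n = (m + 1) * (2 * m + 1)) (ha : a' = Nat.clog 2 (512 * n ^ 5))
    (ht : t = 12 * l * (4 * a')) (hg : g = Nat.clog 2 (N * (l + 1) + n)) :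
    2 * (n * g) ≤ N ∧ 8 * l ≤ 2 ^ (4 * a') ∧ 2 * (8 * (t + 2 ^ t * (t + 3)) ^ 2 * n) ≤ N ∧
      N * (l + 1) + n ≤ 2 ^ g ∧ 4 * l ≤ N ∧
      4 * (m + 1) ^ 3 * 2 ^ (3 * (g + t + (t + 3))) ≤ N ^ 12 ∧
      2 ^ (3 * (g + t + (t + 3))) ≤ N ^ 11 := by
  obtain ⟨p1, p2, p3, p4, p5, p6⟩ := part1 l m n a' hl hm hn ha
  have hm1 : 2 ^ 20 ≤ m := le_trans (by nlinarith) hm
  have hm0 : 1 ≤ m := by omega
  have hlm : l ≤ m := by omega
  have pw : ∀ k, k ≤ 8000 * l → m ^ k ≤ N := fun k hk =>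
    (Nat.pow_le_pow_right hm0 hk).trans hN
  have hN0 : 1 ≤ N := by
    have := pw 0 (by omega)
    simpa using this
  have hmN : m ≤ N := by
    have := pw 1 (by omega)
    simpa using this
  -- `2 ^ t`
  have ht1 : 2 ^ t ≤ m ^ (768 * l) := by
    have e : t = a' * (48 * l) := by rw [ht]; ring
    rw [e, pow_mul]
    calc (2 ^ a') ^ (48 * l) ≤ (m ^ 16) ^ (48 * l) := Nat.pow_le_pow_left p5 _
      _ = m ^ (768 * l) := by rw [← pow_mul]; congr 1; ring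
  -- `g`
  have hg1 : N * (l + 1) + n ≤ 2 ^ g := by
    rw [hg]
    exact Nat.le_pow_clog (by norm_num) _
  have hnN : n ≤ N := p1.trans (pw 3 (by omega))
  have hg2 : 2 ^ g ≤ N ^ 3 := by
    have h1 : 2 ^ g ≤ 2 * (N * (l + 1) + n) := by
      rw [hg]
      refine pow_clog_le _ ?_
      have : N * 1 ≤ N * (l + 1) := Nat.mul_le_mul_left _ (by omega)
      omega
    have h2 : 2 * (l + 2) ≤ N ^ 2 := by nlinarith
    calc 2 ^ g ≤ 2 * (N * (l + 1) + n) := h1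
      _ ≤ 2 * (N * (l + 1) + N) := by omega
      _ = N * (2 * (l + 2)) := by ring
      _ ≤ N * N ^ 2 := Nat.mul_le_mul_left _ h2
      _ = N ^ 3 := by ring
  have hx : g ≤ 3 * (Nat.log 2 N + 1) := by
    have h1 : N ^ 3 ≤ (2 ^ (Nat.log 2 N + 1)) ^ 3 :=
      Nat.pow_le_pow_left (Nat.lt_pow_succ_log_self (by norm_num) N).le 3
    rw [← pow_mul] at h1
    have h2 := (Nat.pow_le_pow_iff_right (by norm_num : 1 < 2)).1 (hg2.trans h1)
    omega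
  have hng : 2 * (n * g) ≤ N := by
    set x := Nat.log 2 N + 1 with hxd
    have h1 : x ^ 2 ≤ 4 * N := by
      have h2 := sq_le_two_pow x
      have h3 : 2 ^ Nat.log 2 N ≤ N := Nat.pow_log_le_self 2 (by omega)
      have h4 : 2 ^ (x + 1) = 4 * 2 ^ Nat.log 2 N := by
        rw [hxd]
        ring
      omega
    have h2 : 144 * n ^ 2 ≤ N := by
      calc 144 * n ^ 2 ≤ m * (m ^ 3) ^ 2 := Nat.mul_le_mul (by omega) (Nat.pow_le_pow_left p1 2)
        _ = m ^ 7 := by ring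
        _ ≤ N := pw 7 (by omega)
    have h3 : (2 * (n * g)) ^ 2 ≤ N ^ 2 := by
      calc (2 * (n * g)) ^ 2 ≤ (2 * (n * (3 * x))) ^ 2 :=
            Nat.pow_le_pow_left (Nat.mul_le_mul_left _ (Nat.mul_le_mul_left _ hx)) 2
        _ = 36 * n ^ 2 * x ^ 2 := by ring
        _ ≤ 36 * n ^ 2 * (4 * N) := Nat.mul_le_mul_left _ h1
        _ = (144 * n ^ 2) * N := by ring
        _ ≤ N * N := Nat.mul_le_mul_right _ h2
        _ = N ^ 2 := by ring
    exact (Nat.pow_le_pow_iff_left (by norm_num)).1 h3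
  -- `8 l`
  have h8l : 8 * l ≤ 2 ^ (4 * a') := by
    calc 8 * l ≤ n := by omega
      _ ≤ n ^ 5 := Nat.le_self_pow (by norm_num) n
      _ ≤ 512 * n ^ 5 := by omega
      _ ≤ 2 ^ a' := p4
      _ ≤ 2 ^ (4 * a') := Nat.pow_le_pow_right (by norm_num) (by omega)
  have ha1 : 1 ≤ a' := by
    by_contra h
    have h0 : a' = 0 := by omega
    rw [h0] at p4
    have : 1 ≤ n ^ 5 := Nat.one_le_pow _ _ (by omega)
    simp at p4
    omega
  have ht3 : 3 ≤ t := by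
    rw [ht]
    nlinarith
  have hq : t + 2 ^ t * (t + 3) ≤ 2 ^ (2 * t + 1) := by
    have h1 := add_three_le t ht3
    have h2 : 2 ^ t ≤ 2 ^ t * 2 ^ t := Nat.le_mul_of_pos_right _ (by positivity)
    calc t + 2 ^ t * (t + 3) ≤ 2 ^ t + 2 ^ t * 2 ^ t :=
          Nat.add_le_add (by omega) (Nat.mul_le_mul_left _ h1)
      _ ≤ 2 ^ t * 2 ^ t + 2 ^ t * 2 ^ t := Nat.add_le_add_right h2 _
      _ = 2 ^ (2 * t + 1) := by ring
  have h8 : 2 * (8 * (t + 2 ^ t * (t + 3)) ^ 2 * n) ≤ N := by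
    calc 2 * (8 * (t + 2 ^ t * (t + 3)) ^ 2 * n) ≤ 2 * (8 * (2 ^ (2 * t + 1)) ^ 2 * n) := by
          gcongr
      _ = 64 * (2 ^ t) ^ 4 * n := by
          have : (2 ^ (2 * t + 1)) ^ 2 = 4 * (2 ^ t) ^ 4 := by
            rw [← pow_mul, ← pow_mul, show (2 * t + 1) * 2 = t * 4 + 2 by ring, pow_add]
            ring
          rw [this]
          ring
      _ ≤ m * (m ^ (768 * l)) ^ 4 * m ^ 3 := by
          gcongr
          omega
      _ = m ^ (3072 * l + 4) := by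
          rw [← pow_mul, ← pow_succ', ← pow_add]
          congr 1
          ring
      _ ≤ N := pw _ (by omega)
  have h4l : 4 * l ≤ N := by omega
  have hs : 2 ^ (3 * (g + t + (t + 3))) ≤ N ^ 11 := by
    calc 2 ^ (3 * (g + t + (t + 3))) = (2 ^ g) ^ 3 * ((2 ^ t) ^ 6 * 2 ^ 9) := by
          rw [← pow_mul, ← pow_mul, ← pow_add, ← pow_add]
          congr 1
          ring
      _ ≤ (N ^ 3) ^ 3 * (N * N) := by
          refine Nat.mul_le_mul (Nat.pow_le_pow_left hg2 3) (Nat.mul_le_mul ?_ (by omega))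
          calc (2 ^ t) ^ 6 ≤ (m ^ (768 * l)) ^ 6 := Nat.pow_le_pow_left ht1 6
            _ = m ^ (4608 * l) := by rw [← pow_mul]; congr 1; ring
            _ ≤ N := pw _ (by omega)
      _ = N ^ 11 := by ring
  refine ⟨hng, h8l, h8, hg1, h4l, ?_, hs⟩
  have h9 : 4 * (m + 1) ^ 3 ≤ N := by
    calc 4 * (m + 1) ^ 3 ≤ 4 * (2 * m) ^ 3 :=
          Nat.mul_le_mul_left _ (Nat.pow_le_pow_left (by omega) 3)
      _ = 32 * m ^ 3 := by ring
      _ ≤ m * m ^ 3 := Nat.mul_le_mul_right _ (by omega)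
      _ = m ^ 4 := by ring
      _ ≤ N := pw 4 (by omega)
  calc 4 * (m + 1) ^ 3 * 2 ^ (3 * (g + t + (t + 3))) ≤ N * N ^ 11 := Nat.mul_le_mul h9 hs
    _ = N ^ 12 := by ring

/-- The last claim. -/
lemma part4 (l m N n : ℕ) (hl : 1 ≤ l) (hm : 2 ^ 20 ≤ m) (hN : N < (m + 1) ^ (8000 * l))
    (hn : 2 ^ 41 ≤ n) (s L : ℕ) (h : 2 ^ m < L ∨ n ^ (m / 3) ≤ L * s) :
    (2 : ℝ) ^ ((N : ℝ) ^ ((1 / 16000 : ℝ) / l)) ≤ (max s L : ℕ) := by
  have hl0 : (0 : ℝ) < l := by exact_mod_cast hl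
  have hmr : (2 : ℝ) ^ 20 ≤ m := by exact_mod_cast hm
  -- the exponent
  have h1 : (N : ℝ) ^ ((1 / 16000 : ℝ) / l) ≤ (m : ℝ) / 2 := by
    have h2 : (N : ℝ) ≤ ((m : ℝ) + 1) ^ (8000 * l) := by exact_mod_cast hN.le
    have h3 : (N : ℝ) ^ ((1 / 16000 : ℝ) / l) ≤
        (((m : ℝ) + 1) ^ (8000 * l)) ^ ((1 / 16000 : ℝ) / l) :=
      Real.rpow_le_rpow (by positivity) h2 (by positivity)
    have h4 : (((m : ℝ) + 1) ^ (8000 * l)) ^ ((1 / 16000 : ℝ) / l) = Real.sqrt ((m : ℝ) + 1) := by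
      rw [← Real.rpow_natCast, ← Real.rpow_mul (by positivity), Real.sqrt_eq_rpow]
      congr 1
      push_cast
      field_simp
      norm_num
    rw [h4] at h3
    refine h3.trans ?_
    rw [Real.sqrt_le_left (by positivity)]
    nlinarith
  have h2 : (2 : ℝ) ^ ((N : ℝ) ^ ((1 / 16000 : ℝ) / l)) ≤ (2 : ℝ) ^ ((m : ℝ) / 2) :=
    Real.rpow_le_rpow_of_exponent_le (by norm_num) h1
  refine h2.trans ?_
  have h3 : ((2 : ℝ) ^ ((m : ℝ) / 2)) ^ 2 = (2 : ℝ) ^ m := by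
    rw [← Real.rpow_natCast, ← Real.rpow_mul (by norm_num), ← Real.rpow_natCast]
    congr 1
    push_cast
    ring
  have h4 : (2 : ℝ) ^ m ≤ ((max s L : ℕ) : ℝ) ^ 2 := by
    have h5 : 2 ^ m ≤ (max s L) ^ 2 := by
      rcases h with h | h
      · calc 2 ^ m ≤ L := h.le
          _ ≤ max s L := le_max_right _ _
          _ ≤ (max s L) ^ 2 := Nat.le_self_pow (by norm_num) _
      · calc 2 ^ m ≤ 2 ^ (41 * (m / 3)) := Nat.pow_le_pow_right (by norm_num) (by omega)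
          _ = (2 ^ 41) ^ (m / 3) := by rw [pow_mul]
          _ ≤ n ^ (m / 3) := Nat.pow_le_pow_left hn _
          _ ≤ L * s := h
          _ ≤ max s L * max s L := Nat.mul_le_mul (le_max_right _ _) (le_max_left _ _)
          _ = (max s L) ^ 2 := by ring
    exact_mod_cast h5
  exact (pow_le_pow_iff_left₀ (by positivity) (by positivity) (by norm_num)).1 (h3.trans_le h4)

end MNUM

open MNUM in
/-- NUM: the numbers. -/
theorem t_NUM : S_NUM := by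
  refine ⟨2 ^ 20, by norm_num, ?_⟩
  intro l hl N hN
  set m := Nat.findGreatest (fun m => m ^ (8000 * l) ≤ N) N with hmd
  have hKl : (2 ^ 20 * l) ^ (8000 * l) ≤ N := by
    refine le_trans (Nat.pow_le_pow_right (by omega) ?_) hN
    exact Nat.mul_le_mul_right _ (by norm_num)
  have hKN : 2 ^ 20 * l ≤ N := le_trans (Nat.le_self_pow (by omega) _) hKl
  have hm : 2 ^ 20 * l ≤ m := Nat.le_findGreatest hKN hKl
  have hm1 : 2 ^ 20 ≤ m := le_trans (by omega) hm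
  have h1 : m ^ (8000 * l) ≤ N := Nat.findGreatest_spec (P := fun m => m ^ (8000 * l) ≤ N) hKN hKl
  have h2 : N < (m + 1) ^ (8000 * l) := by
    by_contra hcon
    have hcon' : (m + 1) ^ (8000 * l) ≤ N := by omega
    have h3 : m + 1 ≤ N := le_trans (Nat.le_self_pow (by omega) _) hcon'
    have h4 := Nat.le_findGreatest (P := fun m => m ^ (8000 * l) ≤ N) h3 hcon'
    omega
  set n := (m + 1) * (2 * m + 1) with hn
  set a' := Nat.clog 2 (512 * n ^ 5) with ha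
  set t := 12 * l * (4 * a') with ht
  set g := Nat.clog 2 (N * (l + 1) + n) with hg
  obtain ⟨p1, p2, p3, p4, p5, p6⟩ := part1 l m n a' hl hm hn ha
  obtain ⟨r1, r2, r3, r4, r5, r6, r7⟩ := part3 l m N n a' g t hl hm h1 hn ha ht hg
  have hN0 : 1 ≤ N := by omega
  have hlog : 1 ≤ Nat.log 2 N := Nat.log_pos (by norm_num) (by omega)
  refine ⟨m, a', g, N - n * g, n, t, hn, ht, by omega, by omega, by omega, by omega, r2, by omega,
    ?_, p4, ?_, ?_, ?_, ?_⟩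
  · exact le_trans (Nat.add_le_add_right (Nat.mul_le_mul_right _ (Nat.sub_le _ _)) _) r4
  · exact part2 l m n a' t (by omega) p2 (by omega) p4 p6 ht
  · exact r6.trans (Nat.pow_le_pow_right hN0 (by norm_num))
  · have h3 : N ^ 11 < (2 ^ (Nat.log 2 N + 1)) ^ 11 :=
      Nat.pow_lt_pow_left (Nat.lt_pow_succ_log_self (by norm_num) N) (by norm_num)
    rw [← pow_mul] at h3
    have h4 := (Nat.pow_lt_pow_iff_right (by norm_num : 1 < 2)).1 (r7.trans_lt h3)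
    have h5 : 22 * Nat.log 2 N ≤ 2 ^ 20 * Nat.log 2 N := Nat.mul_le_mul_right _ (by norm_num)
    omega
  · intro s L h
    exact part4 l m N n hl hm1 h2 p3 s L h

end Pool.Agent.DGO
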