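import Pool.Agent.DGO.St3

/-!
# Project DGO: module REF (the lower bound for a good table)
-/

set_option autoImplicit false

namespace Pool.Agent.DGO

open Finset Pool.Agent.OB

namespace MREF

/-- a line from a clause: the arrays it falsifies falsify a clause of the base formula -/
theorem ax_line (hEMB : S_EMB) (hLFT : S_LFT) (I : Type) [Fintype I] [DecidableEq I]
    (N g t h : ℕ) (G : CNF I) (hG3 : ∀ C ∈ G, C.card ≤ 3)
    (τ : I → (Fin g → Bool) → Ix t h → Fin N) (so : I → Fin g → Bool)
    (rep : I → (Fin t → Bool) → Fin h)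
    (hinj : Function.Injective fun v : I × Ix t h => τ v.1 (so v.1) v.2)
    (f : (LV I N g → Bool) → Bool) (D : Clause (LV I N g)) (hD : D ∈ lift τ G)
    (hDf : ∀ x, Sat x D → f x = true) :
    ∃ C ∈ G, ∀ (p : Ptr I t) (V : Arr I t), f (emb τ so rep p V) = false →
      ¬ Sat (fun i => V i (p i)) C := by
  obtain ⟨C, hC, hCD⟩ := (hLFT I N g t h τ G hG3).1 D hD
  refine ⟨C, hC, ?_⟩
  intro p V hf
  have h1 : ¬ Sat (emb τ so rep p V) D := by
    intro hs
    have h2 := hDf _ hs
    rw [h2] at hf
    exact absurd hf (by decide)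
  have h3 := hCD _ h1
  have h4 : Z τ (emb τ so rep p V) = fun i => V i (p i) := by
    funext i
    exact (hEMB I N g t h τ so rep hinj).1 p V i
  rw [h4] at h3
  exact h3

end MREF

/-- REF: the lower bound for a good table. -/
theorem t_REF (hEMB : S_EMB) (hFEW : S_FEW) (hCTL : S_CTL) (hLFT : S_LFT) (hCORE : S_CORE) :
    S_REF := by
  intro I _ _ N g t h l a' d r w s L lg G H τ hl hτ hn h512 h4 hd hL hS h3r hG3 hr3 hdag
  obtain ⟨ord, o, f, hk, hlast⟩ := hdag
  -- the cuts
  have hcut : ∀ k : Fin l, ∃ c : ℕ,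
      (univ.filter fun x : Fin N => (ord k (Sum.inl x) : ℕ) < c).card = N / (2 * l) := by
    intro k
    exact hCTL (LV I N g) N (N / (2 * l)) Sum.inl (ord k) Sum.inl_injective
      (Nat.div_le_self _ _)
  choose c hc using hcut
  obtain ⟨so, hinj, hpt, hrep⟩ :=
    hτ (fun k => univ.filter fun x : Fin N => (ord k (Sum.inl x) : ℕ) < c k) hc
  choose rep hrep' using hrep
  refine hCORE I t a' d r w L s lg G H
    (fun v p => univ.filter fun V : Arr I t => f v (emb τ so rep p V) = false)
    hn h512 h4 hd hL hS h3r ?_ ?_ ?_ ?_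
  · intro C hC
    have := hG3 C hC
    omega
  · intro v hv
    refine hFEW I N g t h (4 * a') s (c (o v)) τ so rep (ord (o v)) (f v) hinj ?_ ?_ (hk v hv).1
    · intro i
      refine le_trans (hpt i (o v)) (Finset.card_le_card ?_)
      intro j hj
      have hj' := (Finset.mem_filter.mp hj).2
      have hj'' := (Finset.mem_filter.mp hj').2
      exact Finset.mem_filter.mpr ⟨Finset.mem_univ _, hj''⟩
    · intro i q
      by_contra hcon
      refine hrep' i q (o v) (Finset.mem_filter.mpr ⟨Finset.mem_univ _, ?_⟩)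
      exact not_le.mp hcon
  · intro v hv
    rcases (hk v hv).2 with ⟨D, hD, hDf⟩ | ⟨i, hi, j, hj, hij⟩
    · right
      obtain ⟨C, hC, hCC⟩ := MREF.ax_line hEMB hLFT I N g t h G hG3 τ so rep hinj (f v) D hD hDf
      refine ⟨C, hC, ?_⟩
      intro p V hV
      exact hCC p V (Finset.mem_filter.mp hV).2
    · left
      refine ⟨i, hi, j, hj, ?_⟩
      intro p V hV
      have hV' := (Finset.mem_filter.mp hV).2
      rw [Finset.mem_union]
      by_cases h1 : f i (emb τ so rep p V) = true
      · by_cases h2 : f j (emb τ so rep p V) = true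
        · have h3 := hij _ h1 h2
          rw [h3] at hV'
          exact absurd hV' (by decide)
        · right
          exact Finset.mem_filter.mpr ⟨Finset.mem_univ _, Bool.eq_false_of_not_eq_true h2⟩
      · left
        exact Finset.mem_filter.mpr ⟨Finset.mem_univ _, Bool.eq_false_of_not_eq_true h1⟩
  · obtain ⟨k, hkL, hkf⟩ := hlast
    refine ⟨k, hkL, ?_⟩
    intro p
    ext V
    constructor
    · intro _
      exact Finset.mem_univ _
    · intro _
      exact Finset.mem_filter.mpr ⟨Finset.mem_univ _, hkf _⟩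

end Pool.Agent.DGO
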