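import Pool.Agent.DGO.St3

/-!
# Project DGO, module ROW: at least half of the rows are fine
-/

set_option autoImplicit false

namespace Pool.Agent.DGO

open Finset Pool.Agent.OB

namespace MROW

theorem biUnion_card {N l : ℕ} (A : Fin l → Finset (Fin N))
    (hA : ∀ k, (A k).card = N / (2 * l)) (hl : 1 ≤ l) :
    2 * ((univ : Finset (Fin l)).biUnion A).card ≤ N := by
  have h1 : ((univ : Finset (Fin l)).biUnion A).card ≤ ∑ k : Fin l, (A k).card :=
    Finset.card_biUnion_le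
  have h2 : ∑ k : Fin l, (A k).card = l * (N / (2 * l)) := by
    rw [Finset.sum_congr rfl (fun k _ => hA k), Finset.sum_const, Finset.card_univ,
      Fintype.card_fin, smul_eq_mul]
  have h3 : 2 * l * (N / (2 * l)) ≤ N := Nat.mul_div_le N (2 * l)
  have h4 : 2 * l * (N / (2 * l)) = 2 * (l * (N / (2 * l))) := Nat.mul_assoc _ _ _
  omega

theorem sum_le {l T : ℕ} (e : Fin l → ℕ) (hl : 1 ≤ l) (h : ∀ k, 8 * l * e k ≤ T) :
    8 * ∑ k : Fin l, e k ≤ T := by
  have h1 : ∑ k : Fin l, 8 * l * e k ≤ ∑ _k : Fin l, T := Finset.sum_le_sum fun k _ => h k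
  rw [← Finset.mul_sum, Finset.sum_const, Finset.card_univ, Fintype.card_fin, smul_eq_mul] at h1
  have h2 : l * (8 * ∑ k : Fin l, e k) ≤ l * T := by
    calc l * (8 * ∑ k : Fin l, e k) = 8 * l * ∑ k : Fin l, e k := by ring
      _ ≤ l * T := h1
  exact Nat.le_of_mul_le_mul_left h2 (by omega)

end MROW

open Classical in
theorem t_ROW (hCOL : S_COL) (hEPT : S_EPT) (hECP : S_ECP) : S_ROW := by
  intro N t h l a A U hl hlN hla ht hh hA hq1 hq2
  obtain ⟨T, hT⟩ : ∃ T : ℕ, T = N ^ Fintype.card (Ix t h) := ⟨_, rfl⟩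
  have h1 : ∃ S : Finset (Ix t h → Fin N), (∀ ρ, ¬ Function.Injective ρ → ρ ∈ S) ∧
      8 * S.card ≤ T := by
    rw [hT]
    refine ⟨_, ?_, (hCOL (Ix t h) N U).1 hq1⟩
    intro ρ hρ
    exact Finset.mem_filter.2 ⟨Finset.mem_univ _, hρ⟩
  have h2 : ∃ S : Finset (Ix t h → Fin N), (∀ ρ : Ix t h → Fin N, (∃ x, ρ x ∈ U) → ρ ∈ S) ∧
      8 * S.card ≤ T := by
    rw [hT]
    refine ⟨_, ?_, (hCOL (Ix t h) N U).2 hq2⟩
    intro ρ hρ
    exact Finset.mem_filter.2 ⟨Finset.mem_univ _, hρ⟩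
  have h3 : ∀ k : Fin l, ∃ S : Finset (Ix t h → Fin N),
      (∀ ρ : Ix t h → Fin N, (univ.filter fun j : Fin t => ρ (Sum.inl j) ∈ A k).card < a →
        ρ ∈ S) ∧ 8 * l * S.card ≤ T := by
    intro k
    rw [hT]
    refine ⟨_, ?_, hEPT N t h l a (A k) hl hlN hla ht (hA k)⟩
    intro ρ hρ
    refine Finset.mem_filter.2 ⟨Finset.mem_univ _, ?_⟩
    refine lt_of_le_of_lt (le_of_eq ?_) hρ
    refine Finset.card_bij (fun j _ => j) ?_ ?_ ?_
    · intro j hj
      rw [Finset.mem_filter] at hj ⊢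
      exact hj
    · intro j _ j' _ e
      exact e
    · intro j hj
      rw [Finset.mem_filter] at hj
      exact ⟨j, Finset.mem_filter.2 hj, rfl⟩
  have h4 : ∃ S : Finset (Ix t h → Fin N), (∀ ρ : Ix t h → Fin N,
      (∃ q : Fin t → Bool, ∀ j : Fin h, ρ (Sum.inr (q, j)) ∈ (univ : Finset (Fin l)).biUnion A) →
        ρ ∈ S) ∧ 8 * S.card ≤ T := by
    rw [hT]
    refine ⟨_, ?_, hECP N t h ((univ : Finset (Fin l)).biUnion A) hh
      (MROW.biUnion_card A hA hl)⟩
    intro ρ hρ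
    exact Finset.mem_filter.2 ⟨Finset.mem_univ _, hρ⟩
  obtain ⟨S1, h1a, h1b⟩ := h1
  obtain ⟨S2, h2a, h2b⟩ := h2
  choose S3 h3a h3b using h3
  obtain ⟨S4, h4a, h4b⟩ := h4
  have h3c : 8 * ((univ : Finset (Fin l)).biUnion S3).card ≤ T := by
    have h5 : ((univ : Finset (Fin l)).biUnion S3).card ≤ ∑ k : Fin l, (S3 k).card :=
      Finset.card_biUnion_le
    have h6 := MROW.sum_le (fun k => (S3 k).card) hl h3b
    omega
  rw [← hT]
  have hsub : ((univ : Finset (Ix t h → Fin N)).filter fun ρ => ¬ Fine a A U ρ) ⊆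
      (S1 ∪ S2) ∪ ((univ : Finset (Fin l)).biUnion S3 ∪ S4) := by
    intro ρ hρ
    have hρ' := (Finset.mem_filter.1 hρ).2
    rw [Finset.mem_union, Finset.mem_union, Finset.mem_union]
    by_contra hcon
    push Not at hcon
    obtain ⟨⟨c1, c2⟩, c3, c4⟩ := hcon
    apply hρ'
    refine ⟨?_, ?_, ?_, ?_⟩
    · by_contra hn
      exact c1 (h1a ρ hn)
    · intro x hx
      exact c2 (h2a ρ ⟨x, hx⟩)
    · intro k
      by_contra hn
      apply c3
      rw [Finset.mem_biUnion]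
      refine ⟨k, Finset.mem_univ _, h3a k ρ ?_⟩
      exact Nat.lt_of_not_le hn
    · intro q
      by_contra hn
      push Not at hn
      apply c4
      refine h4a ρ ⟨q, fun j => ?_⟩
      obtain ⟨k, hk⟩ := hn j
      rw [Finset.mem_biUnion]
      exact ⟨k, Finset.mem_univ _, hk⟩
  have hc := Finset.card_le_card hsub
  have hu1 := Finset.card_union_le (S1 ∪ S2) ((univ : Finset (Fin l)).biUnion S3 ∪ S4)
  have hu2 := Finset.card_union_le S1 S2
  have hu3 := Finset.card_union_le ((univ : Finset (Fin l)).biUnion S3) S4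
  omega

end Pool.Agent.DGO
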