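import Pool.Agent.DGO.St3

/-!
# Project DGO, module SEQ: choosing the rows one after the other
-/

set_option autoImplicit false

namespace Pool.Agent.DGO

open Finset Pool.Agent.OB

theorem t_SEQ : S_SEQ := by
  intro I _ _ N g t h l a τ A hyp
  have key : ∀ J : Finset I, ∃ so : I → Fin g → Bool,
      (∀ i ∈ J, Function.Injective (τ i (so i)) ∧
        (∀ k, a ≤ (univ.filter fun j : Fin t => τ i (so i) (Sum.inl j) ∈ A k).card) ∧
        ∀ q : Fin t → Bool, ∃ j : Fin h, ∀ k, τ i (so i) (Sum.inr (q, j)) ∉ A k) ∧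
      ∀ i ∈ J, ∀ i' ∈ J, i ≠ i' → ∀ x y, τ i (so i) x ≠ τ i' (so i') y := by
    intro J
    induction J using Finset.induction_on with
    | empty => exact ⟨fun _ _ => false, by simp, by simp⟩
    | insert i J hi ih =>
      obtain ⟨so, h1, h2⟩ := ih
      have hU : (J.biUnion fun i' => univ.image (τ i' (so i'))).card ≤
          Fintype.card I * Fintype.card (Ix t h) := by
        calc (J.biUnion fun i' => univ.image (τ i' (so i'))).card
            ≤ ∑ i' ∈ J, (univ.image (τ i' (so i'))).card := Finset.card_biUnion_le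
          _ ≤ ∑ _i' ∈ J, Fintype.card (Ix t h) := Finset.sum_le_sum fun i' _ =>
              Finset.card_image_le.trans (le_of_eq Finset.card_univ)
          _ = J.card * Fintype.card (Ix t h) := by rw [Finset.sum_const, smul_eq_mul]
          _ ≤ Fintype.card I * Fintype.card (Ix t h) :=
              Nat.mul_le_mul_right _ (Finset.card_le_univ J)
      obtain ⟨b, hb1, hb2, hb3, hb4⟩ := hyp _ hU i
      have hne : ∀ i' ∈ J, i' ≠ i := fun i' hi' he => hi (he ▸ hi')
      have hnew : ∀ i' ∈ J, ∀ x y, τ i b x ≠ τ i' (so i') y := by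
        intro i' hi' x y he
        apply hb2 x
        rw [Finset.mem_biUnion]
        exact ⟨i', hi', Finset.mem_image.2 ⟨y, Finset.mem_univ y, he.symm⟩⟩
      have hup : ∀ i' ∈ J, Function.update so i b i' = so i' := fun i' hi' =>
        Function.update_of_ne (hne i' hi') b so
      refine ⟨Function.update so i b, ?_, ?_⟩
      · intro i' hi'
        rcases Finset.mem_insert.1 hi' with rfl | hJ
        · rw [Function.update_self]
          exact ⟨hb1, hb3, hb4⟩
        · rw [hup i' hJ]
          exact h1 i' hJ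
      · intro i₁ hi₁ i₂ hi₂ hn x y
        rcases Finset.mem_insert.1 hi₁ with e₁ | hJ₁
        · rcases Finset.mem_insert.1 hi₂ with e₂ | hJ₂
          · exact absurd (e₁.trans e₂.symm) hn
          · rw [e₁, Function.update_self, hup i₂ hJ₂]
            exact hnew i₂ hJ₂ x y
        · rcases Finset.mem_insert.1 hi₂ with e₂ | hJ₂
          · rw [e₂, Function.update_self, hup i₁ hJ₁]
            exact (hnew i₁ hJ₁ y x).symm
          · rw [hup i₁ hJ₁, hup i₂ hJ₂]
            exact h2 i₁ hJ₁ i₂ hJ₂ hn x y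
  obtain ⟨so, h1, h2⟩ := key univ
  refine ⟨so, ?_, fun i => (h1 i (Finset.mem_univ i)).2.1, fun i => (h1 i (Finset.mem_univ i)).2.2⟩
  rintro ⟨i₁, x₁⟩ ⟨i₂, x₂⟩ he
  by_cases hi : i₁ = i₂
  · subst hi
    have : x₁ = x₂ := (h1 i₁ (Finset.mem_univ i₁)).1 he
    rw [this]
  · exact absurd he (h2 i₁ (Finset.mem_univ _) i₂ (Finset.mem_univ _) hi x₁ x₂)

end Pool.Agent.DGO
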