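import Pool.Agent.DGO.St2

/-!
# Renaming the variables
-/

set_option autoImplicit false

namespace Pool.Agent.DGO

open Finset Pool.Agent.OB

namespace MTRN

/-- the renamed clause -/
def ren {V V' : Type} [DecidableEq V'] (e : V ≃ V') (C : Clause V) : Clause V' :=
  C.image fun l => (e l.1, l.2)

lemma mem_ren {V V' : Type} [DecidableEq V'] (e : V ≃ V') (C : Clause V) (v : V) (b : Bool) :
    (e v, b) ∈ ren e C ↔ (v, b) ∈ C := by
  unfold ren
  rw [Finset.mem_image]
  constructor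
  · rintro ⟨l, hl, h⟩
    obtain ⟨u, c⟩ := l
    have h1 : e u = e v := congrArg Prod.fst h
    have h2 : c = b := congrArg Prod.snd h
    have h3 : u = v := e.injective h1
    subst h2
    subst h3
    exact hl
  · intro h
    exact ⟨(v, b), h, rfl⟩

lemma sat_ren {V V' : Type} [DecidableEq V'] (e : V ≃ V') (C : Clause V) (x : V' → Bool) :
    Sat x (ren e C) ↔ Sat (fun v => x (e v)) C := by
  unfold Sat
  constructor
  · rintro ⟨l, hl, h⟩
    unfold ren at hl
    rw [Finset.mem_image] at hl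
    obtain ⟨u, hu, rfl⟩ := hl
    exact ⟨u, hu, h⟩
  · rintro ⟨l, hl, h⟩
    refine ⟨(e l.1, l.2), ?_, h⟩
    unfold ren
    rw [Finset.mem_image]
    exact ⟨l, hl, rfl⟩

/-- the renamed label -/
def rl {V V' : Type} {s : ℕ} (e : V ≃ V') : Bool ⊕ (V' × Fin s × Fin s) → Bool ⊕ (V × Fin s × Fin s)
  | Sum.inl b => Sum.inl b
  | Sum.inr p => Sum.inr (e.symm p.1, p.2.1, p.2.2)

lemma rl_inr {V V' : Type} {s : ℕ} (e : V ≃ V') (a : Bool ⊕ (V' × Fin s × Fin s)) (v : V)
    (lo hi : Fin s) (h : rl e a = Sum.inr (v, lo, hi)) : a = Sum.inr (e v, lo, hi) := by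
  rcases a with b | ⟨u, lo', hi'⟩
  · simp [rl] at h
  · simp only [rl, Sum.inr.injEq, Prod.mk.injEq] at h
    obtain ⟨h1, h2, h3⟩ := h
    subst h1
    subst h2
    subst h3
    simp

/-- the renamed diagram -/
def rd {V V' : Type} {s : ℕ} (e : V ≃ V') (D : BDD V' s) : BDD V s :=
  ⟨D.root, fun i => rl e (D.node i)⟩

lemma out_rd {V V' : Type} {s : ℕ} (e : V ≃ V') (D : BDD V' s) (x : V → Bool) (i : Fin s) (b : Bool)
    (h : D.Out (fun v => x (e.symm v)) i b) : (rd e D).Out x i b := by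
  induction h with
  | sink h => 
    refine BDD.Out.sink ?_
    show rl e (D.node _) = _
    rw [h]
    rfl
  | step h _ ih =>
    refine BDD.Out.step (lo := _) (hi := _) (v := e.symm _) ?_ ih
    show rl e (D.node _) = _
    rw [h]
    rfl

lemma obdd_rd {V V' : Type} [Fintype V] [Fintype V'] {s : ℕ} (e : V ≃ V')
    (hc : Fintype.card V' = Fintype.card V) (σ : V' ≃ Fin (Fintype.card V'))
    (f : (V' → Bool) → Bool) (h : HasOBDD σ s f) :
    HasOBDD (e.trans (σ.trans (finCongr hc))) s (fun x => f (fun v => x (e.symm v))) := by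
  obtain ⟨D, hD, hf⟩ := h
  refine ⟨rd e D, ?_, ?_⟩
  · intro i v lo hi hi1 j hj v' lo' hi' hj1
    have h1 := rl_inr e (D.node i) v lo hi hi1
    have h2 := rl_inr e (D.node j) v' lo' hi' hj1
    have h3 := hD i (e v) lo hi h1 j hj (e v') lo' hi' h2
    show (finCongr hc) (σ (e v)) < (finCongr hc) (σ (e v'))
    exact h3
  · intro x
    exact out_rd e D x D.root _ (hf (fun v => x (e.symm v)))

end MTRN

open MTRN in
theorem t_TRN : S_TRN := by
  intro V V' _ _ _ _ e F
  have hc : Fintype.card V' = Fintype.card V := (Fintype.card_congr e).symm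
  refine ⟨F.image (ren e), ?_, Finset.card_image_le, ?_, ?_, ?_⟩
  · intro hF x
    obtain ⟨C, hC, h⟩ := hF (fun v => x (e v))
    refine ⟨ren e C, Finset.mem_image_of_mem _ hC, ?_⟩
    rw [sat_ren]
    exact h
  · intro w hw C hC
    rw [Finset.mem_image] at hC
    obtain ⟨C, hC, rfl⟩ := hC
    exact le_trans Finset.card_image_le (hw C hC)
  · intro hT C hC
    rw [Finset.mem_image] at hC
    obtain ⟨C, hC, rfl⟩ := hC
    rintro ⟨v, h1, h2⟩
    refine hT C hC ⟨e.symm v, ?_, ?_⟩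
    · rw [← mem_ren e, Equiv.apply_symm_apply]
      exact h1
    · rw [← mem_ren e, Equiv.apply_symm_apply]
      exact h2
  · rintro l s L ⟨ord, o, f, h1, h2⟩
    refine ⟨fun k => e.trans ((ord k).trans (finCongr hc)), o, fun k x => f k (fun v => x (e.symm v)),
      ?_, ?_⟩
    · intro k hk
      obtain ⟨⟨s', hs', hO⟩, h3⟩ := h1 k hk
      refine ⟨⟨s', hs', obdd_rd e hc (ord (o k)) (f k) hO⟩, ?_⟩
      rcases h3 with ⟨C, hC, h4⟩ | ⟨i, hi, j, hj, h4⟩
      · left
        rw [Finset.mem_image] at hC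
        obtain ⟨C, hC, rfl⟩ := hC
        refine ⟨C, hC, fun x hx => h4 _ ?_⟩
        rw [sat_ren]
        simpa using hx
      · right
        exact ⟨i, hi, j, hj, fun x hx hy => h4 _ hx hy⟩
    · obtain ⟨k, hk, h3⟩ := h2
      exact ⟨k, hk, fun x => h3 _⟩

end Pool.Agent.DGO
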