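import Pool.Agent.DGO.St3

/-!
# Project DGO, module UNI (helper62): a table for all sets (union bound)
-/

set_option autoImplicit false

namespace Pool.Agent.DGO

open Finset Pool.Agent.OB

namespace MUNI

lemma count {I β R : Type} [Fintype I] [DecidableEq I] [Fintype β] [DecidableEq β] [Fintype R]
    (B : Finset R) (hb : 2 * B.card ≤ Fintype.card R) (i : I) :
    2 ^ Fintype.card β * (Fintype.piFinset (fun j : I => if j = i then
      Fintype.piFinset (fun _ : β => B) else univ)).card ≤ Fintype.card (I → β → R) := by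
  rw [Fintype.card_piFinset, Fintype.card_pi]
  rw [← Finset.mul_prod_erase univ _ (Finset.mem_univ i),
    ← Finset.mul_prod_erase univ (fun _ : I => Fintype.card (β → R)) (Finset.mem_univ i),
    ← mul_assoc]
  apply Nat.mul_le_mul
  · rw [if_pos rfl, Fintype.card_piFinset, Finset.prod_const, Finset.card_univ, ← mul_pow,
      Fintype.card_fun]
    exact Nat.pow_le_pow_left hb _
  · apply Finset.prod_le_prod'
    intro j hj
    rw [if_neg (Finset.ne_of_mem_erase hj), Finset.card_univ]

lemma exTable {I β R X : Type} [Fintype I] [DecidableEq I] [Fintype β] [DecidableEq β] [Fintype R]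
    [Nonempty R] [Fintype X] (B : X → Finset R) (hb : ∀ x, 2 * (B x).card ≤ Fintype.card R)
    (hc : Fintype.card X * Fintype.card I < 2 ^ Fintype.card β) :
    ∃ τ : I → β → R, ∀ x i, ∃ b, τ i b ∉ B x := by
  by_contra hcon
  push Not at hcon
  have h1 : Fintype.card (I → β → R) ≤ ∑ y : X × I, (Fintype.piFinset (fun j : I =>
      if j = y.2 then Fintype.piFinset (fun _ : β => B y.1) else univ)).card := by
    classical
    rw [← Finset.card_univ (α := I → β → R)]
    refine le_trans (Finset.card_le_card ?_) (Finset.card_biUnion_le (s := univ)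
      (t := fun y : X × I => Fintype.piFinset (fun j : I =>
      if j = y.2 then Fintype.piFinset (fun _ : β => B y.1) else univ)))
    intro τ _
    obtain ⟨x, i, hx⟩ := hcon τ
    rw [Finset.mem_biUnion]
    refine ⟨(x, i), Finset.mem_univ _, ?_⟩
    rw [Fintype.mem_piFinset]
    intro j
    by_cases hj : j = i
    · simp only [hj, if_true]
      rw [Fintype.mem_piFinset]
      exact hx
    · simp only [hj, if_false]
      exact Finset.mem_univ _
  have h2 : 2 ^ Fintype.card β * Fintype.card (I → β → R) ≤
      (Fintype.card X * Fintype.card I) * Fintype.card (I → β → R) := by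
    calc 2 ^ Fintype.card β * Fintype.card (I → β → R)
        ≤ 2 ^ Fintype.card β * ∑ y : X × I, (Fintype.piFinset (fun j : I =>
          if j = y.2 then Fintype.piFinset (fun _ : β => B y.1) else univ)).card :=
          Nat.mul_le_mul_left _ h1
      _ = ∑ y : X × I, 2 ^ Fintype.card β * (Fintype.piFinset (fun j : I =>
          if j = y.2 then Fintype.piFinset (fun _ : β => B y.1) else univ)).card :=
          Finset.mul_sum _ _ _
      _ ≤ ∑ _y : X × I, Fintype.card (I → β → R) :=
          Finset.sum_le_sum fun y _ => count (B y.1) (hb y.1) y.2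
      _ = (Fintype.card X * Fintype.card I) * Fintype.card (I → β → R) := by
          rw [Finset.sum_const, Finset.card_univ, Fintype.card_prod, smul_eq_mul]
  have h3 : 0 < Fintype.card (I → β → R) := Fintype.card_pos
  exact absurd (Nat.le_of_mul_le_mul_right h2 h3) (not_le.2 hc)

end MUNI

open MUNI in
theorem t_UNI : S_UNI := by
  intro I _ _ N g t h l a hN hbad hg
  have hne : Nonempty (Ix t h → Fin N) := ⟨fun _ => ⟨0, hN⟩⟩
  classical
  obtain ⟨τ, hτ⟩ := exTable (I := I) (β := Fin g → Bool) (R := Ix t h → Fin N)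
    (X := {y : (Fin l → Finset (Fin N)) × Finset (Fin N) //
      (∀ k, (y.1 k).card = N / (2 * l)) ∧ y.2.card ≤ Fintype.card I * Fintype.card (Ix t h)})
    (fun y => (univ : Finset (Ix t h → Fin N)).filter fun ρ => ¬ Fine a y.1.1 y.1.2 ρ)
    (fun y => by
      have h1 := hbad y.1.1 y.1.2 y.2.1 y.2.2
      rw [Fintype.card_fun, Fintype.card_fin]
      exact h1) (by
      have h1 : Fintype.card {y : (Fin l → Finset (Fin N)) × Finset (Fin N) //
          (∀ k, (y.1 k).card = N / (2 * l)) ∧
            y.2.card ≤ Fintype.card I * Fintype.card (Ix t h)} ≤ 2 ^ (N * (l + 1)) := by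
        refine le_trans (Fintype.card_subtype_le _) ?_
        rw [Fintype.card_prod, Fintype.card_fun, Fintype.card_finset, Fintype.card_fin,
          Fintype.card_fin, ← pow_mul, ← pow_add, mul_add, mul_one]
      have h2 : Fintype.card I < 2 ^ Fintype.card I := Nat.lt_two_pow_self
      rw [Fintype.card_fun, Fintype.card_bool, Fintype.card_fin]
      calc _ ≤ 2 ^ (N * (l + 1)) * Fintype.card I := Nat.mul_le_mul_right _ h1
        _ < 2 ^ (N * (l + 1)) * 2 ^ Fintype.card I := Nat.mul_lt_mul_of_pos_left h2 (by positivity)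
        _ = 2 ^ (N * (l + 1) + Fintype.card I) := by rw [pow_add]
        _ ≤ 2 ^ 2 ^ g := Nat.pow_le_pow_right (by norm_num) hg)
  refine ⟨τ, fun A U hA hU i => ?_⟩
  obtain ⟨b, hb⟩ := hτ ⟨(A, U), hA, hU⟩ i
  refine ⟨b, ?_⟩
  rw [Finset.mem_filter] at hb
  by_contra hcon
  exact hb ⟨Finset.mem_univ _, hcon⟩

end Pool.Agent.DGO
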