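import Pool.Agent.DGO.Core
import Pool.Agent.DGO.Asm
import Pool.Agent.DGO.Cor
import Pool.Agent.DGO.CLC
import Pool.Agent.DGO.HOF
import Pool.Agent.DGO.MOM
import Pool.Agent.DGO.SM
import Pool.Agent.DGO.CHD
import Pool.Agent.DGO.SWP
import Pool.Agent.DGO.CHP
import Pool.Agent.DGO.GOO
import Pool.Agent.DGO.PST
import Pool.Agent.DGO.FR
import Pool.Agent.DGO.BAD
import Pool.Agent.DGO.ALL
import Pool.Agent.DGO.EXT
import Pool.Agent.DGO.WLK
import Pool.Agent.DGO.STA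
import Pool.Agent.DGO.PHP
import Pool.Agent.DGO.LFT
import Pool.Agent.DGO.EMB
import Pool.Agent.DGO.OST
import Pool.Agent.DGO.FEW
import Pool.Agent.DGO.CTL
import Pool.Agent.DGO.TRN
import Pool.Agent.DGO.COL
import Pool.Agent.DGO.EPT
import Pool.Agent.DGO.ECP
import Pool.Agent.DGO.ROW
import Pool.Agent.DGO.UNI
import Pool.Agent.DGO.SEQ
import Pool.Agent.DGO.REF
import Pool.Agent.DGO.NUM

/-!
# Project DGO: the theorem
-/

set_option autoImplicit false

namespace Pool.Agent.DGO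

theorem sm : S_SM := t_SM t_CLC t_HOF t_MOM

theorem chp : S_CHP := t_CHP t_CHD t_SWP

theorem ext' : S_EXT := t_EXT t_CHD

theorem core : S_CORE :=
  t_CORE sm chp (t_GOO t_CHD) (t_PST t_CLC) (t_WLK t_CHD t_FR t_BAD ext')
    (t_STA t_CHD t_BAD t_ALL ext')

theorem ref : S_REF := t_REF t_EMB (t_FEW t_OST t_EMB) t_CTL t_LFT core

theorem main : S_MAIN :=
  t_MAIN t_PHP t_LFT t_TRN (t_ROW t_COL t_EPT t_ECP) t_UNI t_SEQ ref t_NUM

theorem cor : S_COR := t_COR main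

end Pool.Agent.DGO
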