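import Pool.Agent.DGO.St1
import Pool.Agent.DGO.St2

/-!
# Project DGO: statements, part 3 (the random table, the numbers, the theorem)
-/

set_option autoImplicit false

namespace Pool.Agent.DGO

open Finset Pool.Agent.OB

/-- A row is fine for the sets `A k` and the set `U`: it is injective, avoids `U`, has at least `a`
pointer positions in each `A k`, and each bit of the table has a copy outside of all `A k`. -/
def Fine {N t h l : ℕ} (a : ℕ) (A : Fin l → Finset (Fin N)) (U : Finset (Fin N))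
    (ρ : Ix t h → Fin N) : Prop :=
  Function.Injective ρ ∧ (∀ x, ρ x ∉ U) ∧
  (∀ k, a ≤ (univ.filter fun j : Fin t => ρ (Sum.inl j) ∈ A k).card) ∧
  ∀ q : Fin t → Bool, ∃ j : Fin h, ∀ k, ρ (Sum.inr (q, j)) ∉ A k

open Classical in
/-- COL: few functions are not injective, few hit a small set.
Proof. (1) For `x ≠ y` there are `N ^ (|X| - 1)` functions with `ρ x = ρ y`; at most `|X| ^ 2` ordered
pairs; `8 |X| ^ 2 N ^ (|X| - 1) ≤ N ^ |X|`. (2) For each `x` there are `|U| N ^ (|X| - 1)` functions with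
`ρ x ∈ U` (`Fintype.piFinset` with `U` at `x` and `univ` elsewhere: `Fintype.card_piFinset`,
`Finset.prod_update_of_mem` or `Finset.prod_ite_eq`-like). (For (1): `ρ` with `ρ x = ρ y` is determined
by its restriction to `{z // z ≠ x}`: `Finset.card_le_card_of_injOn`.) -/
def S_COL : Prop := ∀ (X : Type) [Fintype X] [DecidableEq X] (N : ℕ) (U : Finset (Fin N)),
  (8 * Fintype.card X ^ 2 ≤ N →
    8 * ((univ : Finset (X → Fin N)).filter fun ρ => ¬ Function.Injective ρ).card ≤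
      N ^ Fintype.card X) ∧
  (8 * Fintype.card X * U.card ≤ N →
    8 * ((univ : Finset (X → Fin N)).filter fun ρ => ∃ x, ρ x ∈ U).card ≤ N ^ Fintype.card X)

open Classical in
/-- EPT: few rows have less than `a` pointer positions in `A`.
Proof. `X = Ix t h`. The sum over `ρ` of `(1/2) ^ #{j | ρ (inl j) ∈ A}` is
`∏ x, ∑ y, w x y` with `w (inl j) y = if y ∈ A then 1/2 else 1`, `w (inr _) y = 1`
(`Finset.prod_univ_sum`), which is `N ^ |X| * (1 - |A| / (2 N)) ^ t`. `|A| = N / (2 l) ≥ N / (4 l)` in `ℝ`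
(`N ≥ 2 l`), so it is at most `N ^ |X| (1 - 1 / (8 l)) ^ (12 l a) ≤ N ^ |X| exp (- (3/2) a)
≤ N ^ |X| 4 ^ (-a)` (`4 ≤ exp (3/2)`, from `Real.exp_one_gt_d9` or `1 + 3/2 + 9/8 + 27/48 ≥ 4`,
`Real.sum_le_exp_of_nonneg` or `Real.quadratic_le_exp_of_nonneg` twice). Rows with less than `a`
positions have weight at least `2 ^ (-a)`, so there are at most `2 ^ (-a) N ^ |X|` of them, and
`8 l ≤ 2 ^ a`. -/
def S_EPT : Prop := ∀ (N t h l a : ℕ) (A : Finset (Fin N)), 1 ≤ l → 2 * l ≤ N → 8 * l ≤ 2 ^ a →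
  t = 12 * l * a → A.card = N / (2 * l) →
  8 * l * ((univ : Finset (Ix t h → Fin N)).filter fun ρ =>
    (univ.filter fun j : Fin t => ρ (Sum.inl j) ∈ A).card < a).card ≤
      N ^ Fintype.card (Ix t h)

open Classical in
/-- ECP: few rows have all copies of a bit in `B`.
Proof. For each `q` the rows with `ρ (inr (q, j)) ∈ B` for all `j : Fin h` are a `Fintype.piFinset` with
`|B| ^ h N ^ (|X| - h)` elements, `≤ 2 ^ (-h) N ^ |X|`; there are `2 ^ t` words `q`, and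
`h = t + 3`. -/
def S_ECP : Prop := ∀ (N t h : ℕ) (B : Finset (Fin N)), h = t + 3 → 2 * B.card ≤ N →
  8 * ((univ : Finset (Ix t h → Fin N)).filter fun ρ =>
    ∃ q : Fin t → Bool, ∀ j : Fin h, ρ (Sum.inr (q, j)) ∈ B).card ≤ N ^ Fintype.card (Ix t h)

open Classical in
/-- ROW (uses `S_COL`, `S_EPT`, `S_ECP`): at least half of the rows are fine.
Proof. `B` = the union of the `A k`, `|B| ≤ l * (N / (2 l)) ≤ N / 2`. A row that is not fine is in one of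
the four sets of COL, EPT (for some `k`), ECP. -/
def S_ROW : Prop := ∀ (N t h l a : ℕ) (A : Fin l → Finset (Fin N)) (U : Finset (Fin N)), 1 ≤ l →
  2 * l ≤ N → 8 * l ≤ 2 ^ a → t = 12 * l * a → h = t + 3 → (∀ k, (A k).card = N / (2 * l)) →
  8 * Fintype.card (Ix t h) ^ 2 ≤ N → 8 * Fintype.card (Ix t h) * U.card ≤ N →
  2 * ((univ : Finset (Ix t h → Fin N)).filter fun ρ => ¬ Fine a A U ρ).card ≤
    N ^ Fintype.card (Ix t h)

open Classical in
/-- UNI: a table for all `A`, `U`.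
Proof. For fixed `A`, `U`, `i` the tables `τ` such that no row `τ i σ` is fine: all `2 ^ g` rows of the
block `i` are in a set with at most half of the rows, so their number times `2 ^ (2 ^ g)` is at most
the number `Tot` of all tables (`Fintype.piFinset` for `I → (Fin g → Bool) → rows`, or curry). There are
at most `2 ^ (N l) * 2 ^ N * n` triples `(A, U, i)`, and `n < 2 ^ n`; so if each table were bad for some
triple then `Tot * 2 ^ (2 ^ g) ≤ 2 ^ (N (l + 1)) * n * Tot < 2 ^ (N (l + 1) + n) * Tot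
≤ 2 ^ (2 ^ g) * Tot` (`Tot > 0` as `N > 0`). -/
def S_UNI : Prop := ∀ (I : Type) [Fintype I] [DecidableEq I] (N g t h l a : ℕ), 1 ≤ N →
  (∀ (A : Fin l → Finset (Fin N)) (U : Finset (Fin N)), (∀ k, (A k).card = N / (2 * l)) →
    U.card ≤ Fintype.card I * Fintype.card (Ix t h) →
    2 * ((univ : Finset (Ix t h → Fin N)).filter fun ρ => ¬ Fine a A U ρ).card ≤
      N ^ Fintype.card (Ix t h)) →
  N * (l + 1) + Fintype.card I ≤ 2 ^ g →
  ∃ τ : I → (Fin g → Bool) → Ix t h → Fin N, ∀ (A : Fin l → Finset (Fin N)) (U : Finset (Fin N)),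
    (∀ k, (A k).card = N / (2 * l)) → U.card ≤ Fintype.card I * Fintype.card (Ix t h) →
    ∀ i, ∃ b, Fine a A U (τ i b)

/-- SEQ: choosing the rows one after the other.
Proof. Induction on the finite set `J` of blocks: there is `so` such that the rows `τ i (so i)`,
`i ∈ J`, are injective, have the two properties, and the ranges of two of them are disjoint. For the
next block `i` take `U` = the union of the ranges for `J` (`|U| ≤ |J| |Ix t h| ≤ n |Ix t h|`) and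
`so i := b` from the hypothesis (`Function.update`). At the end `J = univ`. -/
def S_SEQ : Prop := ∀ (I : Type) [Fintype I] [DecidableEq I] (N g t h l a : ℕ)
  (τ : I → (Fin g → Bool) → Ix t h → Fin N) (A : Fin l → Finset (Fin N)),
  (∀ U : Finset (Fin N), U.card ≤ Fintype.card I * Fintype.card (Ix t h) →
    ∀ i, ∃ b, Fine a A U (τ i b)) →
  ∃ so : I → Fin g → Bool, (Function.Injective fun v : I × Ix t h => τ v.1 (so v.1) v.2) ∧
    (∀ i k, a ≤ (univ.filter fun j : Fin t => τ i (so i) (Sum.inl j) ∈ A k).card) ∧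
    ∀ i (q : Fin t → Bool), ∃ j : Fin h, ∀ k, τ i (so i) (Sum.inr (q, j)) ∉ A k

/-- REF (uses `S_EMB`, `S_FEW`, `S_CTL`, `S_LFT`, `S_CORE`): the lower bound for a good table.
Proof. Let `(ord, o, f)` be the refutation, `A k = {x | ord k (inl x) < c k}` with `c k` from CTL
(`κ = N / (2 l)`). The hypothesis `hτ` gives `so`, and `rep i q := (the j).choose`. Apply CORE with
`F v p = univ.filter fun V => f v (emb τ so rep p V) = false`, `w = m`, `S = s`: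
`Few (4 a') s (F v)` by FEW for the order `ord (o v)` and the cut `c (o v)`
(`x ∉ A k` is `c k ≤ ord k (inl x)`); inferences: if `f v = false` at a point then `f i = false` or
`f j = false` there; axioms: `C' ∈ lift τ G` falsified by `emb τ so rep p V`, by LFT (1) some `C ∈ G`
is falsified by `Z τ (emb ..)`, which is `fun i => V i (p i)` by EMB; the last line is `false`
everywhere. -/
def S_REF : Prop := ∀ (I : Type) [Fintype I] [DecidableEq I] (N g t h l a' d r w s L lg : ℕ)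
  (G : CNF I) (H : Finset I → (I → Bool) → Prop) (τ : I → (Fin g → Bool) → Ix t h → Fin N),
  1 ≤ l →
  (∀ A : Fin l → Finset (Fin N), (∀ k, (A k).card = N / (2 * l)) →
    ∃ so : I → Fin g → Bool, (Function.Injective fun v : I × Ix t h => τ v.1 (so v.1) v.2) ∧
      (∀ i k, 4 * a' ≤ (univ.filter fun j : Fin t => τ i (so i) (Sum.inl j) ∈ A k).card) ∧
      ∀ i (q : Fin t → Bool), ∃ j : Fin h, ∀ k, τ i (so i) (Sum.inr (q, j)) ∉ A k) →
  3 ≤ Fintype.card I → 512 * Fintype.card I ^ 5 ≤ 2 ^ a' →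
  4 * Fintype.card I * (256 * Fintype.card I ^ 5) ^ Fintype.card I * 4 ^ d ≤
    2 ^ ((2 ^ a') ^ 2 / 2) →
  d = Fintype.card I * t + 3 * Fintype.card I + 1 + lg → L ≤ 2 ^ lg →
  Strat G w H → 3 * r ≤ w → (∀ C ∈ G, C.card ≤ 3) → r + 3 ≤ w →
  DagRef (lift τ G) l s L → Fintype.card I ^ r ≤ L * s

/-- NUM: the numbers.
Proof. `K = 2 ^ 20`. Let `m` be the largest number with `m ^ (8000 l) ≤ N` (exists: `Nat.findGreatest`, or
`Nat.find` for the first failure); as `(2 ^ 20 * l) ^ (8000 l) ≤ (K l) ^ (K l) ≤ N`, `m ≥ 2 ^ 20 * l`;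
`N < (m + 1) ^ (8000 l)`. `n = (m + 1) (2 m + 1) ≤ 3 m² ≤ m³`, `a' = Nat.clog 2 (512 n ^ 5)`, so
`512 n ^ 5 ≤ 2 ^ a' ≤ 1024 n ^ 5 ≤ m ^ 16`. `t = 48 l a'`, so `2 ^ t ≤ m ^ (768 l)`. `t + 3 ≤ 2 ^ t`, so
`q = t + 2 ^ t (t + 3) ≤ 2 ^ (2 t + 1)`, `8 q² n ≤ 2 ^ (4 t + 5) n ≤ m ^ (3072 l + 4)`.
`g = Nat.clog 2 (N (l + 1) + n)`: `N (l + 1) + n ≤ 2 ^ g ≤ 2 (N (l + 1) + n) ≤ N ^ 3`, so
`g ≤ 3 (Nat.log 2 N + 1)` and `n g ≤ N / 2` (`n ≤ m ^ 3`, `m ^ 8000 ≤ N`,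
`Nat.log 2 N` is small against `√N`). `N₀ = N - n g ≥ N / 2 ≥ m ^ (7000 l)`, so `8 q² n ≤ N₀`,
`2 l ≤ N₀`, `N₀ (l + 1) + n ≤ 2 ^ g`. `8 l ≤ 2 ^ a' ≤ 2 ^ (4 a')` (`512 n ^ 5 ≥ 8 l`).
The condition with `4 ^ d`: the exponent (base 2) of the left hand side is at most
`2 + n + n (8 + 5 n) + 2 (n t + 3 n + 1 + m)` with `t ≤ 48 n * 16 n` (`l ≤ n`, `a' ≤ 16 n`), `m ≤ n`, and
this is at most `2 ^ 17 n ^ 10 ≤ (2 ^ a')² / 2`. Sizes: `4 (m + 1)³ ≤ N`,
`2 ^ (3 (g + t + (t + 3))) ≤ (N³)³ (2 ^ t) ^ 6 2 ^ 9 ≤ N ^ 16`; so the exponent is at most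
`16 (Nat.log 2 N + 1) ≤ 32 Nat.log 2 N`. Last claim, with `c = 1 / 16000`: `N ^ (c / l) < (m + 1) ^ (1/2) ≤ m / 4`
(real powers). If `2 ^ m < L` clear. If `n ^ (m / 3) ≤ L s ≤ (max s L)²`: `n ≥ 2 ^ 41`, so
`n ^ (m / 3) ≥ 2 ^ (41 (m / 3)) ≥ 2 ^ m` (natural division), so `max s L ≥ 2 ^ (m / 2)` (real). -/
def S_NUM : Prop := ∃ K : ℕ, 17 ≤ K ∧ ∀ l : ℕ, 1 ≤ l → ∀ N : ℕ, (K * l) ^ (K * l) ≤ N →
  ∃ m a' g N₀ n t : ℕ, n = (m + 1) * (2 * m + 1) ∧ t = 12 * l * (4 * a') ∧ N₀ + n * g = N ∧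
    6 ≤ m ∧ 1 ≤ N₀ ∧ 2 * l ≤ N₀ ∧ 8 * l ≤ 2 ^ (4 * a') ∧
    8 * (t + 2 ^ t * (t + 3)) ^ 2 * n ≤ N₀ ∧ N₀ * (l + 1) + n ≤ 2 ^ g ∧
    512 * n ^ 5 ≤ 2 ^ a' ∧
    4 * n * (256 * n ^ 5) ^ n * 4 ^ (n * t + 3 * n + 1 + m) ≤ 2 ^ ((2 ^ a') ^ 2 / 2) ∧
    4 * (m + 1) ^ 3 * 2 ^ (3 * (g + t + (t + 3))) ≤ N ^ K ∧
    3 * (g + t + (t + 3)) ≤ K * Nat.log 2 N ∧
    ∀ s L : ℕ, 2 ^ m < L ∨ n ^ (m / 3) ≤ L * s →
      (2 : ℝ) ^ ((N : ℝ) ^ ((1 / 16000 : ℝ) / l)) ≤ (max s L : ℕ)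

/-- The theorem. -/
def S_MAIN : Prop := ∃ (c : ℝ) (K : ℕ), 0 < c ∧ ∀ l : ℕ, 1 ≤ l → ∀ N : ℕ, (K * l) ^ (K * l) ≤ N →
  ∃ F : CNF (Fin N), Unsat F ∧ F.card ≤ N ^ K ∧ (∀ C ∈ F, C.card ≤ K * Nat.log 2 N ∧ ¬ Taut C) ∧
    ∀ s L : ℕ, DagRef F l s L → (2 : ℝ) ^ ((N : ℝ) ^ (c / l)) ≤ (max s L : ℕ)

end Pool.Agent.DGO
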